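import Pool.Agent.Lib.MP_a1e562_co.Stm

set_option autoImplicit false

namespace Pool.Agent.TP3

open Configuration

private theorem A1_core (P L : Type) [Membership P L] [ProjectivePlane P L] (C : Set P)
    (hC : C.ncard = 13) (a b c d : P) (ha : a ∈ C) (hb : b ∈ C) (hc : c ∈ C) (hd : d ∈ C)
    (h1 : ¬ ∃ l : L, a ∈ l ∧ b ∈ l ∧ c ∈ l)
    (h2 : ¬ ∃ l : L, a ∈ l ∧ b ∈ l ∧ d ∈ l)
    (h3 : ¬ ∃ l : L, a ∈ l ∧ c ∈ l ∧ d ∈ l)
    (h4 : ¬ ∃ l : L, b ∈ l ∧ c ∈ l ∧ d ∈ l)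
    (hcl : ∀ l m : L, (∃ p ∈ C, ∃ q ∈ C, p ≠ q ∧ p ∈ l ∧ q ∈ l) →
      (∃ p ∈ C, ∃ q ∈ C, p ≠ q ∧ p ∈ m ∧ q ∈ m) → l ≠ m → ∀ x : P, x ∈ l → x ∈ m → x ∈ C) :
    Sub4 P L C := by
  classical
  let T : Set L := {l | ∃ p ∈ C, ∃ q ∈ C, p ≠ q ∧ p ∈ l ∧ q ∈ l}
  -- the joining line
  have hab : a ≠ b := by
    rintro rfl
    by_cases hac : a = c
    · subst hac
      by_cases had : a = d
      · subst had
        obtain ⟨p₁, p₂, p₃, l₁, l₂, l₃, q1, q2, q3, q4, q5, q6, q7, q8⟩ :=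
          @ProjectivePlane.exists_config P L _ _
        by_cases hh : a = p₁
        · have hne : a ≠ p₂ := by
            rintro rfl
            exact q1 (hh ▸ q4)
          have := HasLines.mkLine_ax (L := L) hne
          exact h1 ⟨_, this.1, this.1, this.1⟩
        · have := HasLines.mkLine_ax (L := L) hh
          exact h1 ⟨_, this.1, this.1, this.1⟩
      · have := HasLines.mkLine_ax (L := L) had
        exact h1 ⟨_, this.1, this.1, this.1⟩
    · have := HasLines.mkLine_ax (L := L) hac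
      exact h1 ⟨_, this.1, this.1, this.2⟩
  have hac : a ≠ c := by
    rintro rfl
    have := HasLines.mkLine_ax (L := L) hab
    exact h1 ⟨_, this.1, this.2, this.1⟩
  have had : a ≠ d := by
    rintro rfl
    have := HasLines.mkLine_ax (L := L) hab
    exact h2 ⟨_, this.1, this.2, this.1⟩
  have hbc : b ≠ c := by
    rintro rfl
    have := HasLines.mkLine_ax (L := L) hab
    exact h1 ⟨_, this.1, this.2, this.2⟩
  have hbd : b ≠ d := by
    rintro rfl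
    have := HasLines.mkLine_ax (L := L) hab
    exact h2 ⟨_, this.1, this.2, this.2⟩
  obtain ⟨lab, hlab1, hlab2⟩ : ∃ l : L, a ∈ l ∧ b ∈ l := ⟨_, HasLines.mkLine_ax (L := L) hab⟩
  obtain ⟨lac, hlac1, hlac2⟩ : ∃ l : L, a ∈ l ∧ c ∈ l := ⟨_, HasLines.mkLine_ax (L := L) hac⟩
  obtain ⟨lad, hlad1, hlad2⟩ : ∃ l : L, a ∈ l ∧ d ∈ l := ⟨_, HasLines.mkLine_ax (L := L) had⟩
  obtain ⟨lbc, hlbc1, hlbc2⟩ : ∃ l : L, b ∈ l ∧ c ∈ l := ⟨_, HasLines.mkLine_ax (L := L) hbc⟩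
  obtain ⟨lbd, hlbd1, hlbd2⟩ : ∃ l : L, b ∈ l ∧ d ∈ l := ⟨_, HasLines.mkLine_ax (L := L) hbd⟩
  have tab : lab ∈ T := ⟨a, ha, b, hb, hab, hlab1, hlab2⟩
  have tac : lac ∈ T := ⟨a, ha, c, hc, hac, hlac1, hlac2⟩
  have tad : lad ∈ T := ⟨a, ha, d, hd, had, hlad1, hlad2⟩
  have tbc : lbc ∈ T := ⟨b, hb, c, hc, hbc, hlbc1, hlbc2⟩
  have tbd : lbd ∈ T := ⟨b, hb, d, hd, hbd, hlbd1, hlbd2⟩
  letI mem : Membership {x : P // x ∈ C} {l : L // l ∈ T} := ⟨fun l p => (p : P) ∈ (l : L)⟩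
  have hmem : ∀ (p : {x : P // x ∈ C}) (l : {l : L // l ∈ T}), p ∈ l ↔ (p : P) ∈ (l : L) :=
    fun _ _ => Iff.rfl
  letI pp : ProjectivePlane {x : P // x ∈ C} {l : L // l ∈ T} :=
    { exists_point := by
        rintro ⟨l, hl⟩
        by_cases h5 : a ∈ l
        · by_cases h6 : b ∈ l
          · refine ⟨⟨c, hc⟩, fun h7 => h1 ⟨l, h5, h6, h7⟩⟩
          · exact ⟨⟨b, hb⟩, h6⟩
        · exact ⟨⟨a, ha⟩, h5⟩
      exists_line := by
        rintro ⟨p, hp⟩
        by_cases h5 : p ∈ lab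
        · by_cases h6 : p ∈ lbc
          · refine ⟨⟨lac, tac⟩, fun h7 => ?_⟩
            change p ∈ lac at h7
            rcases Nondegenerate.eq_or_eq h5 hlab2 h6 hlbc1 with h8 | h8
            · subst h8
              exact h1 ⟨lac, hlac1, h7, hlac2⟩
            · subst h8
              exact h1 ⟨lab, hlab1, hlab2, hlbc2⟩
          · exact ⟨⟨lbc, tbc⟩, h6⟩
        · exact ⟨⟨lab, tab⟩, h5⟩
      eq_or_eq := by
        rintro ⟨p, hp⟩ ⟨q, hq⟩ ⟨l, hl⟩ ⟨m, hm⟩ h5 h6 h7 h8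
        rcases Nondegenerate.eq_or_eq (P := P) (L := L) h5 h6 h7 h8 with h9 | h9
        · left
          exact Subtype.ext h9
        · right
          exact Subtype.ext h9
      mkPoint := fun {l m} h =>
        ⟨HasPoints.mkPoint (Subtype.coe_injective.ne h), hcl _ _ l.2 m.2 (Subtype.coe_injective.ne h) _
          (HasPoints.mkPoint_ax (Subtype.coe_injective.ne h)).1
          (HasPoints.mkPoint_ax (Subtype.coe_injective.ne h)).2⟩
      mkPoint_ax := fun {l m} h =>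
        ⟨(HasPoints.mkPoint_ax (P := P) (Subtype.coe_injective.ne h)).1,
          (HasPoints.mkPoint_ax (P := P) (Subtype.coe_injective.ne h)).2⟩
      mkLine := fun {p q} h =>
        ⟨HasLines.mkLine (L := L) (Subtype.coe_injective.ne h), p.1, p.2, q.1, q.2,
          Subtype.coe_injective.ne h,
          (HasLines.mkLine_ax (L := L) (Subtype.coe_injective.ne h)).1,
          (HasLines.mkLine_ax (L := L) (Subtype.coe_injective.ne h)).2⟩
      mkLine_ax := fun {p q} h =>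
        ⟨(HasLines.mkLine_ax (L := L) (Subtype.coe_injective.ne h)).1,
          (HasLines.mkLine_ax (L := L) (Subtype.coe_injective.ne h)).2⟩
      exists_config := by
        refine ⟨⟨a, ha⟩, ⟨b, hb⟩, ⟨c, hc⟩, ⟨lad, tad⟩, ⟨lbc, tbc⟩, ⟨lbd, tbd⟩, ?_⟩
        simp only [hmem]
        refine ⟨fun h => h1 ⟨_, h, hlbc1, hlbc2⟩, fun h => h2 ⟨_, h, hlbd1, hlbd2⟩,
          fun h => h2 ⟨_, hlad1, h, hlad2⟩, hlbc1, hlbd1,
          fun h => h3 ⟨_, hlad1, h, hlad2⟩, hlbc2, fun h => h4 ⟨_, hlbd1, h, hlbd2⟩⟩ }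
  have hfin : C.Finite := Set.finite_of_ncard_ne_zero (by omega)
  haveI : Finite {x : P // x ∈ C} := hfin
  haveI : Finite {l : L // l ∈ T} := by
    have hT : ∀ l : {l : L // l ∈ T}, ∃ pq : {x : P // x ∈ C} × {x : P // x ∈ C},
        pq.1 ≠ pq.2 ∧ (pq.1 : P) ∈ (l : L) ∧ (pq.2 : P) ∈ (l : L) := by
      rintro ⟨l, p, hp, q, hq, hpq, hpl, hql⟩
      exact ⟨(⟨p, hp⟩, ⟨q, hq⟩), fun h => hpq (congrArg Subtype.val h), hpl, hql⟩
    choose f hf using hT
    refine Finite.of_injective f (fun l m h => ?_)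
    have e1 := hf l
    have e2 := hf m
    rw [← h] at e2
    rcases Nondegenerate.eq_or_eq (P := P) (L := L) e1.2.1 e1.2.2 e2.2.1 e2.2.2 with h9 | h9
    · exact absurd (Subtype.ext h9) e1.1
    · exact Subtype.ext h9
  haveI : Fintype {x : P // x ∈ C} := Fintype.ofFinite _
  have hcard : Fintype.card {x : P // x ∈ C} = 13 := by
    rw [← Nat.card_eq_fintype_card, ← hC]
    rfl
  have hord := ProjectivePlane.card_points {x : P // x ∈ C} {l : L // l ∈ T}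
  rw [hcard] at hord
  have hord3 : ProjectivePlane.order {x : P // x ∈ C} {l : L // l ∈ T} = 3 := by
    have hle : ProjectivePlane.order {x : P // x ∈ C} {l : L // l ∈ T} ≤ 3 := by
      by_contra hh
      push Not at hh
      nlinarith
    interval_cases h : ProjectivePlane.order {x : P // x ∈ C} {l : L // l ∈ T} <;> omega
  have hpc : ∀ l : L, l ∈ T → Set.ncard {x : P | x ∈ C ∧ x ∈ l} = 4 := by
    intro l hl
    have h5 := ProjectivePlane.pointCount_eq {x : P // x ∈ C} (⟨l, hl⟩ : {l : L // l ∈ T})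
    rw [hord3] at h5
    unfold pointCount at h5
    rw [← Nat.card_coe_set_eq]
    have h6 : (3 + 1 : ℕ) = 4 := rfl
    rw [h6] at h5
    rw [← h5]
    refine Nat.card_congr ?_
    exact
      { toFun := fun x => ⟨⟨x.1, x.2.1⟩, x.2.2⟩
        invFun := fun x => ⟨x.1.1, x.1.2, x.2⟩
        left_inv := fun _ => rfl
        right_inv := fun _ => rfl }
  exact
    { meet := fun p hp q hq hpq p' hp' q' hq' hpq' l m hlm h5 h6 h7 h8 x hxl hxm =>
        hcl l m ⟨p, hp, q, hq, hpq, h5, h6⟩ ⟨p', hp', q', hq', hpq', h7, h8⟩ hlm x hxl hxm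
      four := fun p hp q hq hpq l h5 h6 => hpc l ⟨p, hp, q, hq, hpq, h5, h6⟩ }

theorem s_A1 : S_A1 := by
  intro P L _ _ _ h3 a b c d q1 q2 q3 q4
  have h13 := h3 a b c d q1 q2 q3 q4
  refine ⟨_, ?_, ?_, ?_, ?_, A1_core P L _ h13 a b c d ?_ ?_ ?_ ?_ q1 q2 q3 q4 ?_⟩
  · exact fun S T ha hb hc hd _ _ => ha
  · exact fun S T ha hb hc hd _ _ => hb
  · exact fun S T ha hb hc hd _ _ => hc
  · exact fun S T ha hb hc hd _ _ => hd
  · exact fun S T ha hb hc hd _ _ => ha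
  · exact fun S T ha hb hc hd _ _ => hb
  · exact fun S T ha hb hc hd _ _ => hc
  · exact fun S T ha hb hc hd _ _ => hd
  · rintro l m ⟨p, hp, q, hq, hpq, hpl, hql⟩ ⟨p', hp', q', hq', hpq', hpm, hqm⟩ hlm x hxl hxm
    intro S T ha hb hc hd e1 e2
    exact e2 l (e1 p (hp S T ha hb hc hd e1 e2) q (hq S T ha hb hc hd e1 e2) hpq l hpl hql) m
      (e1 p' (hp' S T ha hb hc hd e1 e2) q' (hq' S T ha hb hc hd e1 e2) hpq' m hpm hqm) hlm x hxl hxm

end Pool.Agent.TP3
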