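import Pool.Agent.Lib.MP_a1e562_co.Stm

/-! # [TP A2] the incidence theorem -/

set_option autoImplicit false

namespace Pool.Agent.TP3

open Configuration

private theorem A2_ll {P L : Type} [Membership P L] [ProjectivePlane P L] {p q : P} {l m : L}
    (h : p ≠ q) (h1 : p ∈ l) (h2 : q ∈ l) (h3 : p ∈ m) (h4 : q ∈ m) : l = m :=
  (Nondegenerate.eq_or_eq h1 h2 h3 h4).resolve_left h

private theorem A2_pp {P L : Type} [Membership P L] [ProjectivePlane P L] {p q : P} {l m : L}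
    (h : l ≠ m) (h1 : p ∈ l) (h2 : q ∈ l) (h3 : p ∈ m) (h4 : q ∈ m) : p = q :=
  (Nondegenerate.eq_or_eq h1 h2 h3 h4).resolve_right h

private theorem A2_four {P : Type} {S : Set P} (h : S.ncard = 4) {a b c : P} (ha : a ∈ S)
    (hb : b ∈ S) (hc : c ∈ S) (hab : a ≠ b) (hac : a ≠ c) (hbc : b ≠ c) :
    ∃ d ∈ S, d ≠ a ∧ d ≠ b ∧ d ≠ c ∧ ∀ x ∈ S, x = a ∨ x = b ∨ x = c ∨ x = d := by
  have hf : S.Finite := Set.finite_of_ncard_ne_zero (by rw [h]; norm_num)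
  have h3 : ({a, b, c} : Set P).ncard = 3 := Set.ncard_eq_three.2 ⟨a, b, c, hab, hac, hbc, rfl⟩
  have hsub : ({a, b, c} : Set P) ⊆ S := by
    intro x hx
    simp only [Set.mem_insert_iff, Set.mem_singleton_iff] at hx
    rcases hx with rfl | rfl | rfl
    · exact ha
    · exact hb
    · exact hc
  have h1 : (S \ {a, b, c}).ncard = 1 := by
    rw [Set.ncard_diff hsub (hf.subset hsub), h, h3]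
  obtain ⟨d, hd⟩ := Set.ncard_eq_one.1 h1
  have hdS : d ∈ S \ {a, b, c} := by rw [hd]; exact Set.mem_singleton d
  have hd2 := hdS.2
  simp only [Set.mem_insert_iff, Set.mem_singleton_iff, not_or] at hd2
  refine ⟨d, hdS.1, hd2.1, hd2.2.1, hd2.2.2, ?_⟩
  intro x hx
  by_cases hxa : x = a
  · exact Or.inl hxa
  by_cases hxb : x = b
  · exact Or.inr (Or.inl hxb)
  by_cases hxc : x = c
  · exact Or.inr (Or.inr (Or.inl hxc))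
  refine Or.inr (Or.inr (Or.inr ?_))
  have : x ∈ S \ {a, b, c} := by
    refine ⟨hx, ?_⟩
    simp only [Set.mem_insert_iff, Set.mem_singleton_iff, not_or]
    exact ⟨hxa, hxb, hxc⟩
  rw [hd] at this
  exact this

theorem s_A2 : S_A2 := by
  intro P L _ _ hQ Z C0 C1 A0 A1 A2 B0 B1 B2 D0 D1 D2 l m r x0 x1 x2 y0 y1 y2 hlm hlr hmr
    hZl hZm hZr hC0l hC1l hC01 hC0Z hC1Z hC0x0 hC0x1 hC0x2 hC1y0 hC1y1 hC1y2 hx0l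
    hA0x0 hA0m hA0y0 hB1y0 hB1r hB1x1 hA1x1 hA1m hA1y1 hB2y1 hB2r hB2x2 hA2x2 hA2m hA2y2
    hB0x0 hB0r hD0x0 hD0y1 hD1x1 hD1y2 hD2x2 hD2y0
  -- basic non-incidences
  have hZx0 : Z ∉ x0 := fun h => hx0l (A2_ll hC0Z hC0x0 h hC0l hZl)
  have hA0Z : A0 ≠ Z := fun h => hZx0 (h ▸ hA0x0)
  have hC1x0 : C1 ∉ x0 := fun h => hx0l (A2_ll hC01 hC0x0 h hC0l hC1l)
  have nlm : ∀ {p : P}, p ∈ l → p ∈ m → p = Z := fun h1 h2 => A2_pp hlm h1 hZl h2 hZm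
  have nlr : ∀ {p : P}, p ∈ l → p ∈ r → p = Z := fun h1 h2 => A2_pp hlr h1 hZl h2 hZr
  have nmr : ∀ {p : P}, p ∈ m → p ∈ r → p = Z := fun h1 h2 => A2_pp hmr h1 hZm h2 hZr
  have hy0l : y0 ≠ l := fun h => hA0Z (nlm (h ▸ hA0y0) hA0m)
  have hC0y0 : C0 ∉ y0 := fun h => hy0l (A2_ll hC01 h hC1y0 hC0l hC1l)
  have hZy0 : Z ∉ y0 := fun h => hy0l (A2_ll hC1Z hC1y0 h hC1l hZl)
  have hB1Z : B1 ≠ Z := fun h => hZy0 (h ▸ hB1y0)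
  have hA0B1 : A0 ≠ B1 := fun h => hA0Z (nmr hA0m (h ▸ hB1r))
  have hB1x0 : B1 ∉ x0 := fun h => hC1x0 ((A2_ll hA0B1 hA0x0 h hA0y0 hB1y0) ▸ hC1y0)
  have hC0m : C0 ∉ m := fun h => hC0Z (nlm hC0l h)
  have hC1m : C1 ∉ m := fun h => hC1Z (nlm hC1l h)
  have hC0r : C0 ∉ r := fun h => hC0Z (nlr hC0l h)
  have hC1r : C1 ∉ r := fun h => hC1Z (nlr hC1l h)
  have hC0A0 : C0 ≠ A0 := fun h => hC0m (h ▸ hA0m)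
  have hC0B1 : C0 ≠ B1 := fun h => hC0r (h ▸ hB1r)
  obtain ⟨C, hZC, hC0C, hA0C, hB1C, hS⟩ := hQ Z C0 A0 B1
    (fun ⟨k, h1, h2, h3⟩ => hA0Z (nlm ((A2_ll hC0Z h2 h1 hC0l hZl) ▸ h3) hA0m))
    (fun ⟨k, h1, h2, h3⟩ => hB1Z (nlr ((A2_ll hC0Z h2 h1 hC0l hZl) ▸ h3) hB1r))
    (fun ⟨k, h1, h2, h3⟩ => hB1Z (nmr ((A2_ll hA0Z h2 h1 hA0m hZm) ▸ h3) hB1r))
    (fun ⟨k, h1, h2, h3⟩ => hB1x0 ((A2_ll hC0A0 h1 h2 hC0x0 hA0x0) ▸ h3))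
  -- lines meeting C twice
  have meet : ∀ {k k' : L} {x : P}, (∃ p ∈ C, ∃ q ∈ C, p ≠ q ∧ p ∈ k ∧ q ∈ k) →
      (∃ p ∈ C, ∃ q ∈ C, p ≠ q ∧ p ∈ k' ∧ q ∈ k') → k ≠ k' → x ∈ k → x ∈ k' → x ∈ C := by
    rintro k k' x ⟨p, hp, q, hq, hpq, hpk, hqk⟩ ⟨p', hp', q', hq', hpq', hpk', hqk'⟩ hkk hx hx'
    exact hS.meet p hp q hq hpq p' hp' q' hq' hpq' k k' hkk hpk hqk hpk' hqk' x hx hx'
  have four : ∀ {k : L}, (∃ p ∈ C, ∃ q ∈ C, p ≠ q ∧ p ∈ k ∧ q ∈ k) →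
      Set.ncard {x : P | x ∈ C ∧ x ∈ k} = 4 := by
    rintro k ⟨p, hp, q, hq, hpq, hpk, hqk⟩
    exact hS.four p hp q hq hpq k hpk hqk
  have Tl : ∃ p ∈ C, ∃ q ∈ C, p ≠ q ∧ p ∈ l ∧ q ∈ l := ⟨C0, hC0C, Z, hZC, hC0Z, hC0l, hZl⟩
  have Tm : ∃ p ∈ C, ∃ q ∈ C, p ≠ q ∧ p ∈ m ∧ q ∈ m := ⟨A0, hA0C, Z, hZC, hA0Z, hA0m, hZm⟩
  have Tr : ∃ p ∈ C, ∃ q ∈ C, p ≠ q ∧ p ∈ r ∧ q ∈ r := ⟨B1, hB1C, Z, hZC, hB1Z, hB1r, hZr⟩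
  have Tx0 : ∃ p ∈ C, ∃ q ∈ C, p ≠ q ∧ p ∈ x0 ∧ q ∈ x0 :=
    ⟨C0, hC0C, A0, hA0C, hC0A0, hC0x0, hA0x0⟩
  have Ty0 : ∃ p ∈ C, ∃ q ∈ C, p ≠ q ∧ p ∈ y0 ∧ q ∈ y0 :=
    ⟨A0, hA0C, B1, hB1C, hA0B1, hA0y0, hB1y0⟩
  have Tx1 : ∃ p ∈ C, ∃ q ∈ C, p ≠ q ∧ p ∈ x1 ∧ q ∈ x1 :=
    ⟨C0, hC0C, B1, hB1C, hC0B1, hC0x1, hB1x1⟩
  have hC1C : C1 ∈ C := meet Tl Ty0 (Ne.symm hy0l) hC1l hC1y0
  have hx1m : x1 ≠ m := fun h => hC0m (h ▸ hC0x1)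
  have hA1C : A1 ∈ C := meet Tx1 Tm hx1m hA1x1 hA1m
  have hx1l : x1 ≠ l := fun h => hB1Z (nlr (h ▸ hB1x1) hB1r)
  have hZx1 : Z ∉ x1 := fun h => hx1l (A2_ll hC0Z hC0x1 h hC0l hZl)
  have hA1Z : A1 ≠ Z := fun h => hZx1 (h ▸ hA1x1)
  have hA1A0 : A1 ≠ A0 := fun h => hB1x0 ((A2_ll hC0A0 hC0x1 (h ▸ hA1x1) hC0x0 hA0x0) ▸ hB1x1)
  have hC1A1 : C1 ≠ A1 := fun h => hC1m (h ▸ hA1m)
  have Ty1 : ∃ p ∈ C, ∃ q ∈ C, p ≠ q ∧ p ∈ y1 ∧ q ∈ y1 :=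
    ⟨C1, hC1C, A1, hA1C, hC1A1, hC1y1, hA1y1⟩
  have hy1l : y1 ≠ l := fun h => hA1Z (nlm (h ▸ hA1y1) hA1m)
  have hy1r : y1 ≠ r := fun h => hC1r (h ▸ hC1y1)
  have hy1m : y1 ≠ m := fun h => hC1m (h ▸ hC1y1)
  have hZy1 : Z ∉ y1 := fun h => hy1l (A2_ll hC1Z hC1y1 h hC1l hZl)
  have hB2C : B2 ∈ C := meet Ty1 Tr hy1r hB2y1 hB2r
  have hB2Z : B2 ≠ Z := fun h => hZy1 (h ▸ hB2y1)
  have hC0B2 : C0 ≠ B2 := fun h => hC0r (h ▸ hB2r)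
  have Tx2 : ∃ p ∈ C, ∃ q ∈ C, p ≠ q ∧ p ∈ x2 ∧ q ∈ x2 :=
    ⟨C0, hC0C, B2, hB2C, hC0B2, hC0x2, hB2x2⟩
  have hx2l : x2 ≠ l := fun h => hB2Z (nlr (h ▸ hB2x2) hB2r)
  have hZx2 : Z ∉ x2 := fun h => hx2l (A2_ll hC0Z hC0x2 h hC0l hZl)
  have hx2m : x2 ≠ m := fun h => hC0m (h ▸ hC0x2)
  have hA2C : A2 ∈ C := meet Tx2 Tm hx2m hA2x2 hA2m
  have hA2Z : A2 ≠ Z := fun h => hZx2 (h ▸ hA2x2)
  have hC1A2 : C1 ≠ A2 := fun h => hC1m (h ▸ hA2m)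
  have Ty2 : ∃ p ∈ C, ∃ q ∈ C, p ≠ q ∧ p ∈ y2 ∧ q ∈ y2 :=
    ⟨C1, hC1C, A2, hA2C, hC1A2, hC1y2, hA2y2⟩
  have hy2l : y2 ≠ l := fun h => hA2Z (nlm (h ▸ hA2y2) hA2m)
  have hx0r : x0 ≠ r := fun h => hC0r (h ▸ hC0x0)
  have hx0m : x0 ≠ m := fun h => hC0m (h ▸ hC0x0)
  have hB0C : B0 ∈ C := meet Tx0 Tr hx0r hB0x0 hB0r
  have hB0Z : B0 ≠ Z := fun h => hZx0 (h ▸ hB0x0)
  have hB0B1 : B0 ≠ B1 := fun h => hB1x0 (h ▸ hB0x0)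
  have hD0C : D0 ∈ C := meet Tx0 Ty1 (fun h => hC1x0 (h ▸ hC1y1)) hD0x0 hD0y1
  have hD1C : D1 ∈ C := meet Tx1 Ty2
    (fun h => hx1l (A2_ll hC01 hC0x1 (h ▸ hC1y2) hC0l hC1l)) hD1x1 hD1y2
  have hD2C : D2 ∈ C := meet Tx2 Ty0 (fun h => hC0y0 (h ▸ hC0x2)) hD2x2 hD2y0
  have hy0m : y0 ≠ m := fun h => hC1m (h ▸ hC1y0)
  have hy0r : y0 ≠ r := fun h => hC1r (h ▸ hC1y0)
  -- the fourth points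
  obtain ⟨A', ⟨hA'C, hA'm⟩, hA'Z, hA'A0, hA'A1, hmall⟩ := A2_four (four Tm)
    (a := Z) (b := A0) (c := A1) ⟨hZC, hZm⟩ ⟨hA0C, hA0m⟩ ⟨hA1C, hA1m⟩ hA0Z.symm hA1Z.symm
    hA1A0.symm
  obtain ⟨B', ⟨hB'C, hB'r⟩, hB'Z, hB'B0, hB'B1, hrall⟩ := A2_four (four Tr)
    (a := Z) (b := B0) (c := B1) ⟨hZC, hZr⟩ ⟨hB0C, hB0r⟩ ⟨hB1C, hB1r⟩ hB0Z.symm hB1Z.symm hB0B1
  have hC0A' : C0 ≠ A' := fun h => hC0m (h ▸ hA'm)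
  have hC1A' : C1 ≠ A' := fun h => hC1m (h ▸ hA'm)
  obtain ⟨x', hC0x', hA'x'⟩ : ∃ x' : L, C0 ∈ x' ∧ A' ∈ x' :=
    ⟨HasLines.mkLine hC0A', (HasLines.mkLine_ax hC0A').1, (HasLines.mkLine_ax hC0A').2⟩
  obtain ⟨y', hC1y', hA'y'⟩ : ∃ y' : L, C1 ∈ y' ∧ A' ∈ y' :=
    ⟨HasLines.mkLine hC1A', (HasLines.mkLine_ax hC1A').1, (HasLines.mkLine_ax hC1A').2⟩
  have hx'l : x' ≠ l := fun h => hA'Z (nlm (h ▸ hA'x') hA'm)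
  have hy'l : y' ≠ l := fun h => hA'Z (nlm (h ▸ hA'y') hA'm)
  have hx'r : x' ≠ r := fun h => hC0r (h ▸ hC0x')
  have hy'r : y' ≠ r := fun h => hC1r (h ▸ hC1y')
  have hx'm : x' ≠ m := fun h => hC0m (h ▸ hC0x')
  have hy'm : y' ≠ m := fun h => hC1m (h ▸ hC1y')
  have Tx' : ∃ p ∈ C, ∃ q ∈ C, p ≠ q ∧ p ∈ x' ∧ q ∈ x' :=
    ⟨C0, hC0C, A', hA'C, hC0A', hC0x', hA'x'⟩
  have Ty' : ∃ p ∈ C, ∃ q ∈ C, p ≠ q ∧ p ∈ y' ∧ q ∈ y' :=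
    ⟨C1, hC1C, A', hA'C, hC1A', hC1y', hA'y'⟩
  have hC1B1 : C1 ≠ B1 := fun h => hC1r (h ▸ hB1r)
  have hC1B0 : C1 ≠ B0 := fun h => hC1r (h ▸ hB0r)
  have hC0B0 : C0 ≠ B0 := fun h => hC0r (h ▸ hB0r)
  have hB'x' : B' ∈ x' := by
    obtain ⟨X, hXx', hXr⟩ : ∃ X : P, X ∈ x' ∧ X ∈ r :=
      ⟨HasPoints.mkPoint hx'r, (HasPoints.mkPoint_ax hx'r).1, (HasPoints.mkPoint_ax hx'r).2⟩
    have hXC : X ∈ C := meet Tx' Tr hx'r hXx' hXr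
    rcases hrall X ⟨hXC, hXr⟩ with h | h | h | h
    · exact absurd (A2_ll hC0Z hC0x' (h ▸ hXx') hC0l hZl) hx'l
    · have e := A2_ll hC0B0 hC0x' (h ▸ hXx') hC0x0 hB0x0
      exact absurd (A2_pp hx0m (e ▸ hA'x') hA0x0 hA'm hA0m) hA'A0
    · have e := A2_ll hC0B1 hC0x' (h ▸ hXx') hC0x1 hB1x1
      exact absurd (A2_pp hx1m (e ▸ hA'x') hA1x1 hA'm hA1m) hA'A1
    · exact h ▸ hXx'
  have hA'B' : A' ≠ B' := fun h => hA'Z (nmr hA'm (h ▸ hB'r))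
  have hB0y' : B0 ∈ y' := by
    obtain ⟨X, hXy', hXr⟩ : ∃ X : P, X ∈ y' ∧ X ∈ r :=
      ⟨HasPoints.mkPoint hy'r, (HasPoints.mkPoint_ax hy'r).1, (HasPoints.mkPoint_ax hy'r).2⟩
    have hXC : X ∈ C := meet Ty' Tr hy'r hXy' hXr
    rcases hrall X ⟨hXC, hXr⟩ with h | h | h | h
    · exact absurd (A2_ll hC1Z hC1y' (h ▸ hXy') hC1l hZl) hy'l
    · exact h ▸ hXy'
    · have e := A2_ll hC1B1 hC1y' (h ▸ hXy') hC1y0 hB1y0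
      exact absurd (A2_pp hy0m (e ▸ hA'y') hA0y0 hA'm hA0m) hA'A0
    · have e := A2_ll hA'B' hA'x' hB'x' hA'y' (h ▸ hXy')
      exact absurd (A2_ll hC01 hC0x' (e ▸ hC1y') hC0l hC1l) hx'l
  have hB2B1 : B2 ≠ B1 := fun h => by
    have e := A2_ll hC1B1 hC1y1 (h ▸ hB2y1) hC1y0 hB1y0
    exact hA1A0 (A2_pp hy0m (e ▸ hA1y1) hA0y0 hA1m hA0m)
  have hB0y1 : B0 ∉ y1 := fun h => by
    have e := A2_ll hC1B0 hC1y1 h hC1y' hB0y'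
    exact hA'A1 (A2_pp hy'm hA'y' (e ▸ hA1y1) hA'm hA1m)
  have hB2B0 : B2 ≠ B0 := fun h => hB0y1 (h ▸ hB2y1)
  have hB2B' : B2 = B' := by
    rcases hrall B2 ⟨hB2C, hB2r⟩ with h | h | h | h
    · exact absurd h hB2Z
    · exact absurd h hB2B0
    · exact absurd h hB2B1
    · exact h
  have hx2x' : x2 = x' := A2_ll hC0B2 hC0x2 hB2x2 hC0x' (hB2B' ▸ hB'x')
  have hA2A' : A2 = A' := A2_pp hx2m hA2x2 (hx2x' ▸ hA'x') hA2m hA'm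
  have hy2y' : y2 = y' := A2_ll hC1A2 hC1y2 hA2y2 hC1y' (hA2A' ▸ hA'y')
  refine ⟨hy2y' ▸ hB0y', ?_⟩
  have hA2A0 : A2 ≠ A0 := hA2A' ▸ hA'A0
  have hA2A1 : A2 ≠ A1 := hA2A' ▸ hA'A1
  have hD0Z : D0 ≠ Z := fun h => hZx0 (h ▸ hD0x0)
  obtain ⟨g, hZg, hD0g⟩ : ∃ g : L, Z ∈ g ∧ D0 ∈ g :=
    ⟨HasLines.mkLine hD0Z, (HasLines.mkLine_ax hD0Z).2, (HasLines.mkLine_ax hD0Z).1⟩
  have Tg : ∃ p ∈ C, ∃ q ∈ C, p ≠ q ∧ p ∈ g ∧ q ∈ g := ⟨D0, hD0C, Z, hZC, hD0Z, hD0g, hZg⟩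
  have hgl : g ≠ l := fun h => by
    have e : D0 = C0 := A2_pp hx0l hD0x0 hC0x0 (h ▸ hD0g) hC0l
    exact hy1l (A2_ll hC01 (e ▸ hD0y1) hC1y1 hC0l hC1l)
  have hgm : g ≠ m := fun h => by
    have e : D0 = A0 := A2_pp hx0m hD0x0 hA0x0 (h ▸ hD0g) hA0m
    exact hA1A0 (A2_pp hy1m hA1y1 (e ▸ hD0y1) hA1m hA0m)
  have hgr : g ≠ r := fun h => by
    have e : D0 = B0 := A2_pp hx0r hD0x0 hB0x0 (h ▸ hD0g) hB0r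
    exact hB0y1 (e ▸ hD0y1)
  have hA1B1 : A1 ≠ B1 := fun h => hA1Z (nmr hA1m (h ▸ hB1r))
  have hA2B2 : A2 ≠ B2 := fun h => hA2Z (nmr hA2m (h ▸ hB2r))
  have hC0A1 : C0 ≠ A1 := fun h => hC0m (h ▸ hA1m)
  have hC0A2 : C0 ≠ A2 := fun h => hC0m (h ▸ hA2m)
  have hD1C0 : D1 ≠ C0 := fun h => hy2l (A2_ll hC01 (h ▸ hD1y2) hC1y2 hC0l hC1l)
  have hD1A1 : D1 ≠ A1 := fun h => by
    have e := A2_ll hC1A1 hC1y2 (h ▸ hD1y2) hC1y1 hA1y1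
    exact hA2A1 (A2_pp hy1m (e ▸ hA2y2) hA1y1 hA2m hA1m)
  have hD1B1 : D1 ≠ B1 := fun h => by
    have e := A2_ll hC1B1 hC1y2 (h ▸ hD1y2) hC1y0 hB1y0
    exact hA2A0 (A2_pp hy0m (e ▸ hA2y2) hA0y0 hA2m hA0m)
  have hD2C0 : D2 ≠ C0 := fun h => hC0y0 (h ▸ hD2y0)
  have hD2A2 : D2 ≠ A2 := fun h => hA2A0 (A2_pp hy0m (h ▸ hD2y0) hA0y0 hA2m hA0m)
  have hD2B2 : D2 ≠ B2 := fun h => hB2B1 (A2_pp hy0r (h ▸ hD2y0) hB1y0 hB2r hB1r)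
  refine ⟨g, hZg, hD0g, ?_, ?_⟩
  · have hgx1 : g ≠ x1 := fun h => hZx1 (h ▸ hZg)
    obtain ⟨X, hXg, hXx1⟩ : ∃ X : P, X ∈ g ∧ X ∈ x1 :=
      ⟨HasPoints.mkPoint hgx1, (HasPoints.mkPoint_ax hgx1).1, (HasPoints.mkPoint_ax hgx1).2⟩
    have hXC : X ∈ C := meet Tg Tx1 hgx1 hXg hXx1
    obtain ⟨d, ⟨hdC, hdx⟩, hd1, hd2, hd3, hall⟩ := A2_four (four Tx1)
      (a := C0) (b := A1) (c := B1) ⟨hC0C, hC0x1⟩ ⟨hA1C, hA1x1⟩ ⟨hB1C, hB1x1⟩ hC0A1 hC0B1 hA1B1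
    have hD1d : D1 = d := by
      rcases hall D1 ⟨hD1C, hD1x1⟩ with h | h | h | h
      · exact absurd h hD1C0
      · exact absurd h hD1A1
      · exact absurd h hD1B1
      · exact h
    rcases hall X ⟨hXC, hXx1⟩ with h | h | h | h
    · exact absurd (A2_ll hC0Z (h ▸ hXg) hZg hC0l hZl) hgl
    · exact absurd (A2_ll hA1Z (h ▸ hXg) hZg hA1m hZm) hgm
    · exact absurd (A2_ll hB1Z (h ▸ hXg) hZg hB1r hZr) hgr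
    · rw [hD1d, ← h]; exact hXg
  · have hgx2 : g ≠ x2 := fun h => hZx2 (h ▸ hZg)
    obtain ⟨X, hXg, hXx2⟩ : ∃ X : P, X ∈ g ∧ X ∈ x2 :=
      ⟨HasPoints.mkPoint hgx2, (HasPoints.mkPoint_ax hgx2).1, (HasPoints.mkPoint_ax hgx2).2⟩
    have hXC : X ∈ C := meet Tg Tx2 hgx2 hXg hXx2
    obtain ⟨d, ⟨hdC, hdx⟩, hd1, hd2, hd3, hall⟩ := A2_four (four Tx2)
      (a := C0) (b := A2) (c := B2) ⟨hC0C, hC0x2⟩ ⟨hA2C, hA2x2⟩ ⟨hB2C, hB2x2⟩ hC0A2 hC0B2 hA2B2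
    have hD2d : D2 = d := by
      rcases hall D2 ⟨hD2C, hD2x2⟩ with h | h | h | h
      · exact absurd h hD2C0
      · exact absurd h hD2A2
      · exact absurd h hD2B2
      · exact h
    rcases hall X ⟨hXC, hXx2⟩ with h | h | h | h
    · exact absurd (A2_ll hC0Z (h ▸ hXg) hZg hC0l hZl) hgl
    · exact absurd (A2_ll hA2Z (h ▸ hXg) hZg hA2m hZm) hgm
    · exact absurd (A2_ll hB2Z (h ▸ hXg) hZg hB2r hZr) hgr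
    · rw [hD2d, ← h]; exact hXg

end Pool.Agent.TP3
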