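import Pool.Agent.Lib.MP_a1e562_co.Stm

/-! # [TP A3] characteristic three -/

set_option autoImplicit false

namespace Pool.Agent.TP3

open Configuration

private theorem A3_four {P : Type} {S : Set P} (h : S.ncard = 4) {a b c : P} (ha : a ∈ S)
    (hb : b ∈ S) (hc : c ∈ S) (hab : a ≠ b) (hac : a ≠ c) (hbc : b ≠ c) :
    ∃ d ∈ S, d ≠ a ∧ d ≠ b ∧ d ≠ c ∧ ∀ x ∈ S, x = a ∨ x = b ∨ x = c ∨ x = d := by
  have hf : S.Finite := Set.finite_of_ncard_ne_zero (by rw [h]; norm_num)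
  have h3 : ({a, b, c} : Set P).ncard = 3 := Set.ncard_eq_three.2 ⟨a, b, c, hab, hac, hbc, rfl⟩
  have hsub : ({a, b, c} : Set P) ⊆ S := by
    intro x hx
    simp only [Set.mem_insert_iff, Set.mem_singleton_iff] at hx
    rcases hx with rfl | rfl | rfl
    · exact ha
    · exact hb
    · exact hc
  have h1 : (S \ {a, b, c}).ncard = 1 := by
    rw [Set.ncard_diff hsub (hf.subset hsub), h, h3]
  obtain ⟨d, hd⟩ := Set.ncard_eq_one.1 h1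
  have hdS : d ∈ S \ {a, b, c} := by rw [hd]; exact Set.mem_singleton d
  have hd2 := hdS.2
  simp only [Set.mem_insert_iff, Set.mem_singleton_iff, not_or] at hd2
  refine ⟨d, hdS.1, hd2.1, hd2.2.1, hd2.2.2, ?_⟩
  intro x hx
  by_cases hxa : x = a
  · exact Or.inl hxa
  by_cases hxb : x = b
  · exact Or.inr (Or.inl hxb)
  by_cases hxc : x = c
  · exact Or.inr (Or.inr (Or.inl hxc))
  refine Or.inr (Or.inr (Or.inr ?_))
  have : x ∈ S \ {a, b, c} := by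
    refine ⟨hx, ?_⟩
    simp only [Set.mem_insert_iff, Set.mem_singleton_iff, not_or]
    exact ⟨hxa, hxb, hxc⟩
  rw [hd] at this
  exact this

theorem s_A3 : S_A3 := by
  intro P L K U _ _ _ _ _ hU c hQ
  haveI : Nontrivial U := Module.nontrivial_of_finrank_pos (R := K) (by rw [hU]; norm_num)
  obtain ⟨e, he⟩ := exists_ne (0 : U)
  -- incidences
  have l0 : ∀ b x : U, c.pt x b ∈ c.ln 0 b := fun b x => by
    rw [c.pt_ln 0 c.zero]; simp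
  have l1 : ∀ b x : U, c.pt x (x + b) ∈ c.ln 1 b := fun b x => by
    rw [c.pt_ln 1 c.one]; simp
  have lv : ∀ x y : U, c.pt x y ∈ c.vt x := fun x y => (c.pt_vt x y x).2 rfl
  have hOe : c.pt 0 0 ∈ c.ln 1 0 := by simpa using l1 0 0
  have hEe : c.pt e e ∈ c.ln 1 0 := by simpa using l1 0 e
  have h10 : (0 : Module.End K U) ≠ 1 := by
    intro h
    have := congrArg (fun f : Module.End K U => f e) h
    simp only [LinearMap.zero_apply, Module.End.one_apply] at this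
    exact he this.symm
  have hW : ∀ b : U, c.Zp 0 ∈ c.ln 0 b := fun b => (c.Zp_ln 0 c.zero 0 c.zero b).2 rfl
  have hW1 : ∀ b : U, c.Zp 1 ∈ c.ln 1 b := fun b => (c.Zp_ln 1 c.one 1 c.one b).2 rfl
  have hOE : ∀ k : L, c.pt 0 0 ∈ k → c.pt e e ∈ k → k = c.ln 1 0 := by
    intro k h1 h2
    rcases c.lns k with rfl | ⟨d, rfl⟩ | ⟨M, hM, b, rfl⟩
    · exact absurd h1 (c.pt_inf _ _)
    · have a1 := (c.pt_vt _ _ _).1 h1
      have a2 := (c.pt_vt _ _ _).1 h2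
      exact absurd (a2.trans a1.symm) he
    · have a1 := (c.pt_ln M hM _ _ _).1 h1
      have a2 := (c.pt_ln M hM _ _ _).1 h2
      rw [map_zero, zero_add] at a1
      rw [← a1, add_zero] at a2
      have : M = 1 := c.uq M hM 1 c.one e he (by rw [← a2]; simp)
      rw [this, ← a1]
  have hWZ : ∀ k : L, c.Zp 0 ∈ k → c.Z ∈ k → k = c.inf := by
    intro k h1 h2
    rcases c.lns k with rfl | ⟨d, rfl⟩ | ⟨M, hM, b, rfl⟩
    · rfl
    · exact absurd h1 (c.Zp_vt 0 c.zero d)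
    · exact absurd h2 (c.Z_ln M hM b)
  obtain ⟨C, hOC, hEC, hWC, hZC, hS⟩ := hQ (c.pt 0 0) (c.pt e e) (c.Zp 0) c.Z
    (fun ⟨k, h1, h2, h3⟩ => h10 ((c.Zp_ln 0 c.zero 1 c.one 0).1 (hOE k h1 h2 ▸ h3)))
    (fun ⟨k, h1, h2, h3⟩ => c.Z_ln 1 c.one 0 (hOE k h1 h2 ▸ h3))
    (fun ⟨k, h1, h2, h3⟩ => c.pt_inf 0 0 (hWZ k h2 h3 ▸ h1))
    (fun ⟨k, h1, h2, h3⟩ => c.pt_inf e e (hWZ k h2 h3 ▸ h1))
  have meet : ∀ {k k' : L} {x : P}, (∃ p ∈ C, ∃ q ∈ C, p ≠ q ∧ p ∈ k ∧ q ∈ k) →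
      (∃ p ∈ C, ∃ q ∈ C, p ≠ q ∧ p ∈ k' ∧ q ∈ k') → k ≠ k' → x ∈ k → x ∈ k' → x ∈ C := by
    rintro k k' x ⟨p, hp, q, hq, hpq, hpk, hqk⟩ ⟨p', hp', q', hq', hpq', hpk', hqk'⟩ hkk hx hx'
    exact hS.meet p hp q hq hpq p' hp' q' hq' hpq' k k' hkk hpk hqk hpk' hqk' x hx hx'
  have ptZ : ∀ x y : U, c.pt x y ≠ c.Z := fun x y h => c.pt_inf x y (h ▸ c.Z_inf)
  have ptW : ∀ x y : U, ∀ M ∈ c.S, c.pt x y ≠ c.Zp M :=
    fun x y M hM h => c.pt_inf x y (h ▸ c.Zp_inf M hM)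
  have WZ : ∀ M ∈ c.S, c.Zp M ≠ c.Z := fun M hM h => c.Zp_vt M hM 0 (h ▸ c.Z_vt 0)
  have vl : ∀ d b : U, ∀ M ∈ c.S, c.vt d ≠ c.ln M b :=
    fun d b M hM h => c.Z_ln M hM b (h ▸ c.Z_vt d)
  have Tinf : ∃ p ∈ C, ∃ q ∈ C, p ≠ q ∧ p ∈ c.inf ∧ q ∈ c.inf :=
    ⟨c.Zp 0, hWC, c.Z, hZC, WZ 0 c.zero, c.Zp_inf 0 c.zero, c.Z_inf⟩
  have Te : ∃ p ∈ C, ∃ q ∈ C, p ≠ q ∧ p ∈ c.ln 1 0 ∧ q ∈ c.ln 1 0 := by
    refine ⟨c.pt 0 0, hOC, c.pt e e, hEC, ?_, hOe, hEe⟩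
    intro h
    exact he ((c.pt_vt e e 0).1 (h ▸ lv 0 0))
  have Tv0 : ∃ p ∈ C, ∃ q ∈ C, p ≠ q ∧ p ∈ c.vt 0 ∧ q ∈ c.vt 0 :=
    ⟨c.pt 0 0, hOC, c.Z, hZC, ptZ 0 0, lv 0 0, c.Z_vt 0⟩
  have hZ1C : c.Zp 1 ∈ C :=
    meet Tinf Te (fun h => c.pt_inf 0 0 (h ▸ hOe)) (c.Zp_inf 1 c.one) (hW1 0)
  -- a point (x, b) in C gives (0, b) in C
  have proj : ∀ x b : U, c.pt x b ∈ C → c.pt 0 b ∈ C := by
    intro x b h
    refine meet (k := c.ln 0 b) ⟨c.pt x b, h, c.Zp 0, hWC, ptW x b 0 c.zero, l0 b x, hW b⟩ Tv0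
      (vl 0 b 0 c.zero).symm (l0 b 0) (lv 0 b)
  have addc : ∀ y y' : U, c.pt 0 y ∈ C → c.pt 0 y' ∈ C → c.pt 0 (y + y') ∈ C := by
    intro y y' h h'
    have h1 : c.pt y y ∈ C := by
      refine meet (k := c.ln 0 y) ⟨c.pt 0 y, h, c.Zp 0, hWC, ptW 0 y 0 c.zero, l0 y 0, hW y⟩ Te
        ?_ (l0 y y) (by simpa using l1 0 y)
      intro hh
      exact h10 ((c.Zp_ln 0 c.zero 1 c.one 0).1 (hh ▸ hW y))
    have h2 : c.pt y (y + y') ∈ C := by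
      refine meet (k := c.vt y) (k' := c.ln 1 y')
        ⟨c.pt y y, h1, c.Z, hZC, ptZ y y, lv y y, c.Z_vt y⟩
        ⟨c.pt 0 y', h', c.Zp 1, hZ1C, ptW 0 y' 1 c.one, by simpa using l1 y' 0, hW1 y'⟩
        (vl y y' 1 c.one) (lv y _) (l1 y' y)
    exact proj y _ h2
  have heY : c.pt 0 e ∈ C := proj e e hEC
  have ptinj : ∀ y y' : U, c.pt 0 y = c.pt 0 y' → y = y' := by
    intro y y' h
    have h1 := l0 y' 0
    rw [← h] at h1
    have h2 := (c.pt_ln 0 c.zero y' 0 y).1 h1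
    simpa using h2
  have hfour : Set.ncard {x : P | x ∈ C ∧ x ∈ c.vt 0} = 4 :=
    hS.four _ hOC _ hZC (ptZ 0 0) _ (lv 0 0) (c.Z_vt 0)
  obtain ⟨d, ⟨hdC, hdv⟩, hdZ, hdO, hdE, hall⟩ := A3_four hfour (a := c.Z) (b := c.pt 0 0)
    (c := c.pt 0 e) ⟨hZC, c.Z_vt 0⟩ ⟨hOC, lv 0 0⟩ ⟨heY, lv 0 e⟩ (ptZ 0 0).symm (ptZ 0 e).symm
    (fun h => he (ptinj _ _ h).symm)
  obtain ⟨f, rfl⟩ : ∃ f : U, d = c.pt 0 f := by
    rcases c.pts d with ⟨x, y, rfl⟩ | ⟨M, hM, rfl⟩ | rfl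
    · have := (c.pt_vt x y 0).1 hdv
      exact ⟨y, by rw [this]⟩
    · exact absurd hdv (c.Zp_vt M hM 0)
    · exact absurd rfl hdZ
  have hf0 : f ≠ 0 := fun h => hdO (by rw [h])
  have hfe : f ≠ e := fun h => hdE (by rw [h])
  have hY : ∀ y : U, c.pt 0 y ∈ C → y = 0 ∨ y = e ∨ y = f := by
    intro y hy
    rcases hall _ ⟨hy, lv 0 y⟩ with h | h | h | h
    · exact absurd h (ptZ 0 y)
    · exact Or.inl (ptinj _ _ h)
    · exact Or.inr (Or.inl (ptinj _ _ h))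
    · exact Or.inr (Or.inr (ptinj _ _ h))
  have hef := hY _ (addc e f heY hdC)
  have hee := hY _ (addc e e heY heY)
  have h3 : e + e + e = 0 := by
    rcases hee with h | h | h
    · exfalso
      rcases hef with h' | h' | h'
      · have : f = e := by
          have h5 : f = -e := by rw [eq_neg_iff_add_eq_zero, add_comm]; exact h'
          have h6 : e = -e := by rw [eq_neg_iff_add_eq_zero]; exact h
          rw [h5, ← h6]
        exact hfe this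
      · exact hf0 (by simpa using h')
      · exact he (by simpa using h')
    · exact absurd (by simpa using h) he
    · rw [h, add_comm]
      rcases hef with h' | h' | h'
      · exact h'
      · exact absurd (by simpa using h') hf0
      · exact absurd (by simpa using h') he
  have h4 : (3 : K) • e = 0 := by
    have : (3 : K) = 1 + 1 + 1 := by norm_num
    rw [this, add_smul, add_smul, one_smul]
    exact h3
  exact (smul_eq_zero.1 h4).resolve_right he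

end Pool.Agent.TP3
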