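import Pool.Agent.Lib.MP_a1e562_co.Stm

/-! # [TP A4] the incidence theorem in coordinates -/

set_option autoImplicit false

namespace Pool.Agent.TP3

open Configuration

theorem s_A4 : S_A4 := by
  intro P L K U _ _ _ _ _ C hInc p r δ hlin hδ x0 hx0 x1 hx1 x2 hx2 y0 hy0 y1 hy1 y2 hy2
    e1 e2 e3 e4 e5
  have hpr := LinearIndependent.pair_iff.1 hlin
  have hp0 : p ≠ 0 := by
    intro h
    have := (hpr 1 0 (by simp [h])).1
    exact one_ne_zero this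
  have hr0 : r ≠ 0 := by
    intro h
    have := (hpr 0 1 (by simp [h])).2
    exact one_ne_zero this
  have hprne : p ≠ r := by
    intro h
    have := (hpr 1 (-1) (by simp [h])).1
    exact one_ne_zero this
  have hprs : p + r ≠ 0 := by
    intro h
    have := (hpr 1 1 (by simpa using h)).1
    exact one_ne_zero this
  have lv : ∀ x y : U, C.pt x y ∈ C.vt x := fun x y => (C.pt_vt x y x).2 rfl
  have ll : ∀ M ∈ C.S, ∀ b x y : U, y = M x + b → C.pt x y ∈ C.ln M b :=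
    fun M hM b x y h => (C.pt_ln M hM b x y).2 h
  have vne : ∀ a b : U, a ≠ b → C.vt a ≠ C.vt b := by
    intro a b hab h
    have h1 := lv a 0
    rw [h] at h1
    exact hab ((C.pt_vt a 0 b).1 h1)
  have ptZ : ∀ x y : U, C.pt x y ≠ C.Z := fun x y h => C.pt_inf x y (h ▸ C.Z_inf)
  have lne : ∀ M ∈ C.S, ∀ N ∈ C.S, C.ln M 0 ≠ C.ln N (-δ) := by
    intro M hM N hN h
    have h1 : C.pt 0 0 ∈ C.ln M 0 := ll M hM 0 0 0 (by simp)
    rw [h] at h1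
    have h2 := (C.pt_ln N hN _ _ _).1 h1
    rw [map_zero, zero_add] at h2
    exact hδ (neg_eq_zero.1 h2.symm)
  have hD : ∀ M ∈ C.S, ∀ N ∈ C.S, ∃ D : P, D ∈ C.ln M 0 ∧ D ∈ C.ln N (-δ) := fun M hM N hN =>
    ⟨HasPoints.mkPoint (lne M hM N hN), (HasPoints.mkPoint_ax (lne M hM N hN)).1,
      (HasPoints.mkPoint_ax (lne M hM N hN)).2⟩
  obtain ⟨D0, hD0x, hD0y⟩ := hD x0 hx0 y1 hy1
  obtain ⟨D1, hD1x, hD1y⟩ := hD x1 hx1 y2 hy2
  obtain ⟨D2, hD2x, hD2y⟩ := hD x2 hx2 y0 hy0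
  have hC01 : C.pt 0 0 ≠ C.pt 0 (-δ) := by
    intro h
    have h1 : C.pt 0 0 ∈ C.ln 0 0 := ll 0 C.zero 0 0 0 (by simp)
    rw [h] at h1
    have h2 := (C.pt_ln 0 C.zero _ _ _).1 h1
    simp only [LinearMap.zero_apply, add_zero] at h2
    exact hδ (neg_eq_zero.1 h2)
  have key := hInc C.Z (C.pt 0 0) (C.pt 0 (-δ)) (C.pt p (x0 p)) (C.pt p (x1 p)) (C.pt p (x2 p))
    (C.pt r (x0 r)) (C.pt r (x1 r)) (C.pt r (x2 r)) D0 D1 D2 (C.vt 0) (C.vt p) (C.vt r)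
    (C.ln x0 0) (C.ln x1 0) (C.ln x2 0) (C.ln y0 (-δ)) (C.ln y1 (-δ)) (C.ln y2 (-δ))
    (vne _ _ hp0.symm) (vne _ _ hr0.symm) (vne _ _ hprne) (C.Z_vt 0) (C.Z_vt p) (C.Z_vt r)
    (lv 0 0) (lv 0 _) hC01 (ptZ _ _) (ptZ _ _)
    (ll x0 hx0 _ _ _ (by simp)) (ll x1 hx1 _ _ _ (by simp)) (ll x2 hx2 _ _ _ (by simp))
    (ll y0 hy0 _ _ _ (by simp)) (ll y1 hy1 _ _ _ (by simp)) (ll y2 hy2 _ _ _ (by simp))
    (fun h => C.Z_ln x0 hx0 0 (h ▸ C.Z_vt 0))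
    (ll x0 hx0 _ _ _ (by simp)) (lv p _) (ll y0 hy0 _ _ _ (by rw [e1]; abel))
    (ll y0 hy0 _ _ _ (by rw [e2]; abel)) (lv r _) (ll x1 hx1 _ _ _ (by simp))
    (ll x1 hx1 _ _ _ (by simp)) (lv p _) (ll y1 hy1 _ _ _ (by rw [e3]; abel))
    (ll y1 hy1 _ _ _ (by rw [e4]; abel)) (lv r _) (ll x2 hx2 _ _ _ (by simp))
    (ll x2 hx2 _ _ _ (by simp)) (lv p _) (ll y2 hy2 _ _ _ (by rw [e5]; abel))
    (ll x0 hx0 _ _ _ (by simp)) (lv r _) hD0x hD0y hD1x hD1y hD2x hD2y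
  obtain ⟨hB0, g, hZg, h0g, h1g, h2g⟩ := key
  have e6 : y2 r = x0 r + δ := by
    have h := (C.pt_ln y2 hy2 _ _ _).1 hB0
    rw [h]
    abel
  refine ⟨e6, ?_⟩
  rcases C.lns g with rfl | ⟨γ, rfl⟩ | ⟨M, hM, b, rfl⟩
  · exfalso
    have hinf : ∀ D : P, ∀ M ∈ C.S, ∀ N ∈ C.S, D ∈ C.inf → D ∈ C.ln M 0 → D ∈ C.ln N (-δ) →
        M = N := by
      intro D M hM N hN h1 h2 h3
      rcases C.pts D with ⟨x, y, rfl⟩ | ⟨M', hM', rfl⟩ | rfl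
      · exact absurd h1 (C.pt_inf _ _)
      · exact ((C.Zp_ln M' hM' M hM 0).1 h2).symm.trans ((C.Zp_ln M' hM' N hN _).1 h3)
      · exact absurd h2 (C.Z_ln M hM 0)
    have f0 : x0 = y1 := hinf D0 x0 hx0 y1 hy1 h0g hD0x hD0y
    have f1 : x1 = y2 := hinf D1 x1 hx1 y2 hy2 h1g hD1x hD1y
    have f2 : x2 = y0 := hinf D2 x2 hx2 y0 hy0 h2g hD2x hD2y
    rw [← f0] at e3 e4
    rw [← f1] at e5 e6
    -- e3 : x0 p = x1 p + δ ; e6 : x1 r = x0 r + δ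
    have h1 : x0 (p + r) = x1 (p + r) := by
      rw [map_add, map_add, e3, e6]
      abel
    have h2 : x0 = x1 := C.uq x0 hx0 x1 hx1 _ hprs h1
    rw [h2] at e3
    exact hδ (by simpa using e3)
  · refine ⟨γ, ?_, ?_, ?_⟩
    all_goals
      have hvt : ∀ D : P, ∀ M ∈ C.S, ∀ N ∈ C.S, D ∈ C.vt γ → D ∈ C.ln M 0 → D ∈ C.ln N (-δ) →
          N γ = M γ + δ := by
        intro D M hM N hN h1 h2 h3
        rcases C.pts D with ⟨x, y, rfl⟩ | ⟨M', hM', rfl⟩ | rfl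
        · have a0 := (C.pt_vt _ _ _).1 h1
          subst a0
          have a1 := (C.pt_ln M hM _ _ _).1 h2
          have a2 := (C.pt_ln N hN _ _ _).1 h3
          rw [add_zero] at a1
          rw [← a1, a2]
          abel
        · exact absurd h1 (C.Zp_vt M' hM' γ)
        · exact absurd h2 (C.Z_ln M hM 0)
    · exact hvt D0 x0 hx0 y1 hy1 h0g hD0x hD0y
    · exact hvt D1 x1 hx1 y2 hy2 h1g hD1x hD1y
    · exact hvt D2 x2 hx2 y0 hy0 h2g hD2x hD2y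
  · exact absurd hZg (C.Z_ln M hM b)

end Pool.Agent.TP3
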