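import Pool.Agent.Lib.MP_a1e562_co.Stm

/-! # [TP A5] Exchange of the axes -/

set_option autoImplicit false

namespace Pool.Agent.TP3

open Configuration

section A5

variable {P L K U : Type} [Membership P L] [Field K] [AddCommGroup U]
  [Module K U]

theorem A5_unit (hU : Module.finrank K U = 2) (C : Coor P L K U) (N : Module.End K U)
    (hN : N ∈ C.S) (h0 : N ≠ 0) : ∃ M : Module.End K U, N * M = 1 ∧ M * N = 1 := by
  haveI : FiniteDimensional K U := Module.finite_of_finrank_pos (by omega)
  have hk : LinearMap.ker N = ⊥ := by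
    rw [LinearMap.ker_eq_bot']
    intro x hx
    by_contra hx0
    exact h0 (C.uq N hN 0 C.zero x hx0 (by simpa using hx))
  have hu : IsUnit N := by
    rw [LinearMap.isUnit_iff_ker_eq_bot]; exact hk
  obtain ⟨w, rfl⟩ := hu
  exact ⟨↑w⁻¹, w.mul_inv, w.inv_mul⟩

open Classical in
/-- the inverse in `C.S` (if there is one) -/
noncomputable def A5_iv (C : Coor P L K U) (M : Module.End K U) : Module.End K U :=
  if h : ∃ N ∈ C.S, N * M = 1 ∧ M * N = 1 then h.choose else 0

theorem A5_iv_eq (C : Coor P L K U) {M N : Module.End K U} (hN : N ∈ C.S) (h1 : N * M = 1)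
    (h2 : M * N = 1) : A5_iv C M = N := by
  have h : ∃ N ∈ C.S, N * M = 1 ∧ M * N = 1 := ⟨N, hN, h1, h2⟩
  unfold A5_iv
  rw [dif_pos h]
  obtain ⟨h3, h4, h5⟩ := h.choose_spec
  calc h.choose = h.choose * (M * N) := by rw [h2, mul_one]
    _ = N := by rw [← mul_assoc, h4, one_mul]

/-- the exchanged spread set -/
def A5_S (C : Coor P L K U) : Set (Module.End K U) :=
  {M | M = 0 ∨ ∃ N ∈ C.S, N * M = 1 ∧ M * N = 1}

theorem A5_app {M N : Module.End K U} (h : N * M = 1) (x : U) : N (M x) = x := by
  have := congrArg (fun f : Module.End K U => f x) h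
  simpa using this

theorem A5_ne (C : Coor P L K U) (hU : Module.finrank K U = 2) {M N : Module.End K U}
    (h : N * M = 1) : M ≠ 0 ∧ N ≠ 0 := by
  haveI : Nontrivial U := by
    apply Module.nontrivial_of_finrank_pos (R := K); omega
  obtain ⟨x, hx⟩ := exists_ne (0 : U)
  refine ⟨?_, ?_⟩
  · rintro rfl
    have := A5_app h x
    simp at this
    exact hx this.symm
  · rintro rfl
    have := A5_app h x
    simp at this
    exact hx this.symm

/-- dichotomy -/
theorem A5_cases (C : Coor P L K U) (hU : Module.finrank K U = 2) {M : Module.End K U}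
    (hM : M ∈ A5_S C) : M = 0 ∨ (M ≠ 0 ∧ A5_iv C M ∈ C.S ∧ A5_iv C M * M = 1 ∧
      M * A5_iv C M = 1 ∧ A5_iv C M ≠ 0) := by
  rcases hM with h | ⟨N, hN, h1, h2⟩
  · exact Or.inl h
  · right
    rw [A5_iv_eq C hN h1 h2]
    exact ⟨(A5_ne C hU h1).1, hN, h1, h2, (A5_ne C hU h1).2⟩

/-- every nonzero member of `C.S` is the inverse of a nonzero member of the new set -/
theorem A5_surj (C : Coor P L K U) (hU : Module.finrank K U = 2) {N : Module.End K U}
    (hN : N ∈ C.S) (h0 : N ≠ 0) : ∃ M ∈ A5_S C, M ≠ 0 ∧ A5_iv C M = N ∧ N * M = 1 ∧ M * N = 1 := by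
  obtain ⟨M, h1, h2⟩ := A5_unit hU C N hN h0
  exact ⟨M, Or.inr ⟨N, hN, h1, h2⟩, (A5_ne C hU h1).1, A5_iv_eq C hN h1 h2, h1, h2⟩

end A5

theorem s_A5 : S_A5 := by
  intro P L K U _ _ _ _ _ hU C
  classical
  refine ⟨{ S := A5_S C, inf := C.inf, Z := C.Zp 0, pt := fun x y => C.pt y x
            Zp := fun M => if M = 0 then C.Z else C.Zp (A5_iv C M)
            vt := fun c => C.ln 0 c
            ln := fun M b => if M = 0 then C.vt b else C.ln (A5_iv C M) (-(A5_iv C M b))
            zero := Or.inl rfl
            one := Or.inr ⟨1, C.one, by simp, by simp⟩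
            ex := ?_, uq := ?_, pts := ?_, lns := ?_
            pt_inf := fun x y => C.pt_inf y x
            pt_vt := ?_, pt_ln := ?_, Zp_inf := ?_, Zp_vt := ?_, Zp_ln := ?_
            Z_inf := C.Zp_inf 0 C.zero
            Z_vt := fun c => (C.Zp_ln 0 C.zero 0 C.zero c).2 rfl
            Z_ln := ?_ }, rfl⟩
  · -- ex
    intro x hx y
    by_cases hy : y = 0
    · exact ⟨0, Or.inl rfl, by simp [hy]⟩
    · obtain ⟨N, hN, hNy⟩ := C.ex y hy x
      have h0 : N ≠ 0 := by
        rintro rfl
        exact hx (by simpa using hNy.symm)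
      obtain ⟨M, hM, -, -, h1, h2⟩ := A5_surj C hU hN h0
      exact ⟨M, hM, by rw [← hNy]; exact A5_app h2 y⟩
  · -- uq
    intro M hM N hN x hx hMN
    rcases A5_cases C hU hM with h | ⟨h0, h1, h2, h3, h4⟩
    · rcases A5_cases C hU hN with h' | ⟨h0', h1', h2', h3', h4'⟩
      · rw [h, h']
      · exfalso
        have := A5_app h2' x
        rw [← hMN, h] at this
        simp at this
        exact hx this.symm
    · rcases A5_cases C hU hN with h' | ⟨h0', h1', h2', h3', h4'⟩
      · exfalso
        have := A5_app h2 x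
        rw [hMN, h'] at this
        simp at this
        exact hx this.symm
      · have hy : M x ≠ 0 := by
          intro h
          have := A5_app h2 x
          rw [h] at this
          simp at this
          exact hx this.symm
        have he : A5_iv C M = A5_iv C N := by
          refine C.uq _ h1 _ h1' (M x) hy ?_
          rw [A5_app h2 x, hMN, A5_app h2' x]
        calc M = M * (A5_iv C N * N) := by rw [h2', mul_one]
          _ = N := by rw [← he, ← mul_assoc, h3, one_mul]
  · -- pts
    intro q
    rcases C.pts q with ⟨x, y, rfl⟩ | ⟨M, hM, rfl⟩ | rfl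
    · exact Or.inl ⟨y, x, rfl⟩
    · by_cases h0 : M = 0
      · right; right; rw [h0]
      · obtain ⟨M', hM', h1, h2, -, -⟩ := A5_surj C hU hM h0
        right; left
        exact ⟨M', hM', by rw [if_neg h1, h2]⟩
    · right; left
      exact ⟨0, Or.inl rfl, by simp⟩
  · -- lns
    intro l
    rcases C.lns l with rfl | ⟨c, rfl⟩ | ⟨M, hM, b, rfl⟩
    · exact Or.inl rfl
    · right; right
      exact ⟨0, Or.inl rfl, c, by simp⟩
    · by_cases h0 : M = 0
      · right; left
        exact ⟨b, by rw [h0]⟩
      · obtain ⟨M', hM', h1, h2, h3, h4⟩ := A5_surj C hU hM h0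
        right; right
        refine ⟨M', hM', -(M' b), ?_⟩
        rw [if_neg h1, h2, map_neg, neg_neg, A5_app h3 b]
  · -- pt_vt
    intro x y c
    rw [C.pt_ln 0 C.zero]
    simp
  · -- pt_ln
    intro M hM b x y
    rcases A5_cases C hU hM with h | ⟨h0, h1, h2, h3, h4⟩
    · simp only [h, if_true]
      rw [C.pt_vt]
      simp
    · simp only [if_neg h0]
      rw [C.pt_ln _ h1]
      constructor
      · intro h
        rw [h, map_add, map_neg, A5_app h3, A5_app h3]
        abel
      · intro h
        rw [h, map_add, A5_app h2]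
        abel
  · -- Zp_inf
    intro M hM
    rcases A5_cases C hU hM with h | ⟨h0, h1, h2, h3, h4⟩
    · simp only [h, if_true]; exact C.Z_inf
    · simp only [if_neg h0]; exact C.Zp_inf _ h1
  · -- Zp_vt
    intro M hM c
    rcases A5_cases C hU hM with h | ⟨h0, h1, h2, h3, h4⟩
    · simp only [h, if_true]; exact C.Z_ln 0 C.zero c
    · simp only [if_neg h0]
      rw [C.Zp_ln _ h1 0 C.zero]
      exact h4
  · -- Zp_ln
    intro M hM N hN b
    rcases A5_cases C hU hM with h | ⟨h0, h1, h2, h3, h4⟩
    · rcases A5_cases C hU hN with h' | ⟨h0', h1', h2', h3', h4'⟩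
      · simp only [h, h', if_true]
        simp [C.Z_vt]
      · simp only [h, if_true, if_neg h0']
        constructor
        · intro hh
          exact absurd hh (C.Z_ln _ h1' _)
        · intro hh
          exact absurd hh.symm h0'
    · rcases A5_cases C hU hN with h' | ⟨h0', h1', h2', h3', h4'⟩
      · simp only [h', if_true, if_neg h0]
        constructor
        · intro hh
          exact absurd hh (C.Zp_vt _ h1 _)
        · intro hh
          exact absurd hh h0
      · simp only [if_neg h0, if_neg h0']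
        rw [C.Zp_ln _ h1 _ h1']
        constructor
        · intro he
          calc M = M * (A5_iv C N * N) := by rw [h2', mul_one]
            _ = N := by rw [← he, ← mul_assoc, h3, one_mul]
        · rintro rfl
          rfl
  · -- Z_ln
    intro M hM b
    rcases A5_cases C hU hM with h | ⟨h0, h1, h2, h3, h4⟩
    · simp only [h, if_true]; exact C.Zp_vt 0 C.zero b
    · simp only [if_neg h0]
      rw [C.Zp_ln 0 C.zero _ h1]
      exact fun h => h4 h.symm

end Pool.Agent.TP3
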