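import Pool.Agent.Lib.MP_a1e562_co.Stm

/-!
# Piece [TP A6a] of Theorem A of MP_a1e562_co: normal form of a spread of `K^4`.
-/

set_option autoImplicit false

namespace Pool.Agent.TP3

open Module

private lemma A6a_compl {K : Type} [Field K] (𝒮 : Set (Submodule K (Fin 4 → K)))
    (hd : ∀ W ∈ 𝒮, Module.finrank K W = 2)
    (hu : ∀ W ∈ 𝒮, ∀ W' ∈ 𝒮, ∀ v : Fin 4 → K, v ≠ 0 → v ∈ W → v ∈ W' → W = W')
    {W W' : Submodule K (Fin 4 → K)} (hW : W ∈ 𝒮) (hW' : W' ∈ 𝒮) (hne : W ≠ W') :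
    IsCompl W W' := by
  have hdis : Disjoint W W' := by
    rw [Submodule.disjoint_def]
    intro x hx hx'
    by_contra hx0
    exact hne (hu W hW W' hW' x hx0 hx hx')
  refine ⟨hdis, ?_⟩
  rw [codisjoint_iff]
  apply Submodule.eq_top_of_finrank_eq
  have h1 := Submodule.finrank_sup_add_finrank_inf_eq W W'
  rw [hdis.eq_bot, finrank_bot, hd W hW, hd W' hW'] at h1
  rw [Module.finrank_fin_fun]
  omega

private lemma A6a_three {K : Type} [Field K] (𝒮 : Set (Submodule K (Fin 4 → K)))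
    (hd : ∀ W ∈ 𝒮, Module.finrank K W = 2)
    (hu : ∀ W ∈ 𝒮, ∀ W' ∈ 𝒮, ∀ v : Fin 4 → K, v ≠ 0 → v ∈ W → v ∈ W' → W = W')
    (hc : ∀ v : Fin 4 → K, v ≠ 0 → ∃ W ∈ 𝒮, v ∈ W) :
    ∃ W0 ∈ 𝒮, ∃ W1 ∈ 𝒮, ∃ W2 ∈ 𝒮, W0 ≠ W1 ∧ W2 ≠ W0 ∧ W2 ≠ W1 := by
  have hv1 : (Pi.single 0 1 : Fin 4 → K) ≠ 0 := by
    intro h
    have := congrFun h 0
    simp at this
  set v1 : Fin 4 → K := Pi.single 0 1 with hv1def
  obtain ⟨W1, hW1, h11⟩ := hc v1 hv1
  have hW1top : W1 ≠ ⊤ := by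
    intro h
    have h2 := hd W1 hW1
    rw [h, finrank_top, Module.finrank_fin_fun] at h2
    omega
  obtain ⟨v2, h21⟩ : ∃ v2 : Fin 4 → K, v2 ∉ W1 := by
    by_contra hcon
    push Not at hcon
    exact hW1top (Submodule.eq_top_iff'.mpr hcon)
  have hv2 : v2 ≠ 0 := fun h => h21 (h ▸ W1.zero_mem)
  obtain ⟨W0, hW0, h20⟩ := hc v2 hv2
  have h01 : W0 ≠ W1 := fun h => h21 (h ▸ h20)
  have h31 : v1 + v2 ∉ W1 := fun h => h21 ((Submodule.add_mem_iff_right W1 h11).mp h)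
  have h30 : v1 + v2 ∉ W0 := fun h =>
    h01 (hu W0 hW0 W1 hW1 v1 hv1 ((Submodule.add_mem_iff_left W0 h20).mp h) h11)
  have hv3 : v1 + v2 ≠ 0 := fun h => h31 (h ▸ W1.zero_mem)
  obtain ⟨W2, hW2, h32⟩ := hc (v1 + v2) hv3
  exact ⟨W0, hW0, W1, hW1, W2, hW2, h01, fun h => h30 (h ▸ h32), fun h => h31 (h ▸ h32)⟩

private lemma A6a_coord {K : Type} [Field K] (W0 W1 W2 : Submodule K (Fin 4 → K))
    (h2 : Module.finrank K W2 = 2) (h0d : Module.finrank K W0 = 2)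
    (h1d : Module.finrank K W1 = 2)
    (h01 : IsCompl W0 W1) (h20 : Disjoint W2 W0) (h21 : Disjoint W2 W1) :
    ∃ e : (Fin 4 → K) ≃ₗ[K] ((Fin 2 → K) × (Fin 2 → K)),
      (∀ v, v ∈ W1 ↔ (e v).1 = 0) ∧ (∀ v, v ∈ W0 ↔ (e v).2 = 0) ∧
      (∀ v, v ∈ W2 ↔ (e v).2 = (e v).1) := by
  have hfr : Module.finrank K (Fin 2 → K) = 2 := Module.finrank_fin_fun K
  let θ : (Fin 2 → K) ≃ₗ[K] W2 := LinearEquiv.ofFinrankEq _ _ (hfr.trans h2.symm)
  let E : (W0 × W1) ≃ₗ[K] (Fin 4 → K) := Submodule.prodEquivOfIsCompl W0 W1 h01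
  have hEapp : ∀ (a : W0) (b : W1), E (a, b) = (a : Fin 4 → K) + b := fun a b => rfl
  let α0 : W2 →ₗ[K] W0 := (LinearMap.fst K W0 W1) ∘ₗ E.symm.toLinearMap ∘ₗ W2.subtype
  let α1 : W2 →ₗ[K] W1 := (LinearMap.snd K W0 W1) ∘ₗ E.symm.toLinearMap ∘ₗ W2.subtype
  have hsum : ∀ w : W2, ((α0 w : W0) : Fin 4 → K) + ((α1 w : W1) : Fin 4 → K) = w := by
    intro w
    have h3 : E (E.symm (w : Fin 4 → K)) = w := E.apply_symm_apply _
    rw [← hEapp]
    exact h3
  have hinj0 : Function.Injective α0 := by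
    rw [injective_iff_map_eq_zero]
    intro w hw
    have h3 := hsum w
    rw [hw] at h3
    have h4 : (w : Fin 4 → K) ∈ W1 := by
      rw [← h3]
      simp
    have h5 : (w : Fin 4 → K) = 0 := Submodule.disjoint_def.mp h21 _ w.2 h4
    exact Subtype.ext h5
  have hinj1 : Function.Injective α1 := by
    rw [injective_iff_map_eq_zero]
    intro w hw
    have h3 := hsum w
    rw [hw] at h3
    have h4 : (w : Fin 4 → K) ∈ W0 := by
      rw [← h3]
      simp
    have h5 : (w : Fin 4 → K) = 0 := Submodule.disjoint_def.mp h20 _ w.2 h4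
    exact Subtype.ext h5
  let β0 : W2 ≃ₗ[K] W0 := LinearMap.linearEquivOfInjective α0 hinj0 (h2.trans h0d.symm)
  let β1 : W2 ≃ₗ[K] W1 := LinearMap.linearEquivOfInjective α1 hinj1 (h2.trans h1d.symm)
  have hβ0 : ∀ w, β0 w = α0 w := fun w => LinearMap.linearEquivOfInjective_apply _ _ w
  have hβ1 : ∀ w, β1 w = α1 w := fun w => LinearMap.linearEquivOfInjective_apply _ _ w
  let f : ((Fin 2 → K) × (Fin 2 → K)) ≃ₗ[K] (Fin 4 → K) :=
    ((θ.trans β0).prodCongr (θ.trans β1)).trans E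
  have hf : ∀ x y, f (x, y) = ((β0 (θ x) : W0) : Fin 4 → K) + ((β1 (θ y) : W1) : Fin 4 → K) :=
    fun x y => rfl
  have hfe : ∀ v, v = ((β0 (θ (f.symm v).1) : W0) : Fin 4 → K) +
      ((β1 (θ (f.symm v).2) : W1) : Fin 4 → K) := by
    intro v
    rw [← hf]
    exact (f.apply_symm_apply v).symm
  refine ⟨f.symm, ?_, ?_, ?_⟩
  · intro v
    constructor
    · intro hv
      have h3 := hfe v
      have h4 : ((β0 (θ (f.symm v).1) : W0) : Fin 4 → K) ∈ W1 := by
        have h5 : ((β0 (θ (f.symm v).1) : W0) : Fin 4 → K) =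
            v - ((β1 (θ (f.symm v).2) : W1) : Fin 4 → K) := eq_sub_of_add_eq h3.symm
        rw [h5]
        exact W1.sub_mem hv (β1 (θ (f.symm v).2)).2
      have h5 : ((β0 (θ (f.symm v).1) : W0) : Fin 4 → K) = 0 :=
        Submodule.disjoint_def.mp h01.disjoint _ (β0 (θ (f.symm v).1)).2 h4
      have h6 : β0 (θ (f.symm v).1) = 0 := Subtype.ext h5
      simpa using h6
    · intro h
      rw [hfe v, h, map_zero, map_zero]
      simp
  · intro v
    constructor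
    · intro hv
      have h3 := hfe v
      have h4 : ((β1 (θ (f.symm v).2) : W1) : Fin 4 → K) ∈ W0 := by
        have h5 : ((β1 (θ (f.symm v).2) : W1) : Fin 4 → K) =
            v - ((β0 (θ (f.symm v).1) : W0) : Fin 4 → K) := by
          rw [add_comm] at h3
          exact eq_sub_of_add_eq h3.symm
        rw [h5]
        exact W0.sub_mem hv (β0 (θ (f.symm v).1)).2
      have h5 : ((β1 (θ (f.symm v).2) : W1) : Fin 4 → K) = 0 :=
        Submodule.disjoint_def.mp h01.disjoint _ h4 (β1 (θ (f.symm v).2)).2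
      have h6 : β1 (θ (f.symm v).2) = 0 := Subtype.ext h5
      simpa using h6
    · intro h
      rw [hfe v, h, map_zero, map_zero]
      simp
  · intro v
    have hdiag : ∀ x, f (x, x) = ((θ x : W2) : Fin 4 → K) := by
      intro x
      rw [hf, hβ0, hβ1]
      exact hsum (θ x)
    constructor
    · intro hv
      have h3 : f.symm v = (θ.symm ⟨v, hv⟩, θ.symm ⟨v, hv⟩) := by
        apply f.injective
        rw [f.apply_symm_apply, hdiag, θ.apply_symm_apply]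
      rw [h3]
    · intro h
      have h3 : v = ((θ (f.symm v).1 : W2) : Fin 4 → K) := by
        rw [← hdiag]
        have h4 : ((f.symm v).1, (f.symm v).1) = f.symm v := Prod.ext rfl h.symm
        rw [h4, f.apply_symm_apply]
      rw [h3]
      exact (θ (f.symm v).1).2

private lemma A6a_graph {K : Type} [Field K] (W1 W : Submodule K (Fin 4 → K))
    (hWd : Module.finrank K W = 2)
    (e : (Fin 4 → K) ≃ₗ[K] ((Fin 2 → K) × (Fin 2 → K)))
    (he1 : ∀ v, v ∈ W1 ↔ (e v).1 = 0) (hdis : Disjoint W W1) :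
    ∃ M : Module.End K (Fin 2 → K), ∀ v, v ∈ W ↔ (e v).2 = M (e v).1 := by
  have hfr : Module.finrank K (Fin 2 → K) = 2 := Module.finrank_fin_fun K
  let g0 : W →ₗ[K] (Fin 2 → K) :=
    (LinearMap.fst K (Fin 2 → K) (Fin 2 → K)) ∘ₗ e.toLinearMap ∘ₗ W.subtype
  let g1 : W →ₗ[K] (Fin 2 → K) :=
    (LinearMap.snd K (Fin 2 → K) (Fin 2 → K)) ∘ₗ e.toLinearMap ∘ₗ W.subtype
  have hg0 : ∀ w : W, g0 w = (e (w : Fin 4 → K)).1 := fun w => rfl
  have hg1 : ∀ w : W, g1 w = (e (w : Fin 4 → K)).2 := fun w => rfl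
  have hinj : Function.Injective g0 := by
    rw [injective_iff_map_eq_zero]
    intro w hw
    rw [hg0] at hw
    exact Subtype.ext (Submodule.disjoint_def.mp hdis _ w.2 ((he1 _).mpr hw))
  let g : W ≃ₗ[K] (Fin 2 → K) := LinearMap.linearEquivOfInjective g0 hinj (hWd.trans hfr.symm)
  have hg : ∀ w, g w = g0 w := fun w => LinearMap.linearEquivOfInjective_apply _ _ w
  refine ⟨g1 ∘ₗ g.symm.toLinearMap, fun v => ?_⟩
  have hM : ∀ x, (g1 ∘ₗ g.symm.toLinearMap) x = g1 (g.symm x) := fun x => rfl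
  constructor
  · intro hv
    have h1 : g.symm ((e v).1) = ⟨v, hv⟩ := by
      apply g.injective
      rw [g.apply_symm_apply, hg, hg0]
    rw [hM, h1, hg1]
  · intro h
    rw [hM, hg1] at h
    have h2 : (e ((g.symm ((e v).1) : W) : Fin 4 → K)).1 = (e v).1 := by
      rw [← hg0, ← hg, g.apply_symm_apply]
    have h3 : e v = e ((g.symm ((e v).1) : W) : Fin 4 → K) := Prod.ext h2.symm h
    rw [e.injective h3]
    exact (g.symm ((e v).1)).2

/-- [TP A6a] -/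
theorem s_A6a : S_A6a := by
  intro K _ 𝒮 hd hu hc
  obtain ⟨W0, hW0, W1, hW1, W2, hW2, h01, h20, h21⟩ := A6a_three 𝒮 hd hu hc
  obtain ⟨e, he1, he0, he2⟩ := A6a_coord W0 W1 W2 (hd W2 hW2) (hd W0 hW0) (hd W1 hW1)
    (A6a_compl 𝒮 hd hu hW0 hW1 h01) (A6a_compl 𝒮 hd hu hW2 hW0 h20).disjoint
    (A6a_compl 𝒮 hd hu hW2 hW1 h21).disjoint
  have hgraph : ∀ W ∈ 𝒮, W ≠ W1 →
      ∃ M : Module.End K (Fin 2 → K), ∀ v, v ∈ W ↔ (e v).2 = M (e v).1 := fun W hW hne =>
    A6a_graph W1 W (hd W hW) e he1 (A6a_compl 𝒮 hd hu hW hW1 hne).disjoint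
  refine ⟨e, {M | ∃ W ∈ 𝒮, ∀ v, v ∈ W ↔ (e v).2 = M (e v).1}, ⟨?_, ?_, ?_, ?_⟩, ?_⟩
  · exact ⟨W0, hW0, fun v => by rw [he0 v, LinearMap.zero_apply]⟩
  · exact ⟨W2, hW2, fun v => by rw [he2 v, Module.End.one_apply]⟩
  · intro x hx y
    have hv : e.symm (x, y) ≠ 0 := by
      intro h
      have h1 : (x, y) = (0 : (Fin 2 → K) × (Fin 2 → K)) := by
        rw [← e.apply_symm_apply (x, y), h, map_zero]
      exact hx (congrArg Prod.fst h1)
    obtain ⟨W, hW, hvW⟩ := hc _ hv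
    have hne : W ≠ W1 := by
      intro h
      rw [h, he1, e.apply_symm_apply] at hvW
      exact hx hvW
    obtain ⟨M, hM⟩ := hgraph W hW hne
    refine ⟨M, ⟨W, hW, hM⟩, ?_⟩
    have h2 := (hM _).mp hvW
    rw [e.apply_symm_apply] at h2
    exact h2.symm
  · rintro M ⟨W, hW, hM⟩ N ⟨W', hW', hN⟩ x hx hMN
    have hv : e.symm (x, M x) ≠ 0 := by
      intro h
      have h1 : (x, M x) = (0 : (Fin 2 → K) × (Fin 2 → K)) := by
        rw [← e.apply_symm_apply (x, M x), h, map_zero]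
      exact hx (congrArg Prod.fst h1)
    have h1 : e.symm (x, M x) ∈ W := by rw [hM, e.apply_symm_apply]
    have h2 : e.symm (x, M x) ∈ W' := by rw [hN, e.apply_symm_apply]; exact hMN
    have h3 := hu W hW W' hW' _ hv h1 h2
    apply LinearMap.ext
    intro z
    have h4 : e.symm (z, M z) ∈ W := by rw [hM, e.apply_symm_apply]
    rw [h3, hN, e.apply_symm_apply] at h4
    exact h4
  · intro W
    constructor
    · intro hW
      by_cases h : W = W1
      · left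
        rw [h]
        exact he1
      · right
        obtain ⟨M, hM⟩ := hgraph W hW h
        exact ⟨M, ⟨W, hW, hM⟩, hM⟩
    · rintro (h | ⟨M, ⟨W', hW', hM'⟩, hM⟩)
      · have h1 : W = W1 := by
          ext v
          rw [h, he1]
        rw [h1]
        exact hW1
      · have h1 : W = W' := by
          ext v
          rw [hM, hM']
        rw [h1]
        exact hW'

end Pool.Agent.TP3
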