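import Pool.Agent.Lib.MP_a1e562_co.Stm

/-!
# [TP A6b] Coordinates of the plane
-/

set_option autoImplicit false

namespace Pool.Agent.TP3

open Configuration

private lemma A6b_eq {P L : Type} [Membership P L] [ProjectivePlane P L] {p q : P} {l m : L}
    (hpq : p ≠ q) (h1 : p ∈ l) (h2 : q ∈ l) (h3 : p ∈ m) (h4 : q ∈ m) : l = m :=
  (Nondegenerate.eq_or_eq h1 h2 h3 h4).resolve_left hpq

private lemma A6b_pt {P L : Type} [Membership P L] [ProjectivePlane P L] {p q : P} {l m : L}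
    (hlm : l ≠ m) (h1 : p ∈ l) (h2 : q ∈ l) (h3 : p ∈ m) (h4 : q ∈ m) : p = q :=
  (Nondegenerate.eq_or_eq h1 h2 h3 h4).resolve_right hlm

theorem s_A6b : S_A6b := by
  intro hA6a P L _ _ _ hT
  obtain ⟨K, fK, ℓ, φ, 𝒮, hrank, hl, hW⟩ := hT
  classical
  -- finiteness
  have hfin : Finite K := by
    have h1 : Finite (Fin 4 → K) := Finite.of_equiv _ φ
    exact Finite.of_injective (fun (k : K) (_ : Fin 4) => k) (fun a b h => congrFun h 0)
  refine ⟨K, fK, hfin, ?_⟩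
  -- affine points
  set ap : (Fin 4 → K) → P := fun u => (φ.symm u).1 with hap
  have ap_not : ∀ u, ap u ∉ ℓ := fun u => (φ.symm u).2
  have ap_inj : ∀ u v, ap u = ap v → u = v := by
    intro u v h
    exact φ.symm.injective (Subtype.ext h)
  have ap_surj : ∀ q : P, q ∉ ℓ → ∃ u, q = ap u := by
    intro q hq
    refine ⟨φ ⟨q, hq⟩, ?_⟩
    simp [hap]
  have hl' : ∀ m : L, m ≠ ℓ → ∃ W ∈ 𝒮, ∃ a : Fin 4 → K, ∀ u, ap u ∈ m ↔ u - a ∈ W := by
    intro m hm
    obtain ⟨W, hWS, a, h⟩ := hl m hm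
    refine ⟨W, hWS, a, fun u => ?_⟩
    have := h (φ.symm u)
    simpa [hap] using this
  have hLNex : ∀ (W : Submodule K (Fin 4 → K)) (a : Fin 4 → K), ∃ m : L, W ∈ 𝒮 →
      m ≠ ℓ ∧ ∀ u, ap u ∈ m ↔ u - a ∈ W := by
    intro W a
    by_cases h : W ∈ 𝒮
    · obtain ⟨m, hm, h2⟩ := hW W h a
      refine ⟨m, fun _ => ⟨hm, fun u => ?_⟩⟩
      have := h2 (φ.symm u)
      simpa [hap] using this
    · exact ⟨ℓ, fun h' => absurd h' h⟩
  choose LN hLN using hLNex
  -- a nonzero vector in every member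
  have hnz : ∀ W ∈ 𝒮, ∃ w ∈ W, w ≠ 0 := by
    intro W hWS
    have h2 := hrank W hWS
    by_contra hcon
    push Not at hcon
    have : W = ⊥ := by
      rw [Submodule.eq_bot_iff]
      exact hcon
    rw [this, finrank_bot] at h2
    omega
  -- line extensionality
  have lext : ∀ W ∈ 𝒮, ∀ a : Fin 4 → K, ∀ m m' : L, (∀ u, ap u ∈ m ↔ u - a ∈ W) →
      (∀ u, ap u ∈ m' ↔ u - a ∈ W) → m = m' := by
    intro W hWS a m m' h1 h2
    obtain ⟨w, hw, hw0⟩ := hnz W hWS
    have hne : ap a ≠ ap (a + w) := by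
      intro h
      have := ap_inj _ _ h
      exact hw0 (by simpa using this)
    have i1 : a - a ∈ W := by simp
    have i2 : a + w - a ∈ W := by simpa using hw
    exact A6b_eq hne ((h1 a).2 i1) ((h1 (a + w)).2 i2) ((h2 a).2 i1) ((h2 (a + w)).2 i2)
  -- parallel lines
  have par : ∀ W ∈ 𝒮, ∀ a b : Fin 4 → K, ∀ z : P, z ∈ ℓ → z ∈ LN W a → z ∈ LN W b := by
    intro W hWS a b z hz hza
    obtain ⟨ha1, ha2⟩ := hLN W a hWS
    obtain ⟨hb1, hb2⟩ := hLN W b hWS
    by_cases h : LN W a = LN W b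
    · rwa [← h]
    · obtain ⟨x, hx⟩ : ∃ x : P, x ∈ LN W a ∧ x ∈ LN W b :=
        ⟨HasPoints.mkPoint h, HasPoints.mkPoint_ax h⟩
      have hxl : x ∈ ℓ := by
        by_contra hxl
        obtain ⟨u, rfl⟩ := ap_surj x hxl
        have h1 := (ha2 u).1 hx.1
        have h2 := (hb2 u).1 hx.2
        have h3 : a - b ∈ W := by
          have := W.sub_mem h2 h1
          simpa using this
        apply h
        apply lext W hWS a _ _ ha2
        intro v
        rw [hb2 v]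
        constructor
        · intro h4
          have := W.sub_mem h4 h3
          simpa using this
        · intro h4
          have := W.add_mem h4 h3
          simpa using this
      have : z = x := A6b_pt ha1 hza hx.1 hz hxl
      rw [this]
      exact hx.2
  -- points at infinity
  have hpwex : ∀ W : Submodule K (Fin 4 → K), ∃ z : P, W ∈ 𝒮 → z ∈ ℓ ∧ z ∈ LN W 0 := by
    intro W
    by_cases h : W ∈ 𝒮
    · have h1 := (hLN W 0 h).1
      exact ⟨HasPoints.mkPoint h1, fun _ =>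
        ⟨(HasPoints.mkPoint_ax h1).2, (HasPoints.mkPoint_ax h1).1⟩⟩
    · exact ⟨ap 0, fun h' => absurd h' h⟩
  choose pw hpw using hpwex
  have hpw2 : ∀ W ∈ 𝒮, ∀ a, pw W ∈ LN W a := fun W hWS a =>
    par W hWS 0 a _ (hpw W hWS).1 (hpw W hWS).2
  have z0 : ∀ W ∈ 𝒮, ap 0 ∈ LN W 0 := fun W hWS => ((hLN W 0 hWS).2 0).2 (by simp)
  have Weq : ∀ W ∈ 𝒮, ∀ W' ∈ 𝒮, LN W 0 = LN W' 0 → W = W' := by
    intro W hWS W' hWS' h
    ext v
    have h1 := (hLN W 0 hWS).2 v
    have h2 := (hLN W' 0 hWS').2 v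
    rw [h] at h1
    rw [sub_zero] at h1 h2
    exact h1.symm.trans h2
  have hpw3 : ∀ W ∈ 𝒮, ∀ W' ∈ 𝒮, ∀ b, pw W ∈ LN W' b → W = W' := by
    intro W hWS W' hWS' b h
    have h1 := par W' hWS' b 0 _ (hpw W hWS).1 h
    apply Weq W hWS W' hWS'
    refine A6b_eq (p := pw W) (q := ap 0) ?_ (hpw W hWS).2 (z0 W hWS) h1 (z0 W' hWS')
    intro h2
    exact ap_not 0 (h2 ▸ (hpw W hWS).1)
  have hinf : ∀ z : P, z ∈ ℓ → ∃ W ∈ 𝒮, z = pw W := by
    intro z hz
    have hne : z ≠ ap 0 := fun h => ap_not 0 (h ▸ hz)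
    obtain ⟨m, hm1, hm2⟩ : ∃ m : L, z ∈ m ∧ ap 0 ∈ m :=
      ⟨HasLines.mkLine hne, HasLines.mkLine_ax hne⟩
    have hml : m ≠ ℓ := fun h => ap_not 0 (h ▸ hm2)
    obtain ⟨W, hWS, a, ha⟩ := hl' m hml
    have h0 : -a ∈ W := by
      have := (ha 0).1 hm2
      simpa using this
    have hm : m = LN W 0 := by
      apply lext W hWS 0 _ _ _ (hLN W 0 hWS).2
      intro u
      rw [ha u]
      constructor
      · intro h4
        have := W.sub_mem h4 h0
        simpa using this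
      · intro h4
        have := W.add_mem h4 h0
        simpa [sub_eq_add_neg] using this
    refine ⟨W, hWS, ?_⟩
    have h5 := hpw W hWS
    rw [← hm] at h5
    exact A6b_pt hml hm1 h5.2 hz h5.1
  -- the spread
  obtain ⟨e, S, hS, hiff⟩ := hA6a K 𝒮 hrank (by
      intro W hWS W' hWS' v hv h1 h2
      apply Weq W hWS W' hWS'
      have hne : ap 0 ≠ ap v := fun h => hv (ap_inj _ _ h).symm
      exact A6b_eq hne (z0 W hWS) (((hLN W 0 hWS).2 v).2 (by simpa using h1)) (z0 W' hWS')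
        (((hLN W' 0 hWS').2 v).2 (by simpa using h2))) (by
      intro v hv
      have hne : ap 0 ≠ ap v := fun h => hv (ap_inj _ _ h).symm
      obtain ⟨m, hm1, hm2⟩ : ∃ m : L, ap 0 ∈ m ∧ ap v ∈ m :=
        ⟨HasLines.mkLine hne, HasLines.mkLine_ax hne⟩
      have hml : m ≠ ℓ := fun h => ap_not 0 (h ▸ hm1)
      obtain ⟨W, hWS, a, ha⟩ := hl' m hml
      refine ⟨W, hWS, ?_⟩
      have := W.sub_mem ((ha v).1 hm2) ((ha 0).1 hm1)
      simpa using this)
  -- the members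
  set W1 : Submodule K (Fin 4 → K) :=
    LinearMap.ker ((LinearMap.fst K (Fin 2 → K) (Fin 2 → K)).comp e.toLinearMap) with hW1
  have mW1 : ∀ v, v ∈ W1 ↔ (e v).1 = 0 := by
    intro v
    simp [hW1, LinearMap.mem_ker]
  set WM : Module.End K (Fin 2 → K) → Submodule K (Fin 4 → K) := fun M =>
    LinearMap.ker ((LinearMap.snd K (Fin 2 → K) (Fin 2 → K)).comp e.toLinearMap -
      M.comp ((LinearMap.fst K (Fin 2 → K) (Fin 2 → K)).comp e.toLinearMap)) with hWM
  have mWM : ∀ M v, v ∈ WM M ↔ (e v).2 = M (e v).1 := by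
    intro M v
    simp [hWM, LinearMap.mem_ker, sub_eq_zero]
  have W1S : W1 ∈ 𝒮 := (hiff W1).2 (Or.inl mW1)
  have WMS : ∀ M ∈ S, WM M ∈ 𝒮 := fun M hM => (hiff (WM M)).2 (Or.inr ⟨M, hM, mWM M⟩)
  have h𝒮 : ∀ W ∈ 𝒮, W = W1 ∨ ∃ M ∈ S, W = WM M := by
    intro W hWS
    rcases (hiff W).1 hWS with h | ⟨M, hM, h⟩
    · left
      ext v
      rw [h v, mW1 v]
    · right
      refine ⟨M, hM, ?_⟩
      ext v
      rw [h v, mWM M v]
  have W1ne : ∀ M, W1 ≠ WM M := by
    intro M h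
    have h1 : e.symm (0, fun _ => 1) ∈ W1 := by rw [mW1]; simp
    rw [h, mWM] at h1
    simp only [LinearEquiv.apply_symm_apply, map_zero] at h1
    exact one_ne_zero (congrFun h1 0)
  have WMinj : ∀ M N, WM M = WM N → M = N := by
    intro M N h
    refine LinearMap.ext (fun x => ?_)
    have h1 : e.symm (x, M x) ∈ WM M := by rw [mWM]; simp
    rw [h, mWM] at h1
    simpa using h1
  refine ⟨{
    S := S
    inf := ℓ
    Z := pw W1
    pt := fun x y => ap (e.symm (x, y))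
    Zp := fun M => pw (WM M)
    vt := fun c => LN W1 (e.symm (c, 0))
    ln := fun M b => LN (WM M) (e.symm (0, b))
    zero := hS.zero
    one := hS.one
    ex := hS.ex
    uq := hS.uq
    pts := ?_
    lns := ?_
    pt_inf := fun x y => ap_not _
    pt_vt := ?_
    pt_ln := ?_
    Zp_inf := fun M hM => (hpw (WM M) (WMS M hM)).1
    Zp_vt := ?_
    Zp_ln := ?_
    Z_inf := (hpw W1 W1S).1
    Z_vt := fun c => hpw2 W1 W1S _
    Z_ln := ?_ }⟩
  · intro q
    by_cases hq : q ∈ ℓ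
    · obtain ⟨W, hWS, rfl⟩ := hinf q hq
      rcases h𝒮 W hWS with rfl | ⟨M, hM, rfl⟩
      · exact Or.inr (Or.inr rfl)
      · exact Or.inr (Or.inl ⟨M, hM, rfl⟩)
    · obtain ⟨u, rfl⟩ := ap_surj q hq
      exact Or.inl ⟨(e u).1, (e u).2, by simp⟩
  · intro l
    by_cases hll : l = ℓ
    · exact Or.inl hll
    right
    obtain ⟨W, hWS, a, ha⟩ := hl' l hll
    rcases h𝒮 W hWS with rfl | ⟨M, hM, rfl⟩
    · left
      refine ⟨(e a).1, ?_⟩
      apply lext W1 W1S a _ _ ha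
      intro u
      rw [(hLN W1 _ W1S).2 u, mW1, mW1]
      simp
    · right
      refine ⟨M, hM, (e a).2 - M (e a).1, ?_⟩
      apply lext (WM M) (WMS M hM) a _ _ ha
      intro u
      rw [(hLN (WM M) _ (WMS M hM)).2 u, mWM, mWM]
      simp only [map_sub, LinearEquiv.apply_symm_apply, Prod.fst_sub, Prod.snd_sub, sub_zero]
      constructor
      · intro h
        rw [← h]; abel
      · intro h
        rw [← sub_eq_zero] at h ⊢
        rw [← h]; abel
  · intro x y c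
    rw [(hLN W1 _ W1S).2, mW1]
    simp [sub_eq_zero]
  · intro M hM b x y
    rw [(hLN (WM M) _ (WMS M hM)).2, mWM]
    simp only [map_sub, LinearEquiv.apply_symm_apply, Prod.fst_sub, Prod.snd_sub, sub_zero]
    rw [sub_eq_iff_eq_add]
  · intro M hM c h
    exact W1ne M (hpw3 _ (WMS M hM) _ W1S _ h).symm
  · intro M hM N hN b
    constructor
    · intro h
      exact WMinj _ _ (hpw3 _ (WMS M hM) _ (WMS N hN) _ h)
    · rintro rfl
      exact hpw2 _ (WMS M hM) _
  · intro M hM b h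
    exact W1ne M (hpw3 _ W1S _ (WMS M hM) _ h)

end Pool.Agent.TP3
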