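import Pool.Agent.Lib.MP_a1e562_co.Stm

/-! # Piece [TP A7a] of MP_a1e562_co -/

set_option autoImplicit false

namespace Pool.Agent.TP3

theorem s_A7a : S_A7a := by
  intro K U _ _ _ S hfin hS hadd hneg hmul hcomm
  classical
  obtain ⟨h0, h1, hex, huq⟩ := hS
  have hnt : Nontrivial U := Module.nontrivial_of_finrank_pos (R := K) (by rw [hfin]; norm_num)
  obtain ⟨e0, he0⟩ := exists_ne (0 : U)
  let R : Subring (Module.End K U) :=
    { carrier := S
      mul_mem' := fun {a b} ha hb => hmul a ha b hb
      one_mem' := h1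
      add_mem' := fun {a b} ha hb => hadd a ha b hb
      zero_mem' := h0
      neg_mem' := fun {a} ha => hneg a ha }
  have hR : ∀ M : Module.End K U, M ∈ R ↔ M ∈ S := fun M => Iff.rfl
  have hinv : ∀ M : R, M ≠ 0 → ∃ N : R, M * N = 1 := by
    intro M hM
    have hM0 : (M : Module.End K U) ≠ 0 := fun h => hM (Subtype.ext h)
    have hMe : (M : Module.End K U) e0 ≠ 0 := by
      intro h
      exact hM0 (huq _ M.2 0 h0 e0 he0 (by rw [h]; rfl))
    obtain ⟨N, hN, hNe⟩ := hex _ hMe e0
    refine ⟨⟨N, hN⟩, ?_⟩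
    apply Subtype.ext
    have h2 : N * (M : Module.End K U) = 1 :=
      huq _ (hmul N hN M M.2) 1 h1 e0 he0 (by rw [Module.End.mul_apply, hNe]; rfl)
    show (M : Module.End K U) * N = 1
    rw [hcomm M M.2 N hN]
    exact h2
  have hF : IsField R :=
    { exists_pair_ne := ⟨0, 1, fun h => by
        have h2 : (0 : Module.End K U) = 1 := congrArg Subtype.val h
        apply he0
        have h3 := congrArg (fun f : Module.End K U => f e0) h2
        exact h3.symm⟩
      mul_comm := fun a b => Subtype.ext (hcomm a a.2 b b.2)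
      mul_inv_cancel := fun {a} ha => hinv a ha }
  have hch : ∀ x : U, ∃ M : R, (M : Module.End K U) e0 = x := by
    intro x
    obtain ⟨M, hM, hMx⟩ := hex e0 he0 x
    exact ⟨⟨M, hM⟩, hMx⟩
  choose f hf using hch
  have huq' : ∀ M N : R, (M : Module.End K U) e0 = (N : Module.End K U) e0 → M = N :=
    fun M N h => Subtype.ext (huq _ M.2 _ N.2 e0 he0 h)
  let r : U ≃ R :=
    { toFun := f
      invFun := fun M => (M : Module.End K U) e0
      left_inv := fun x => hf x
      right_inv := fun M => huq' _ _ (hf _) }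
  let t : S ≃ R :=
    { toFun := fun M => ⟨M.1, M.2⟩
      invFun := fun M => ⟨M.1, M.2⟩
      left_inv := fun _ => rfl
      right_inv := fun _ => rfl }
  refine ⟨R, hF.toField, r, t, ?_⟩
  intro M x b
  have key : f ((M : Module.End K U) x + b) = (⟨M.1, M.2⟩ : R) * f x + f b := by
    apply huq'
    rw [hf]
    show _ = ((M : Module.End K U) * (f x : Module.End K U) + (f b : Module.End K U)) e0
    rw [LinearMap.add_apply, Module.End.mul_apply, hf, hf]
  exact key

end Pool.Agent.TP3
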