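import Pool.Agent.Lib.MP_a1e562_co.Stm

/-!
# [TP A7b] A plane with coordinates over a field is desarguesian
-/

set_option autoImplicit false

namespace Pool.Agent.TP3

open Configuration

/-- The functional with coefficients `n`. -/
private def A7b_fn {F : Type} [Field F] (n : Fin 3 → F) : (Fin 3 → F) →ₗ[F] F :=
  n 0 • LinearMap.proj 0 + n 1 • LinearMap.proj 1 + n 2 • LinearMap.proj 2

private lemma A7b_fn_apply {F : Type} [Field F] (n v : Fin 3 → F) :
    A7b_fn n v = n 0 * v 0 + n 1 * v 1 + n 2 * v 2 := by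
  simp [A7b_fn]

private lemma A7b_rank {F : Type} [Field F] (n : Fin 3 → F) (hn : n ≠ 0) :
    Module.finrank F (LinearMap.ker (A7b_fn n)) = 2 := by
  have hne : A7b_fn n ≠ 0 := by
    intro h
    apply hn
    funext i
    have h1 : A7b_fn n (Pi.single i 1) = 0 := by rw [h]; rfl
    rw [A7b_fn_apply] at h1
    fin_cases i <;> simpa using h1
  have h2 := Module.Dual.finrank_ker_add_one_of_ne_zero (f := A7b_fn n) hne
  rw [Module.finrank_fin_fun] at h2
  omega

theorem s_A7b : S_A7b := by
  intro P L K U _ _ _ _ _ C F _ r t hr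
  classical
  -- vectors of points
  have hVex : ∀ q : P, ∃ v : Fin 3 → F, (∃ x y : U, q = C.pt x y ∧ v = ![1, r x, r y]) ∨
      (∃ M : C.S, q = C.Zp M ∧ v = ![0, 1, t M]) ∨ (q = C.Z ∧ v = ![0, 0, 1]) := by
    intro q
    rcases C.pts q with ⟨x, y, h⟩ | ⟨M, hM, h⟩ | h
    · exact ⟨_, Or.inl ⟨x, y, h, rfl⟩⟩
    · exact ⟨_, Or.inr (Or.inl ⟨⟨M, hM⟩, h, rfl⟩)⟩
    · exact ⟨_, Or.inr (Or.inr ⟨h, rfl⟩)⟩
  choose V hV using hVex
  have hNex : ∀ l : L, ∃ n : Fin 3 → F, (l = C.inf ∧ n = ![1, 0, 0]) ∨
      (∃ c : U, l = C.vt c ∧ n = ![r c, -1, 0]) ∨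
      (∃ (M : C.S) (b : U), l = C.ln M b ∧ n = ![r b, t M, -1]) := by
    intro l
    rcases C.lns l with h | ⟨c, h⟩ | ⟨M, hM, b, h⟩
    · exact ⟨_, Or.inl ⟨h, rfl⟩⟩
    · exact ⟨_, Or.inr (Or.inl ⟨c, h, rfl⟩)⟩
    · exact ⟨_, Or.inr (Or.inr ⟨⟨M, hM⟩, b, h, rfl⟩)⟩
  choose N hN using hNex
  have hV0 : ∀ q, V q ≠ 0 := by
    intro q h
    rcases hV q with ⟨x, y, _, h2⟩ | ⟨M, _, h2⟩ | ⟨_, h2⟩
    · rw [h] at h2
      have := congrFun h2 0
      simp at this
    · rw [h] at h2
      have := congrFun h2 1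
      simp at this
    · rw [h] at h2
      have := congrFun h2 2
      simp at this
  have hN0 : ∀ l, N l ≠ 0 := by
    intro l h
    rcases hN l with ⟨_, h2⟩ | ⟨c, _, h2⟩ | ⟨M, b, _, h2⟩
    · rw [h] at h2
      have := congrFun h2 0
      simp at this
    · rw [h] at h2
      have := congrFun h2 1
      simp at this
    · rw [h] at h2
      have := congrFun h2 2
      simp at this
  -- incidence
  have hinc : ∀ (q : P) (l : L), q ∈ l ↔ A7b_fn (N l) (V q) = 0 := by
    intro q l
    rw [A7b_fn_apply]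
    rcases hV q with ⟨x, y, h1, h2⟩ | ⟨M, h1, h2⟩ | ⟨h1, h2⟩ <;>
    rcases hN l with ⟨h3, h4⟩ | ⟨c, h3, h4⟩ | ⟨M', b, h3, h4⟩ <;>
    rw [h2, h4, h1, h3]
    · simp [C.pt_inf x y]
    · rw [C.pt_vt]
      simp only [Matrix.cons_val_zero, Matrix.cons_val_one, Matrix.cons_val_two, Matrix.tail_cons,
        Matrix.head_cons, mul_one, zero_mul, add_zero, neg_mul, one_mul]
      constructor
      · rintro rfl; simp
      · intro h
        apply r.injective
        exact (eq_of_sub_eq_zero (by rw [sub_eq_add_neg]; simpa using h)).symm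
    · rw [C.pt_ln _ M'.2]
      have h5 := hr M' x b
      simp only [Matrix.cons_val_zero, Matrix.cons_val_one, Matrix.cons_val_two, Matrix.tail_cons,
        Matrix.head_cons, mul_one, neg_mul, one_mul]
      constructor
      · intro h
        rw [← h] at h5
        rw [h5]; ring
      · intro h
        apply r.injective
        rw [h5]
        have : r y = r b + t M' * r x := by
          have h6 : r b + t M' * r x + -r y = 0 := by simpa using h
          exact (eq_of_sub_eq_zero (by rw [sub_eq_add_neg]; exact h6)).symm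
        rw [this]; ring
    · simp [C.Zp_inf _ M.2]
    · simp [C.Zp_vt _ M.2 c]
    · rw [C.Zp_ln _ M.2 _ M'.2 b]
      simp only [Matrix.cons_val_zero, Matrix.cons_val_one, Matrix.cons_val_two, Matrix.tail_cons,
        Matrix.head_cons, mul_one, mul_zero, zero_add, neg_mul, one_mul]
      constructor
      · intro h
        have : M = M' := Subtype.ext h
        rw [this]; simp
      · intro h
        have h6 : t M' = t M := eq_of_sub_eq_zero (by rw [sub_eq_add_neg]; simpa using h)
        rw [t.injective h6]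
    · simp [C.Z_inf]
    · simp [C.Z_vt c]
    · simp [C.Z_ln _ M'.2 b]
  -- points
  set f : P → Projectivization F (Fin 3 → F) := fun q => Projectivization.mk F (V q) (hV0 q)
    with hf
  have hVinj : ∀ q q', V q = V q' → q = q' := by
    intro q q' h
    rcases hV q with ⟨x, y, h1, h2⟩ | ⟨M, h1, h2⟩ | ⟨h1, h2⟩ <;>
    rcases hV q' with ⟨x', y', h3, h4⟩ | ⟨M', h3, h4⟩ | ⟨h3, h4⟩ <;>
    rw [h2, h4] at h
    · have e1 := congrFun h 1
      have e2 := congrFun h 2
      simp at e1 e2
      rw [h1, h3, e1, e2]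
    · have := congrFun h 0; simp at this
    · have := congrFun h 0; simp at this
    · have := congrFun h 0; simp at this
    · have e2 := congrFun h 2
      simp at e2
      rw [h1, h3, e2]
    · have := congrFun h 1; simp at this
    · have := congrFun h 0; simp at this
    · have := congrFun h 1; simp at this
    · rw [h1, h3]
  have hfinj : Function.Injective f := by
    intro q q' h
    simp only [hf] at h
    rw [Projectivization.mk_eq_mk_iff'] at h
    obtain ⟨a, ha⟩ := h
    have ha1 : a = 1 ∨ V q = V q' := by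
      rcases hV q with ⟨x, y, h1, h2⟩ | ⟨M, h1, h2⟩ | ⟨h1, h2⟩ <;>
      rcases hV q' with ⟨x', y', h3, h4⟩ | ⟨M', h3, h4⟩ | ⟨h3, h4⟩ <;>
      rw [h2, h4] at ha
      · have e0 := congrFun ha 0; simp at e0; exact Or.inl e0
      · have e0 := congrFun ha 0; simp at e0
      · have e0 := congrFun ha 0; simp at e0
      · have e0 := congrFun ha 0; simp at e0
        have e1 := congrFun ha 1; simp [e0] at e1
      · have e1 := congrFun ha 1; simp at e1; exact Or.inl e1
      · have e1 := congrFun ha 1; simp at e1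
      · have e0 := congrFun ha 0; simp at e0
        have e2 := congrFun ha 2; simp [e0] at e2
      · have e1 := congrFun ha 1; simp at e1
        have e2 := congrFun ha 2; simp [e1] at e2
      · have e2 := congrFun ha 2; simp at e2; exact Or.inl e2
    rcases ha1 with h1 | h1
    · rw [h1, one_smul] at ha
      exact hVinj _ _ ha.symm
    · exact hVinj _ _ h1
  have hfsurj : Function.Surjective f := by
    intro w
    induction w using Projectivization.ind with
    | h v hv =>
      have key : ∀ (q : P) (a : F), a ≠ 0 → v = a • V q → ∃ a, f a = Projectivization.mk F v hv := by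
        intro q a ha h
        refine ⟨q, ?_⟩
        simp only [hf]
        rw [Projectivization.mk_eq_mk_iff']
        exact ⟨a⁻¹, by rw [h, smul_smul, inv_mul_cancel₀ ha, one_smul]⟩
      by_cases h0 : v 0 = 0
      · by_cases h1 : v 1 = 0
        · have h2 : v 2 ≠ 0 := by
            intro h2
            apply hv
            funext i
            fin_cases i
            · exact h0
            · exact h1
            · exact h2
          have hVZ : V C.Z = ![0, 0, 1] := by
            rcases hV C.Z with ⟨x, y, h3, _⟩ | ⟨M, h3, _⟩ | ⟨_, h4⟩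
            · exact absurd (h3 ▸ C.Z_inf) (C.pt_inf x y)
            · exact absurd (h3 ▸ C.Z_vt 0) (C.Zp_vt _ M.2 0)
            · exact h4
          refine key C.Z (v 2) h2 ?_
          rw [hVZ]
          funext i
          fin_cases i
          · simpa using h0
          · simpa using h1
          · simp
        · have hVM : ∀ M : C.S, V (C.Zp M) = ![0, 1, t M] := by
            intro M
            rcases hV (C.Zp M) with ⟨x, y, h3, _⟩ | ⟨M', h3, h4⟩ | ⟨h3, _⟩
            · exact absurd (h3 ▸ C.Zp_inf _ M.2) (C.pt_inf x y)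
            · have h5 := (C.Zp_ln _ M.2 _ M.2 0).2 rfl
              rw [h3, C.Zp_ln _ M'.2 _ M.2 0] at h5
              have h6 : M' = M := Subtype.ext h5
              rw [h4, h6]
            · exact absurd (h3 ▸ C.Z_vt 0) (C.Zp_vt _ M.2 0)
          refine key (C.Zp (t.symm (v 2 / v 1))) (v 1) h1 ?_
          rw [hVM]
          funext i
          fin_cases i
          · simpa using h0
          · simp
          · simp [mul_div_cancel₀ _ h1]
      · have hVp : ∀ x y : U, V (C.pt x y) = ![1, r x, r y] := by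
          intro x y
          rcases hV (C.pt x y) with ⟨x', y', h3, h4⟩ | ⟨M, h3, _⟩ | ⟨h3, _⟩
          · have h5 := (C.pt_vt x y x).2 rfl
            rw [h3, C.pt_vt] at h5
            have h6 := (C.pt_ln 0 C.zero y x y).2 (by simp)
            rw [h3, C.pt_ln 0 C.zero] at h6
            simp at h6
            rw [h4, h5, h6]
          · exact absurd (h3 ▸ C.Zp_inf _ M.2) (C.pt_inf x y)
          · exact absurd (h3 ▸ C.Z_inf) (C.pt_inf x y)
        refine key (C.pt (r.symm (v 1 / v 0)) (r.symm (v 2 / v 0))) (v 0) h0 ?_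
        rw [hVp]
        funext i
        fin_cases i
        · simp
        · simp [mul_div_cancel₀ _ h0]
        · simp [mul_div_cancel₀ _ h0]
  -- lines
  set g : L → {W : Submodule F (Fin 3 → F) // Module.finrank F W = 2} := fun l =>
    ⟨LinearMap.ker (A7b_fn (N l)), A7b_rank _ (hN0 l)⟩ with hg
  have hinc2 : ∀ (q : P) (l : L), q ∈ l ↔ (f q).submodule ≤ (g l).1 := by
    intro q l
    rw [hinc q l]
    simp only [hf, hg]
    rw [Projectivization.submodule_mk, Submodule.span_singleton_le_iff_mem, LinearMap.mem_ker]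
  have htwo : ∀ l : L, ∃ p q : P, p ≠ q ∧ p ∈ l ∧ q ∈ l := by
    intro l
    rcases C.lns l with rfl | ⟨c, rfl⟩ | ⟨M, hM, b, rfl⟩
    · refine ⟨C.Z, C.Zp 0, ?_, C.Z_inf, C.Zp_inf 0 C.zero⟩
      intro h
      exact C.Zp_vt 0 C.zero 0 (h ▸ C.Z_vt 0)
    · refine ⟨C.pt c 0, C.Z, ?_, (C.pt_vt c 0 c).2 rfl, C.Z_vt c⟩
      intro h
      exact C.pt_inf c 0 (h ▸ C.Z_inf)
    · refine ⟨C.pt 0 b, C.Zp M, ?_, (C.pt_ln M hM b 0 b).2 (by simp), (C.Zp_ln M hM M hM b).2 rfl⟩
      intro h
      exact C.pt_inf 0 b (h ▸ C.Zp_inf M hM)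
  have hginj : Function.Injective g := by
    intro l l' h
    obtain ⟨p, q, hpq, hp, hq⟩ := htwo l
    have hp' : p ∈ l' := by rw [hinc2, ← h, ← hinc2]; exact hp
    have hq' : q ∈ l' := by rw [hinc2, ← h, ← hinc2]; exact hq
    exact (Nondegenerate.eq_or_eq hp hq hp' hq').resolve_left hpq
  have hgsurj : Function.Surjective g := by
    rintro ⟨W, hW⟩
    -- two independent vectors
    have hb := Module.finBasisOfFinrankEq F W hW
    have hv0 : ((hb 0 : W) : Fin 3 → F) ≠ 0 := by
      intro h
      exact hb.ne_zero 0 (Subtype.ext h)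
    have hv1 : ((hb 1 : W) : Fin 3 → F) ≠ 0 := by
      intro h
      exact hb.ne_zero 1 (Subtype.ext h)
    obtain ⟨p, hp⟩ := hfsurj (Projectivization.mk F _ hv0)
    obtain ⟨q, hq⟩ := hfsurj (Projectivization.mk F _ hv1)
    have hpq : p ≠ q := by
      intro h
      rw [h, hq] at hp
      rw [Projectivization.mk_eq_mk_iff'] at hp
      obtain ⟨a, ha⟩ := hp
      have h3 : a • hb 0 = hb 1 := Subtype.ext ha
      have h4 := hb.linearIndependent
      have h5 := (LinearIndependent.pair_iff' (x := hb 0) (y := hb 1) (hb.ne_zero 0)).1 (by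
        have : (![hb 0, hb 1] : Fin 2 → W) = hb := by
          funext i; fin_cases i <;> rfl
        rw [this]; exact h4) a
      exact h5 h3
    obtain ⟨l, hl1, hl2⟩ : ∃ l : L, p ∈ l ∧ q ∈ l :=
      ⟨HasLines.mkLine hpq, HasLines.mkLine_ax hpq⟩
    refine ⟨l, ?_⟩
    rw [hinc2, hp, Projectivization.submodule_mk, Submodule.span_singleton_le_iff_mem] at hl1
    rw [hinc2, hq, Projectivization.submodule_mk, Submodule.span_singleton_le_iff_mem] at hl2
    have hle : W ≤ (g l).1 := by
      intro w hw
      have h6 := hb.sum_repr ⟨w, hw⟩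
      rw [Fin.sum_univ_two] at h6
      have h7 := congrArg (Subtype.val) h6
      simp only [Submodule.coe_add, Submodule.coe_smul] at h7
      rw [← h7]
      exact (g l).1.add_mem ((g l).1.smul_mem _ hl1) ((g l).1.smul_mem _ hl2)
    have heq : W = (g l).1 := Submodule.eq_of_le_of_finrank_eq hle (by rw [hW, (g l).2])
    exact Subtype.ext heq.symm
  exact ⟨F, inferInstance, Equiv.ofBijective f ⟨hfinj, hfsurj⟩, Equiv.ofBijective g ⟨hginj, hgsurj⟩,
    fun p l => hinc2 p l⟩

end Pool.Agent.TP3
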