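import Pool.Agent.Lib.MP_a1e562_co.Stm

/-!
# MP_a1e562_co, piece B1: inverse closure
-/

set_option autoImplicit false

namespace Pool.Agent.TP3

theorem s_B1 : S_B1 := by
  intro K U _ _ _ S hfin hS hadd hneg hadd' B hB hB0
  have : FiniteDimensional K U := FiniteDimensional.of_finrank_pos (by omega)
  have : Nontrivial U := Module.nontrivial_of_finrank_pos (R := K) (by omega)
  have hinv : ∀ M ∈ S, M ≠ 0 → ∃ M' : Module.End K U, M' * M = 1 ∧ M * M' = 1 := by
    intro M hM hM0
    have hker : LinearMap.ker M = ⊥ := by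
      rw [LinearMap.ker_eq_bot']
      intro x hx
      by_contra hx0
      apply hM0
      apply hS.uq M hM 0 hS.zero x hx0
      rw [hx]
      rfl
    obtain ⟨u, hu⟩ := (LinearMap.isUnit_iff_ker_eq_bot M).2 hker
    exact ⟨↑u⁻¹, by rw [← hu]; exact u.inv_mul, by rw [← hu]; exact u.mul_inv⟩
  obtain ⟨B', hB1, hB2⟩ := hinv B hB hB0
  by_cases h1 : B = 1
  · exact ⟨1, hS.one, by rw [h1, mul_one], by rw [h1, mul_one]⟩
  have hA : B - 1 ∈ S := by
    rw [sub_eq_add_neg]
    exact hadd B hB _ (hneg 1 hS.one)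
  have hA0 : B - 1 ≠ 0 := sub_ne_zero.2 h1
  obtain ⟨A', hA1, hA2⟩ := hinv (B - 1) hA hA0
  have hsum := hadd' 1 (Or.inr ⟨1, hS.one, mul_one 1, mul_one 1⟩) A'
    (Or.inr ⟨B - 1, hA, hA2, hA1⟩)
  have hprod : 1 + A' = A' * B := by
    have h2 : A' * (B - 1) = A' * B - A' := by rw [mul_sub, mul_one]
    rw [hA1] at h2
    rw [h2]
    abel
  have hone : (1 + A') * (B' * (B - 1)) = 1 := by
    calc (1 + A') * (B' * (B - 1)) = A' * B * (B' * (B - 1)) := by rw [hprod]
      _ = A' * (B * B') * (B - 1) := by simp only [mul_assoc]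
      _ = 1 := by rw [hB2, mul_one, hA1]
  have hne : 1 + A' ≠ 0 := by
    intro h0
    rw [h0, zero_mul] at hone
    exact zero_ne_one hone
  rcases hsum with h0 | ⟨N, hN, hN1, hN2⟩
  · exact absurd h0 hne
  · have hNeq : N = 1 - B' := by
      calc N = N * ((1 + A') * (B' * (B - 1))) := by rw [hone, mul_one]
        _ = N * (1 + A') * (B' * (B - 1)) := by rw [mul_assoc]
        _ = B' * (B - 1) := by rw [hN1, one_mul]
        _ = 1 - B' := by rw [mul_sub, hB1, mul_one]
    have hB' : B' = 1 + -N := by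
      rw [hNeq]
      abel
    exact ⟨B', by rw [hB']; exact hadd 1 hS.one _ (hneg N hN), hB1, hB2⟩

end Pool.Agent.TP3
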