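import Pool.Agent.Lib.MP_a1e562_co.Stm

/-!
# Transfer between endomorphisms and matrices
-/

set_option autoImplicit false

namespace Pool.Agent.TP3

private theorem B10_mat (h3 : S_B3) (h4 : S_B4) (h5 : S_B5) (h6 : S_B6) (h7 : S_B7) (h8 : S_B8)
    (h9 : S_B9) (K : Type) [Field K] [Finite K] (T : Set (Matrix (Fin 2) (Fin 2) K))
    (hc : (3 : K) = 0) (hT : MatS K T) : ∀ A ∈ T, ∀ B ∈ T, A * B ∈ T ∧ A * B = B * A := by
  have h2 : (2 : K) ≠ 0 := by
    intro h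
    have h1 : (1 : K) = 0 := by linear_combination hc - h
    exact one_ne_zero h1
  obtain ⟨s, c, hsc, hadd, hmul⟩ := h3 K T hT
  by_cases hs : ∀ k, s k = k
  · have hc0 := h4 K c hadd (fun k l => by rw [hmul, hs])
    exact h5 K T h2 hT (fun k => by
      have h := hsc k
      rwa [hc0, hs] at h)
  · push Not at hs
    obtain ⟨T', hT', hd⟩ := h6 K T hT s c hsc hmul hs
    have h7' := h7 K T' hc hT' s hd hs
    obtain ⟨hss, y, hy, hsy, hT2⟩ := h8 K T' h2 hT' s hd hs h7'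
    obtain ⟨α, hα⟩ := h9 K h2 s hss hs y hsy
    have hm := hT'.add _ (hd α) _ (hT2 1)
    exfalso
    refine hT'.det _ hm ?_ ?_
    · intro h
      have h1 := congrFun (congrFun h 1) 0
      simp at h1
    · rw [Matrix.det_fin_two]
      simp [hα]

theorem s_B10 : S_B10 := by
  intro h3 h4 h5 h6 h7 h8 h9 K _ _ S hc hS hadd hneg htri
  set φ := LinearMap.toMatrixAlgEquiv' (R := K) (n := Fin 2) with hφ
  have hap : ∀ (M : Module.End K (Fin 2 → K)) (i : Fin 2), φ M i 0 = M (Pi.single 0 1) i :=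
    fun M i => LinearMap.toMatrixAlgEquiv'_apply M i 0
  have he : (Pi.single 0 1 : Fin 2 → K) ≠ 0 := by
    intro h
    have h1 := congrFun h 0
    simp at h1
  have hT : MatS K (φ '' S) := by
    refine ⟨⟨1, hS.one, map_one φ⟩, ?_, ?_, ?_, ?_, ?_, ?_⟩
    · rintro _ ⟨A, hA, rfl⟩ _ ⟨B, hB, rfl⟩
      exact ⟨A + B, hadd A hA B hB, map_add φ _ _⟩
    · rintro _ ⟨A, hA, rfl⟩
      exact ⟨-A, hneg A hA, map_neg φ _⟩
    · rintro _ ⟨A, hA, rfl⟩ _ ⟨B, hB, rfl⟩
      exact ⟨A * B * A, htri A hA B hB, by rw [map_mul, map_mul]⟩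
    · rintro _ ⟨A, hA, rfl⟩ _ ⟨B, hB, rfl⟩ h0 h1
      rw [hap, hap] at h0 h1
      have h : A (Pi.single 0 1) = B (Pi.single 0 1) := by
        funext i
        fin_cases i
        · exact h0
        · exact h1
      rw [hS.uq A hA B hB _ he h]
    · intro α γ
      obtain ⟨M, hM, h⟩ := hS.ex _ he ![α, γ]
      refine ⟨φ M, ⟨M, hM, rfl⟩, ?_, ?_⟩
      · rw [hap, h]
        rfl
      · rw [hap, h]
        rfl
    · rintro _ ⟨A, hA, rfl⟩ hne hdet
      obtain ⟨v, hv, hv2⟩ := Matrix.exists_mulVec_eq_zero_iff.2 hdet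
      have h1 : A v = 0 := by
        have h2 : Matrix.toLin' (LinearMap.toMatrix' A) v = A v := by
          rw [Matrix.toLin'_toMatrix']
        rw [← h2, Matrix.toLin'_apply]
        exact hv2
      have h2 := hS.uq A hA 0 hS.zero v hv (by rw [h1]; rfl)
      exact hne (by rw [h2, map_zero])
  intro A hA B hB
  obtain ⟨⟨C, hC, h1⟩, h2⟩ := B10_mat h3 h4 h5 h6 h7 h8 h9 K _ hc hT (φ A) ⟨A, hA, rfl⟩ (φ B)
    ⟨B, hB, rfl⟩
  rw [← map_mul] at h1
  rw [← map_mul, ← map_mul] at h2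
  exact ⟨φ.injective h1 ▸ hC, φ.injective h2⟩

end Pool.Agent.TP3
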