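import Pool.Agent.Lib.MP_a1e562_co.Stm

set_option autoImplicit false

namespace Pool.Agent.TP3

theorem s_B3 : S_B3 := by
  intro K _ _ T hT
  classical
  choose X hXT hX0 hX1 using fun k : K => hT.ex k 0
  have huq : ∀ k : K, ∀ A ∈ T, A 0 0 = k → A 1 0 = 0 → A = X k := fun k A hA h0 h1 =>
    hT.uq A hA (X k) (hXT k) (h0.trans (hX0 k).symm) (h1.trans (hX1 k).symm)
  have hadd : ∀ k l : K, X (k + l) = X k + X l := fun k l =>
    (huq (k + l) (X k + X l) (hT.add _ (hXT k) _ (hXT l)) (by simp [hX0]) (by simp [hX1])).symm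
  have hone : X 1 = 1 := (huq 1 1 hT.one (by simp) (by simp)).symm
  have hzero : X 0 = 0 := by
    have h := hadd 0 0
    rw [add_zero] at h
    have h2 : X 0 + 0 = X 0 + X 0 := by rw [add_zero]; exact h
    exact (add_left_cancel h2).symm
  have hpow : ∀ (k : K) (n : ℕ), X k ^ n ∈ T ∧ (X k ^ n) 0 0 = k ^ n ∧ (X k ^ n) 1 0 = 0 := by
    intro k n
    induction n using Nat.twoStepInduction with
    | zero => exact ⟨by rw [pow_zero]; exact hT.one, by simp, by simp⟩
    | one => exact ⟨by rw [pow_one]; exact hXT k, by simp [hX0], by simp [hX1]⟩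
    | more n ih _ =>
      obtain ⟨h1, h2, h3⟩ := ih
      have e : X k ^ (n + 2) = X k * X k ^ n * X k := by
        rw [← pow_succ', ← pow_succ]
      refine ⟨by rw [e]; exact hT.tri _ (hXT k) _ h1, ?_, ?_⟩
      · rw [e]
        simp only [Matrix.mul_apply, Fin.sum_univ_two, hX0, hX1, h2, h3]
        ring
      · rw [e]
        simp only [Matrix.mul_apply, Fin.sum_univ_two, hX0, hX1, h2, h3]
        ring
  have hXpow : ∀ (k : K) (n : ℕ), X (k ^ n) = X k ^ n := fun k n =>
    (huq (k ^ n) _ (hpow k n).1 (hpow k n).2.1 (hpow k n).2.2).symm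
  have hmul : ∀ k l : K, X (k * l) = X k * X l := by
    intro k l
    by_cases hk : k = 0
    · rw [hk, zero_mul, hzero, zero_mul]
    by_cases hl : l = 0
    · rw [hl, mul_zero, hzero, mul_zero]
    obtain ⟨θ, hθ⟩ := IsCyclic.exists_monoid_generator (α := Kˣ)
    obtain ⟨i, hi⟩ := (Submonoid.mem_powers_iff _ _).mp (hθ (Units.mk0 k hk))
    obtain ⟨j, hj⟩ := (Submonoid.mem_powers_iff _ _).mp (hθ (Units.mk0 l hl))
    have hi' : k = (θ : K) ^ i := by
      have := congrArg Units.val hi
      simpa using this.symm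
    have hj' : l = (θ : K) ^ j := by
      have := congrArg Units.val hj
      simpa using this.symm
    rw [hi', hj', ← pow_add, hXpow, hXpow, hXpow, pow_add]
  refine ⟨{ toFun := fun k => X k 1 1, map_one' := by simp [hone], map_zero' := by simp [hzero],
            map_mul' := fun k l => by
              rw [hmul]
              simp [Matrix.mul_apply, Fin.sum_univ_two, hX1],
            map_add' := fun k l => by rw [hadd]; simp }, fun k => X k 0 1, ?_, ?_, ?_⟩
  · intro k
    have : (!![k, X k 0 1; 0, X k 1 1] : Matrix (Fin 2) (Fin 2) K) = X k := by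
      ext i j
      fin_cases i <;> fin_cases j <;> simp [hX0, hX1]
    show (!![k, X k 0 1; 0, X k 1 1] : Matrix (Fin 2) (Fin 2) K) ∈ T
    rw [this]
    exact hXT k
  · intro k l
    show X (k + l) 0 1 = X k 0 1 + X l 0 1
    rw [hadd]
    simp
  · intro k l
    show X (k * l) 0 1 = k * X l 0 1 + X k 0 1 * X l 1 1
    rw [hmul]
    simp [Matrix.mul_apply, Fin.sum_univ_two, hX0]

end Pool.Agent.TP3
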