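import Pool.Agent.Lib.MP_a1e562_co.Stm

set_option autoImplicit false

namespace Pool.Agent.TP3

theorem s_B4 : S_B4 := by
  intro K _ _ c _hadd hmul k
  have := Fintype.ofFinite K
  have h1 : c 1 = 0 := by
    have h := hmul 1 1
    rw [mul_one, one_mul, mul_one] at h
    linear_combination (-1) * h
  have hpow : ∀ n : ℕ, c (k ^ (n + 1)) = ((n + 1 : ℕ) : K) * k ^ n * c k := by
    intro n
    induction n with
    | zero => simp
    | succ n ih =>
      rw [pow_succ, hmul, ih]
      push_cast
      ring
  have hq : 0 < Fintype.card K := Fintype.card_pos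
  obtain ⟨m, hm⟩ : ∃ m, Fintype.card K = m + 1 := ⟨Fintype.card K - 1, by omega⟩
  have h2 := hpow m
  rw [← hm, FiniteField.pow_card, FiniteField.cast_card_eq_zero, zero_mul, zero_mul] at h2
  exact h2

end Pool.Agent.TP3
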