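import Pool.Agent.Lib.MP_a1e562_co.Stm

/-!
# Piece B5: scalar matrices in `T` make `T` commutative and closed under multiplication
-/

set_option autoImplicit false

namespace Pool.Agent.TP3

/-- the Jordan product of two members is a member -/
private lemma B5_jordan {K : Type} [Field K] {T : Set (Matrix (Fin 2) (Fin 2) K)}
    (hT : MatS K T) : ∀ A ∈ T, ∀ B ∈ T, A * B + B * A ∈ T := by
  intro A hA B hB
  have h1 : (A + B) * 1 * (A + B) ∈ T := hT.tri _ (hT.add A hA B hB) _ hT.one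
  have h2 : A * 1 * A ∈ T := hT.tri _ hA _ hT.one
  have h3 : B * 1 * B ∈ T := hT.tri _ hB _ hT.one
  have h4 : (A + B) * 1 * (A + B) + (-(A * 1 * A)) + (-(B * 1 * B)) ∈ T :=
    hT.add _ (hT.add _ h1 _ (hT.neg _ h2)) _ (hT.neg _ h3)
  have h5 : (A + B) * 1 * (A + B) + (-(A * 1 * A)) + (-(B * 1 * B)) = A * B + B * A := by
    noncomm_ring
  rw [h5] at h4
  exact h4

/-- closure under scalars -/
private lemma B5_smul {K : Type} [Field K] {T : Set (Matrix (Fin 2) (Fin 2) K)}
    (h2 : (2 : K) ≠ 0) (hT : MatS K T) (hs : ∀ k : K, !![k, 0; 0, k] ∈ T) :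
    ∀ (k : K), ∀ A ∈ T, k • A ∈ T := by
  intro k A hA
  have h := B5_jordan hT A hA _ (hs (k / 2))
  have hc : (!![k / 2, 0; 0, k / 2] : Matrix (Fin 2) (Fin 2) K) = (k / 2) • 1 := by
    ext i j
    fin_cases i <;> fin_cases j <;> simp
  have e : A * !![k / 2, 0; 0, k / 2] + !![k / 2, 0; 0, k / 2] * A = k • A := by
    rw [hc, mul_smul_comm, smul_mul_assoc, mul_one, one_mul, ← add_smul, show k / 2 + k / 2 = k by field_simp; ring]
  rw [e] at h
  exact h

theorem s_B5 : S_B5 := by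
  intro K _ T h2 hT hs
  obtain ⟨J, hJ, hJ0, hJ1⟩ := hT.ex 0 1
  have hsm := B5_smul h2 hT hs
  have key : ∀ A ∈ T, A = A 0 0 • (1 : Matrix (Fin 2) (Fin 2) K) + A 1 0 • J := by
    intro A hA
    refine hT.uq A hA _ (hT.add _ (hsm _ _ hT.one) _ (hsm _ _ hJ)) ?_ ?_
    · simp [hJ0]
    · simp [hJ1]
  have hJJ : J * J ∈ T := by
    have h := hT.tri J hJ 1 hT.one
    rwa [mul_one] at h
  intro A hA B hB
  have eA := key A hA
  have eB := key B hB
  generalize A 0 0 = a at eA
  generalize A 1 0 = b at eA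
  generalize B 0 0 = c at eB
  generalize B 1 0 = d at eB
  have e : A * B = (a * c) • (1 : Matrix (Fin 2) (Fin 2) K) + (a * d + b * c) • J
      + (b * d) • (J * J) := by
    rw [eA, eB]
    simp only [add_mul, mul_add, smul_mul_assoc, mul_smul_comm, one_mul, mul_one, smul_add,
      smul_smul, add_smul]
    rw [mul_comm c a, mul_comm c b, mul_comm d a, mul_comm d b]
    abel
  have e' : B * A = (a * c) • (1 : Matrix (Fin 2) (Fin 2) K) + (a * d + b * c) • J
      + (b * d) • (J * J) := by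
    rw [eA, eB]
    simp only [add_mul, mul_add, smul_mul_assoc, mul_smul_comm, one_mul, mul_one, smul_add,
      smul_smul, add_smul]
    rw [mul_comm a c, mul_comm b c, mul_comm a d, mul_comm b d]
    abel
  refine ⟨?_, e.trans e'.symm⟩
  rw [e]
  exact hT.add _ (hT.add _ (hsm _ _ hT.one) _ (hsm _ _ hJ)) _ (hsm _ _ hJJ)

end Pool.Agent.TP3
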