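import Pool.Agent.Lib.MP_a1e562_co.Stm

/-!
# Piece B6 of MP_a1e562_co: diagonalisation
-/

set_option autoImplicit false

namespace Pool.Agent.TP3

theorem s_B6 : S_B6 := by
  intro K _ T hT s c hmem hmul hs
  obtain ⟨k₀, hk₀⟩ := hs
  have hcomm : ∀ k l, c l * (k - s k) = c k * (l - s l) := by
    intro k l
    have h1 := hmul k l
    have h2 := hmul l k
    rw [mul_comm l k, h1] at h2
    linear_combination h2
  have hk0 : k₀ - s k₀ ≠ 0 := sub_ne_zero.2 (Ne.symm hk₀)
  obtain ⟨t, ht⟩ : ∃ t, t = c k₀ / (k₀ - s k₀) := ⟨_, rfl⟩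
  have hc : ∀ l, c l = t * (l - s l) := by
    intro l
    have h1 := hcomm k₀ l
    rw [ht, div_mul_eq_mul_div, eq_div_iff hk0, h1]
  obtain ⟨g, hg⟩ : ∃ g : Matrix (Fin 2) (Fin 2) K, g = !![1, t; 0, 1] := ⟨_, rfl⟩
  obtain ⟨h, hh⟩ : ∃ h : Matrix (Fin 2) (Fin 2) K, h = !![1, -t; 0, 1] := ⟨_, rfl⟩
  have hgh : g * h = 1 := by
    rw [hg, hh, Matrix.mul_fin_two, Matrix.one_fin_two]
    simp
  have hhg : h * g = 1 := by
    rw [hg, hh, Matrix.mul_fin_two, Matrix.one_fin_two]
    simp
  have e00 : ∀ A : Matrix (Fin 2) (Fin 2) K, (h * A * g) 0 0 = A 0 0 - t * A 1 0 := by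
    intro A
    rw [Matrix.eta_fin_two A, hg, hh, Matrix.mul_fin_two, Matrix.mul_fin_two]
    simp
    ring
  have e10 : ∀ A : Matrix (Fin 2) (Fin 2) K, (h * A * g) 1 0 = A 1 0 := by
    intro A
    rw [Matrix.eta_fin_two A, hg, hh, Matrix.mul_fin_two, Matrix.mul_fin_two]
    simp
  have f00 : ∀ A : Matrix (Fin 2) (Fin 2) K, (g * A * h) 0 0 = A 0 0 + t * A 1 0 := by
    intro A
    rw [Matrix.eta_fin_two A, hg, hh, Matrix.mul_fin_two, Matrix.mul_fin_two]
    simp
  have f10 : ∀ A : Matrix (Fin 2) (Fin 2) K, (g * A * h) 1 0 = A 1 0 := by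
    intro A
    rw [Matrix.eta_fin_two A, hg, hh, Matrix.mul_fin_two, Matrix.mul_fin_two]
    simp
  have hback : ∀ A : Matrix (Fin 2) (Fin 2) K, g * (h * A * g) * h = A := by
    intro A
    calc g * (h * A * g) * h = (g * h) * A * (g * h) := by simp only [Matrix.mul_assoc]
      _ = A := by rw [hgh, one_mul, mul_one]
  have hback' : ∀ A : Matrix (Fin 2) (Fin 2) K, h * (g * A * h) * g = A := by
    intro A
    calc h * (g * A * h) * g = (h * g) * A * (h * g) := by simp only [Matrix.mul_assoc]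
      _ = A := by rw [hhg, one_mul, mul_one]
  refine ⟨{A | h * A * g ∈ T}, ⟨?_, ?_, ?_, ?_, ?_, ?_, ?_⟩, ?_⟩
  · show h * 1 * g ∈ T
    rw [mul_one, hhg]
    exact hT.one
  · intro A hA B hB
    show h * (A + B) * g ∈ T
    rw [mul_add, add_mul]
    exact hT.add _ hA _ hB
  · intro A hA
    show h * (-A) * g ∈ T
    rw [mul_neg, neg_mul]
    exact hT.neg _ hA
  · intro A hA B hB
    show h * (A * B * A) * g ∈ T
    have h1 := hT.tri _ hA _ hB
    have h2 : h * A * g * (h * B * g) * (h * A * g) = h * (A * B * A) * g := by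
      calc h * A * g * (h * B * g) * (h * A * g) = h * A * (g * h) * B * (g * h) * A * g := by
            simp only [Matrix.mul_assoc]
        _ = h * (A * B * A) * g := by
            rw [hgh, mul_one, mul_one]
            simp only [Matrix.mul_assoc]
    rwa [h2] at h1
  · intro A hA B hB h0 h1
    have h2 : h * A * g = h * B * g := by
      apply hT.uq _ hA _ hB
      · rw [e00, e00, h0, h1]
      · rw [e10, e10, h1]
    rw [← hback A, h2, hback B]
  · intro α γ
    obtain ⟨A, hA, h0, h1⟩ := hT.ex (α - t * γ) γ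
    refine ⟨g * A * h, ?_, ?_, ?_⟩
    · show h * (g * A * h) * g ∈ T
      rw [hback']
      exact hA
    · rw [f00, h0, h1]
      ring
    · rw [f10, h1]
  · intro A hA hA0
    have h1 : h * A * g ≠ 0 := by
      intro h2
      apply hA0
      rw [← hback A, h2]
      simp
    have h2 := hT.det _ hA h1
    rw [Matrix.det_mul, Matrix.det_mul] at h2
    intro h3
    apply h2
    rw [h3]
    ring
  · intro k
    show h * !![k, 0; 0, s k] * g ∈ T
    have h1 := hmem k
    have h2 : h * !![k, 0; 0, s k] * g = !![k, c k; 0, s k] := by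
      rw [hg, hh, Matrix.mul_fin_two, Matrix.mul_fin_two, hc k]
      ext i j
      fin_cases i <;> fin_cases j <;> simp <;> ring
    rwa [h2]

end Pool.Agent.TP3
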