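import Pool.Agent.Lib.MP_a1e562_co.Stm

/-! # Piece [TP B7] of MP_a1e562_co -/

set_option autoImplicit false

namespace Pool.Agent.TP3

private theorem jordan {K : Type} [Field K] {T : Set (Matrix (Fin 2) (Fin 2) K)}
    (hT : MatS K T) {D M : Matrix (Fin 2) (Fin 2) K} (hD : D ∈ T) (hM : M ∈ T) :
    D * M + M * D ∈ T := by
  have h1 := hT.tri _ (hT.add D hD M hM) 1 hT.one
  have h2 := hT.neg _ (hT.tri D hD 1 hT.one)
  have h3 := hT.neg _ (hT.tri M hM 1 hT.one)
  have h4 := hT.add _ (hT.add _ h1 _ h2) _ h3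
  have e : (D + M) * 1 * (D + M) + -(D * 1 * D) + -(M * 1 * M) = D * M + M * D := by
    simp only [mul_one]
    noncomm_ring
  rw [e] at h4
  exact h4

theorem s_B7 : S_B7 := by
  intro K _ T h3 hT s hs ⟨k, hk⟩ A hA hA0
  have hks : k - s k ≠ 0 := fun h => hk (sub_eq_zero.1 h).symm
  obtain ⟨M, hM, hM0, hM1⟩ := hT.ex 0 (A 1 0 / (k - s k) ^ 2)
  have hD := hs k
  set D : Matrix (Fin 2) (Fin 2) K := !![k, 0; 0, s k] with hDdef
  have hX1 := jordan hT hD hM
  have hX2 := jordan hT hD hX1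
  have hY := hT.neg _ (hT.tri D hD M hM)
  have hZ := hT.add _ hX2 _ hY
  set Z : Matrix (Fin 2) (Fin 2) K :=
    D * (D * M + M * D) + (D * M + M * D) * D + -(D * M * D) with hZdef
  have d00 : D 0 0 = k := rfl
  have d01 : D 0 1 = 0 := rfl
  have d10 : D 1 0 = 0 := rfl
  have d11 : D 1 1 = s k := rfl
  have z00 : Z 0 0 = 0 := by
    simp only [hZdef, Matrix.add_apply, Matrix.neg_apply, Matrix.mul_apply, Fin.sum_univ_two,
      d00, d01, d10, d11, hM0]
    ring
  have z10 : Z 1 0 = A 1 0 := by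
    simp only [hZdef, Matrix.add_apply, Matrix.neg_apply, Matrix.mul_apply, Fin.sum_univ_two,
      d00, d01, d10, d11, hM0, hM1]
    field_simp
    linear_combination (k * s k * A 1 0) * h3
  have z11 : Z 1 1 = 0 := by
    simp only [hZdef, Matrix.add_apply, Matrix.neg_apply, Matrix.mul_apply, Fin.sum_univ_two,
      d00, d01, d10, d11, hM0]
    linear_combination (s k ^ 2 * M 1 1) * h3
  have hAZ : A = Z := hT.uq A hA Z hZ (by rw [hA0, z00]) z10.symm
  rw [hAZ]
  exact z11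

end Pool.Agent.TP3
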