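import Pool.Agent.Lib.MP_a1e562_co.Stm

set_option autoImplicit false

namespace Pool.Agent.TP3

private lemma B8_mat {K : Type} [Field K] (A : Matrix (Fin 2) (Fin 2) K) :
    A = !![A 0 0, A 0 1; A 1 0, A 1 1] := by
  ext i j
  fin_cases i <;> fin_cases j <;> rfl

theorem s_B8 : S_B8 := by
  intro K _ T h2 hT s hs hne h7
  -- the members with zero diagonal
  have hex : ∀ γ : K, ∃ b : K, !![0, b; γ, 0] ∈ T := by
    intro γ
    obtain ⟨A, hA, h00, h10⟩ := hT.ex 0 γ
    refine ⟨A 0 1, ?_⟩
    have h11 := h7 A hA h00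
    have := B8_mat A
    rw [h00, h10, h11] at this
    rw [← this]
    exact hA
  choose β hβ using hex
  have huq : ∀ b b' γ : K, !![0, b; γ, 0] ∈ T → !![0, b'; γ, 0] ∈ T → b = b' := by
    intro b b' γ h h'
    have h3 := hT.uq _ h _ h' (by simp) (by simp)
    have := congrFun (congrFun h3 0) 1
    simpa using this
  have hadd : ∀ γ κ : K, β (γ + κ) = β γ + β κ := by
    intro γ κ
    refine huq _ _ (γ + κ) (hβ _) ?_
    have h3 := hT.add _ (hβ γ) _ (hβ κ)
    have h4 : (!![0, β γ; γ, 0] : Matrix (Fin 2) (Fin 2) K) + !![0, β κ; κ, 0] =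
        !![0, β γ + β κ; γ + κ, 0] := by
      ext i j
      fin_cases i <;> fin_cases j <;> simp
    rwa [h4] at h3
  have hkey : ∀ k γ : K, s (β γ * s k * γ) = γ * k * β γ := by
    intro k γ
    have h3 := hT.tri _ (hβ γ) _ (hs k)
    have h4 : (!![0, β γ; γ, 0] : Matrix (Fin 2) (Fin 2) K) * !![k, 0; 0, s k] *
        !![0, β γ; γ, 0] = !![β γ * s k * γ, 0; 0, γ * k * β γ] := by
      rw [Matrix.mul_fin_two, Matrix.mul_fin_two]
      simp
    rw [h4] at h3
    have h5 := hT.uq _ h3 _ (hs (β γ * s k * γ)) (by simp) (by simp)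
    have := congrFun (congrFun h5 1) 1
    simpa using this.symm
  have h1 : ∀ γ : K, s γ * s (β γ) = γ * β γ := by
    intro γ
    have := hkey 1 γ
    simp only [map_mul, map_one, mul_one] at this
    rw [mul_comm]
    exact this
  have hy : s (β 1) = β 1 := by
    have := h1 1
    simpa using this
  have hy0 : β 1 ≠ 0 := by
    intro h0
    have h3 := hT.det _ (hβ 1) (by
      intro h
      have := congrFun (congrFun h 1) 0
      simp at this)
    apply h3
    rw [Matrix.det_fin_two]
    simp [h0]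
  have hss : ∀ k, s (s k) = k := by
    intro k
    have h3 := hkey k 1
    rw [map_mul, map_mul, hy, map_one] at h3
    have h4 : β 1 * (s (s k) - k) = 0 := by linear_combination h3
    rcases mul_eq_zero.1 h4 with h5 | h5
    · exact absurd h5 hy0
    · exact sub_eq_zero.1 h5
  have hA : ∀ γ : K, s γ ≠ γ → β γ = β 1 * s γ := by
    intro γ hγ
    have h3 := h1 (γ + 1)
    rw [hadd, map_add, map_add, map_one, hy] at h3
    have h4 := h1 γ
    have h5 : (γ - s γ) * (β γ - β 1 * s γ) = 0 := by
      have h6 : s (β γ) = β γ + γ * β 1 - s γ * β 1 := by linear_combination h3 - h4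
      rw [h6] at h4
      linear_combination -h4
    rcases mul_eq_zero.1 h5 with h6 | h6
    · exact absurd (sub_eq_zero.1 h6).symm hγ
    · exact sub_eq_zero.1 h6
  have hB : ∀ γ : K, β γ = β 1 * s γ := by
    intro γ
    by_cases hγ : s γ = γ
    · obtain ⟨κ, hκ⟩ := hne
      have h3 := hA κ hκ
      have h4 := hA (γ + κ) (by
        rw [map_add, hγ]
        intro h
        exact hκ (add_left_cancel h))
      rw [hadd, map_add] at h4
      linear_combination h4 - h3
    · exact hA γ hγ
  refine ⟨hss, β 1, hy0, hy, fun γ => ?_⟩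
  rw [← hB γ]
  exact hβ γ

end Pool.Agent.TP3
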