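import Pool.Agent.Lib.MP_a1e562_co.Stm

set_option autoImplicit false

namespace Pool.Agent.TP3

open Polynomial in
theorem s_B9 : S_B9 := by
  intro K _ _ h2 s hss hne y hy
  obtain ⟨k, hk⟩ := hne
  let K0 : Subfield K := RingHom.eqLocusField s (RingHom.id K)
  have hmem : ∀ x : K, x ∈ K0 ↔ s x = x := fun x => Iff.rfl
  have : Finite K0 := inferInstance
  let _ : Fintype K0 := Fintype.ofFinite K0
  have h20 : (2 : K0) ≠ 0 := by
    intro h
    apply h2
    have := congrArg (Subtype.val : K0 → K) h
    exact this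
  have hodd : Fintype.card K0 % 2 = 1 := by
    apply FiniteField.odd_card_of_char_ne_two
    intro h
    apply h20
    have h3 := ringChar.Nat.cast_ringChar (R := K0)
    rw [h] at h3
    exact_mod_cast h3
  set z : K := k - s k with hz
  have hz0 : z ≠ 0 := fun h => hk (sub_eq_zero.1 h).symm
  have hsz : s z = -z := by rw [hz, map_sub, hss]; ring
  have hd : z ^ 2 ∈ K0 := by rw [hmem, map_pow, hsz]; ring
  let d : K0 := ⟨z ^ 2, hd⟩
  let y0 : K0 := ⟨y, (hmem y).2 hy⟩
  have hd0 : -d ≠ 0 := by
    intro h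
    have := congrArg (Subtype.val : K0 → K) h
    simp only [d, Subfield.coe_neg, Subfield.coe_zero, neg_eq_zero] at this
    exact hz0 (pow_eq_zero_iff (two_ne_zero) |>.1 this)
  obtain ⟨a, b, hab⟩ := FiniteField.exists_root_sum_quadratic (R := K0)
    (f := X ^ 2 - C y0) (g := C (-d) * X ^ 2)
    (by
      rw [degree_sub_C (by rw [degree_X_pow]; norm_num)]
      exact degree_X_pow 2)
    (by rw [degree_C_mul_X_pow 2 hd0]; rfl) hodd
  simp only [eval_sub, eval_pow, eval_X, eval_C, eval_mul] at hab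
  have hab' : (a : K) ^ 2 - y + -(z ^ 2) * (b : K) ^ 2 = 0 := by
    have := congrArg (Subtype.val : K0 → K) hab
    simpa [d, y0] using this
  refine ⟨(a : K) + b * z, ?_⟩
  have ha : s (a : K) = a := (hmem _).1 a.2
  have hb : s (b : K) = b := (hmem _).1 b.2
  rw [map_add, map_mul, ha, hb, hsz]
  linear_combination hab'

end Pool.Agent.TP3
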