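import Pool.Agent.Lib.MP_a1e562_co.Stm

/-! # [TP C1] `Hex` gives the cube relation and the rational identity -/

set_option autoImplicit false

namespace Pool.Agent.TP3

private lemma C1_smul {K U : Type} [Field K] [AddCommGroup U] [Module K U]
    {k : K} (hk : k ≠ 0) (M N : Module.End K U) (p δ : U) :
    M (k⁻¹ • p) = N (k⁻¹ • p) + δ ↔ M p = N p + k • δ := by
  rw [map_smul, map_smul]
  constructor
  · intro h
    have := congrArg (fun z => k • z) h
    simpa [smul_add, smul_smul, mul_inv_cancel₀ hk] using this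
  · intro h
    rw [h, smul_add, smul_smul, inv_mul_cancel₀ hk, one_smul]

theorem s_C1 : S_C1 := by
  intro K U _ _ _ S hfin hHex p r δ η k l hli hδ hηδ hk hl x0 hx0 x1 hx1 x2 hx2 y0 hy0 y1 hy1
    y2 hy2 e1 e2 e3 e4 e5
  have hli' : LinearIndependent K ![k⁻¹ • p, l⁻¹ • r] := by
    rw [LinearIndependent.pair_iff] at hli ⊢
    intro s t hst
    rw [smul_smul, smul_smul] at hst
    obtain ⟨h1, h2⟩ := hli _ _ hst
    exact ⟨(mul_eq_zero.mp h1).resolve_right (inv_ne_zero hk),
      (mul_eq_zero.mp h2).resolve_right (inv_ne_zero hl)⟩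
  obtain ⟨h1, γ, g1, g2, g3⟩ := hHex _ _ δ hli' hδ x0 hx0 x1 hx1 x2 hx2 y0 hy0 y1 hy1 y2 hy2
    ((C1_smul hk _ _ _ _).mpr e1) ((C1_smul hl _ _ _ _).mpr e2) ((C1_smul hk _ _ _ _).mpr e3)
    ((C1_smul hl _ _ _ _).mpr e4) ((C1_smul hk _ _ _ _).mpr e5)
  have h1' := (C1_smul hl _ _ _ _).mp h1
  refine ⟨h1', ?_⟩
  have hspan : Submodule.span K (Set.range ![p, r]) = ⊤ :=
    hli.span_eq_top_of_card_eq_finrank (by simp [hfin])
  have hγ : γ ∈ Submodule.span K {p, r} := by
    have : (Set.range ![p, r]) = {p, r} := by simp [Matrix.range_cons, Set.pair_comm]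
    rw [← this, hspan]
    exact Submodule.mem_top
  obtain ⟨α, β, hαβ⟩ := Submodule.mem_span_pair.mp hγ
  have hne : α ≠ 0 ∨ β ≠ 0 := by
    by_contra hcon
    push Not at hcon
    rw [hcon.1, hcon.2, zero_smul, zero_smul, add_zero] at hαβ
    rw [← hαβ, map_zero, map_zero, zero_add] at g1
    exact hδ g1.symm
  subst hαβ
  have k1 := congrArg η g1
  have k2 := congrArg η g2
  have d1 := congrArg η e1
  have d2 := congrArg η e2
  have d3 := congrArg η e3
  have d4 := congrArg η e4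
  have d5 := congrArg η e5
  have d6 := congrArg η h1'
  simp only [map_add, map_smul, hηδ, smul_eq_mul, mul_zero, add_zero] at k1 k2 d1 d2 d3 d4 d5 d6
  rw [d2, d5]
  rw [d3, d4] at k1
  rw [d5, d6] at k2
  -- α (U 1 - U 0) + β (V2 - V0) = 0 ; α (U2 - U1) + β (V0 - V1) = 0
  generalize η (x0 p) = U0 at *
  generalize η (x1 p) = U1 at *
  generalize η (x2 p) = U2 at *
  generalize η (x0 r) = V0 at *
  generalize η (x1 r) = V1 at *
  generalize η (x2 r) = V2 at *
  have key : ((U1 - U2) * (V2 - V1) - (U2 - U0) * (V1 - V0)) = 0 := by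
    rcases hne with h | h
    · apply (mul_eq_zero.mp (?_ : α * ((U1 - U2) * (V2 - V1) - (U2 - U0) * (V1 - V0)) = 0)).resolve_left h
      linear_combination (V0 - V1) * k1 - (V2 - V0) * k2
    · apply (mul_eq_zero.mp (?_ : β * ((U1 - U2) * (V2 - V1) - (U2 - U0) * (V1 - V0)) = 0)).resolve_left h
      linear_combination (-(U2 - U1)) * k1 + (U1 - U0) * k2
  linear_combination key

end Pool.Agent.TP3
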