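import Pool.Agent.Lib.MP_a1e562_co.Stm

/-! # [TP C2] The grid of a spread set -/

set_option autoImplicit false

namespace Pool.Agent.TP3

/-- the member `N` of `S` with `N x = M x + k • δ` -/
private noncomputable def C2_step {K U : Type} [Field K] [AddCommGroup U] [Module K U]
    {S : Set (Module.End K U)} (hS : SpreadSet K U S) (x : U) (hx : x ≠ 0) (δ : U) (k : K)
    (M : S) : S :=
  ⟨(hS.ex x hx ((M : Module.End K U) x + k • δ)).choose,
    (hS.ex x hx ((M : Module.End K U) x + k • δ)).choose_spec.1⟩

private lemma C2_step_spec {K U : Type} [Field K] [AddCommGroup U] [Module K U]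
    {S : Set (Module.End K U)} (hS : SpreadSet K U S) (x : U) (hx : x ≠ 0) (δ : U) (k : K)
    (M : S) : (C2_step hS x hx δ k M : Module.End K U) x = (M : Module.End K U) x + k • δ :=
  (hS.ex x hx ((M : Module.End K U) x + k • δ)).choose_spec.2

private lemma C2_ext {K U : Type} [Field K] [AddCommGroup U] [Module K U]
    {S : Set (Module.End K U)} (hS : SpreadSet K U S) {x : U} (hx : x ≠ 0) {M N : S}
    (h : (M : Module.End K U) x = (N : Module.End K U) x) : M = N :=
  Subtype.ext (hS.uq M M.2 N N.2 x hx h)

private lemma C2_step_add {K U : Type} [Field K] [AddCommGroup U] [Module K U]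
    {S : Set (Module.End K U)} (hS : SpreadSet K U S) (x : U) (hx : x ≠ 0) (δ : U) (k k' : K)
    (M : S) : C2_step hS x hx δ k (C2_step hS x hx δ k' M) = C2_step hS x hx δ (k + k') M := by
  apply C2_ext hS hx
  rw [C2_step_spec, C2_step_spec, C2_step_spec, add_smul]
  abel

private lemma C2_step_zero {K U : Type} [Field K] [AddCommGroup U] [Module K U]
    {S : Set (Module.End K U)} (hS : SpreadSet K U S) (x : U) (hx : x ≠ 0) (δ : U)
    (M : S) : C2_step hS x hx δ 0 M = M := by
  apply C2_ext hS hx
  rw [C2_step_spec, zero_smul, add_zero]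

/-- the permutation `N x = M x + k • δ` -/
private noncomputable def C2_perm {K U : Type} [Field K] [AddCommGroup U] [Module K U]
    {S : Set (Module.End K U)} (hS : SpreadSet K U S) (x : U) (hx : x ≠ 0) (δ : U) (k : K) :
    Equiv.Perm S where
  toFun := C2_step hS x hx δ k
  invFun := C2_step hS x hx δ (-k)
  left_inv M := by rw [C2_step_add, neg_add_cancel, C2_step_zero]
  right_inv M := by rw [C2_step_add, add_neg_cancel, C2_step_zero]

private lemma C2_perm_spec {K U : Type} [Field K] [AddCommGroup U] [Module K U]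
    {S : Set (Module.End K U)} (hS : SpreadSet K U S) (x : U) (hx : x ≠ 0) (δ : U) (k : K)
    (M : S) : (C2_perm hS x hx δ k M : Module.End K U) x = (M : Module.End K U) x + k • δ :=
  C2_step_spec hS x hx δ k M

private lemma C2_perm_add {K U : Type} [Field K] [AddCommGroup U] [Module K U]
    {S : Set (Module.End K U)} (hS : SpreadSet K U S) (x : U) (hx : x ≠ 0) (δ : U) (k k' : K) :
    C2_perm hS x hx δ (k + k') = C2_perm hS x hx δ k * C2_perm hS x hx δ k' := by
  ext1 M
  exact (C2_step_add hS x hx δ k k' M).symm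

private lemma C2_perm_zero {K U : Type} [Field K] [AddCommGroup U] [Module K U]
    {S : Set (Module.End K U)} (hS : SpreadSet K U S) (x : U) (hx : x ≠ 0) (δ : U) :
    C2_perm hS x hx δ 0 = 1 := by
  ext1 M
  exact C2_step_zero hS x hx δ M

private lemma C2_perm_neg {K U : Type} [Field K] [AddCommGroup U] [Module K U]
    {S : Set (Module.End K U)} (hS : SpreadSet K U S) (x : U) (hx : x ≠ 0) (δ : U) (k : K) :
    C2_perm hS x hx δ (-k) = (C2_perm hS x hx δ k)⁻¹ := by
  rw [eq_inv_iff_mul_eq_one, ← C2_perm_add, neg_add_cancel, C2_perm_zero]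

/-- two members with the same value at `x`, up to `δ` -/
private lemma C2_tr {K U : Type} [Field K] [AddCommGroup U] [Module K U]
    {S : Set (Module.End K U)} (hS : SpreadSet K U S) (x : U) (hx : x ≠ 0) (δ : U)
    (η : U →ₗ[K] K) (hη : ∀ x : U, η x = 0 ↔ ∃ t : K, x = t • δ) (M N : S)
    (h : η ((M : Module.End K U) x) = η ((N : Module.End K U) x)) :
    ∃ k : K, C2_perm hS x hx δ k M = N := by
  have h1 : η ((N : Module.End K U) x - (M : Module.End K U) x) = 0 := by
    rw [map_sub, h, sub_self]
  obtain ⟨t, ht⟩ := (hη _).mp h1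
  refine ⟨t, C2_ext hS hx ?_⟩
  rw [C2_perm_spec, ← ht]
  abel

/-- the two coordinates determine the member -/
private lemma C2_inj {K U : Type} [Field K] [AddCommGroup U] [Module K U]
    {S : Set (Module.End K U)} (hS : SpreadSet K U S) (p r δ : U)
    (hli : LinearIndependent K ![p, r])
    (η : U →ₗ[K] K) (hη : ∀ x : U, η x = 0 ↔ ∃ t : K, x = t • δ) (M N : S)
    (h1 : η ((M : Module.End K U) p) = η ((N : Module.End K U) p))
    (h2 : η ((M : Module.End K U) r) = η ((N : Module.End K U) r)) : M = N := by
  rw [LinearIndependent.pair_iff] at hli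
  obtain ⟨t, ht⟩ := (hη ((M : Module.End K U) p - (N : Module.End K U) p)).mp
    (by rw [map_sub, h1, sub_self])
  obtain ⟨t', ht'⟩ := (hη ((M : Module.End K U) r - (N : Module.End K U) r)).mp
    (by rw [map_sub, h2, sub_self])
  have hp : p ≠ 0 := by
    intro h
    have := (hli 1 0 (by rw [h]; simp)).1
    exact one_ne_zero this
  by_cases htt : t = 0
  · rw [htt, zero_smul] at ht
    exact C2_ext hS hp (sub_eq_zero.mp ht)
  · have hx : t' • p - t • r ≠ 0 := by
      intro h
      have h3 : t' • p + (-t) • r = 0 := by rw [neg_smul]; rw [sub_eq_add_neg] at h; exact h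
      exact htt (neg_eq_zero.mp (hli _ _ h3).2)
    apply C2_ext hS hx
    rw [map_sub, map_sub, map_smul, map_smul, map_smul, map_smul]
    have e1 : (M : Module.End K U) p = (N : Module.End K U) p + t • δ := by
      rw [← ht]; abel
    have e2 : (M : Module.End K U) r = (N : Module.End K U) r + t' • δ := by
      rw [← ht']; abel
    rw [e1, e2, smul_add, smul_add, smul_smul, smul_smul, mul_comm t t']
    abel

private lemma C2_surj {K U : Type} [Field K] [Finite K] [AddCommGroup U] [Module K U]
    {S : Set (Module.End K U)} (hfin : Module.finrank K U = 2)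
    (hS : SpreadSet K U S) (p r δ : U)
    (hli : LinearIndependent K ![p, r])
    (η : U →ₗ[K] K) (hη : ∀ x : U, η x = 0 ↔ ∃ t : K, x = t • δ) (a b : K) :
    ∃ M : S, η ((M : Module.End K U) p) = a ∧ η ((M : Module.End K U) r) = b := by
  classical
  have hp : p ≠ 0 := by
    intro h
    rw [LinearIndependent.pair_iff] at hli
    have := (hli 1 0 (by rw [h]; simp)).1
    exact one_ne_zero this
  have : Module.Finite K U := Module.finite_of_finrank_pos (by rw [hfin]; norm_num)
  have : Finite U := Module.finite_of_finite K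
  let e : S → U := fun M => (M : Module.End K U) p
  have he : Function.Bijective e := by
    constructor
    · intro M N h
      exact C2_ext hS hp h
    · intro y
      obtain ⟨M, hM, hy⟩ := hS.ex p hp y
      exact ⟨⟨M, hM⟩, hy⟩
  have hcard : Nat.card S = Nat.card (K × K) := by
    rw [Nat.card_eq_of_bijective e he, Nat.card_prod,
      Module.natCard_eq_pow_finrank (K := K) (V := U), hfin, sq]
  have : Finite S := Finite.of_injective e he.1
  let f : S → K × K := fun M => (η ((M : Module.End K U) p), η ((M : Module.End K U) r))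
  have hf : Function.Injective f := by
    intro M N h
    exact C2_inj hS p r δ hli η hη M N (congrArg Prod.fst h) (congrArg Prod.snd h)
  have hf2 : Function.Bijective f :=
    (Nat.bijective_iff_injective_and_card f).mpr ⟨hf, hcard⟩
  obtain ⟨M, hM⟩ := hf2.2 (a, b)
  exact ⟨M, congrArg Prod.fst hM, congrArg Prod.snd hM⟩

theorem s_C2 : S_C2 := by
  intro hC1 K U _ _ _ _ S hfin h3 hS hHex p r δ η hli hδ hη
  have hli' := hli
  rw [LinearIndependent.pair_iff] at hli'
  have hp : p ≠ 0 := by
    intro h
    have := (hli' 1 0 (by rw [h]; simp)).1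
    exact one_ne_zero this
  have hr : r ≠ 0 := by
    intro h
    have := (hli' 0 1 (by rw [h]; simp)).2
    exact one_ne_zero this
  have hηδ : η δ = 0 := (hη δ).mpr ⟨1, (one_smul K δ).symm⟩
  set a : K → Equiv.Perm S := C2_perm hS p hp δ with ha
  set b : K → Equiv.Perm S := C2_perm hS r hr δ with hb
  have a_add : ∀ k k' : K, a (k + k') = a k * a k' := C2_perm_add hS p hp δ
  have b_add : ∀ k k' : K, b (k + k') = b k * b k' := C2_perm_add hS r hr δ
  have a_zero : a 0 = 1 := C2_perm_zero hS p hp δ
  have b_zero : b 0 = 1 := C2_perm_zero hS r hr δ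
  have a_neg : ∀ k, a (-k) = (a k)⁻¹ := C2_perm_neg hS p hp δ
  have b_neg : ∀ k, b (-k) = (b k)⁻¹ := C2_perm_neg hS r hr δ
  have a_spec : ∀ (k : K) (M : S), (a k M : Module.End K U) p = (M : Module.End K U) p + k • δ :=
    fun k M => C2_perm_spec hS p hp δ k M
  have b_spec : ∀ (k : K) (M : S), (b k M : Module.End K U) r = (M : Module.End K U) r + k • δ :=
    fun k M => C2_perm_spec hS r hr δ k M
  -- the closing of the hexagon
  have hex : ∀ (k l : K), k ≠ 0 → l ≠ 0 → ∀ P : S,
      b (-l) (a k (b (-l) (a k (b (-l) (a k P))))) = P ∧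
      (η ((b (-l) (a k P) : Module.End K U) p) -
          η ((a k (b (-l) (a k (b (-l) (a k P)))) : Module.End K U) p)) *
        (η ((b (-l) (a k (b (-l) (a k P))) : Module.End K U) r) -
          η ((a k P : Module.End K U) r)) =
      (η ((a k (b (-l) (a k (b (-l) (a k P)))) : Module.End K U) p) -
          η ((P : Module.End K U) p)) *
        (η ((a k P : Module.End K U) r) - η ((P : Module.End K U) r)) := by
    intro k l hk hl P
    have hbl : ∀ M : S, (M : Module.End K U) r = (b (-l) M : Module.End K U) r + l • δ := by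
      intro M
      rw [b_spec, neg_smul]; abel
    obtain ⟨h1, h2⟩ := hC1 K U S hfin hHex p r δ η k l hli hδ hηδ hk hl
      P P.2 (b (-l) (a k P)) (Subtype.mem _) (b (-l) (a k (b (-l) (a k P)))) (Subtype.mem _)
      (a k P) (Subtype.mem _) (a k (b (-l) (a k P))) (Subtype.mem _)
      (a k (b (-l) (a k (b (-l) (a k P))))) (Subtype.mem _)
      (a_spec k P) (hbl _) (a_spec k _) (hbl _) (a_spec k _)
    refine ⟨?_, h2⟩
    apply C2_ext hS hr
    rw [b_spec, h1, neg_smul]
    abel
  have hcube : ∀ k l : K, (b l * a k) ^ 3 = 1 := by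
    intro k l
    have triple : ∀ m : K, m + (m + m) = 0 := by
      intro m
      linear_combination m * h3
    by_cases hk : k = 0
    · rw [hk, a_zero, mul_one]
      simp only [pow_succ, pow_zero, one_mul]
      rw [← b_add, ← b_add, add_assoc, triple, b_zero]
    by_cases hl : l = 0
    · rw [hl, b_zero, one_mul]
      simp only [pow_succ, pow_zero, one_mul]
      rw [← a_add, ← a_add, add_assoc, triple, a_zero]
    · ext1 P
      have := (hex k (-l) hk (neg_ne_zero.mpr hl) P).1
      rw [neg_neg] at this
      simpa [pow_succ] using this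
  refine ⟨{
    u := fun M => η ((M : Module.End K U) p)
    v := fun M => η ((M : Module.End K U) r)
    a := a
    b := b
    inj := fun M N h1 h2 => C2_inj hS p r δ hli η hη M N h1 h2
    surj := C2_surj hfin hS p r δ hli η hη
    a_add := a_add
    b_add := b_add
    a_u := fun k P => by
      show η _ = η _
      rw [a_spec, map_add, map_smul, hηδ, smul_zero, add_zero]
    b_v := fun k P => by
      show η _ = η _
      rw [b_spec, map_add, map_smul, hηδ, smul_zero, add_zero]
    a_free := fun k P h => by
      have h1 := a_spec k P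
      rw [h] at h1
      have h2 : k • δ = 0 := by simpa using h1
      exact (smul_eq_zero.mp h2).resolve_right hδ
    b_free := fun k P h => by
      have h1 := b_spec k P
      rw [h] at h1
      have h2 : k • δ = 0 := by simpa using h1
      exact (smul_eq_zero.mp h2).resolve_right hδ
    a_tr := fun P Q h => C2_tr hS p hp δ η hη P Q h
    b_tr := fun P Q h => C2_tr hS r hr δ η hη P Q h
    cube := hcube
    rat := ?_ }, fun M => rfl, fun M => rfl, a_spec, b_spec⟩
  intro k l hk hl P
  obtain ⟨h1, h2⟩ := hex k l hk hl P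
  -- y2 = b l P, x2 = a (-k) (b l P)
  have e1 : a k (b (-l) (a k (b (-l) (a k P)))) = b l P := by
    have h3 : b l (b (-l) (a k (b (-l) (a k (b (-l) (a k P)))))) = b l P := by rw [h1]
    have h4 : ∀ Q : S, b l (b (-l) Q) = Q := by
      intro Q
      rw [b_neg l]; simp
    rw [h4] at h3
    exact h3
  have e2 : b (-l) (a k (b (-l) (a k P))) = a (-k) (b l P) := by
    have h4 : ∀ Q : S, a (-k) (a k Q) = Q := by
      intro Q
      rw [a_neg k]; simp
    rw [← e1, h4]
  rw [e1, e2] at h2
  exact h2

end Pool.Agent.TP3
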