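import Pool.Agent.Lib.MP_a1e562_co.Stm

set_option autoImplicit false

namespace Pool.Agent.TP3

private lemma D1_alg {K : Type} [Field K] (h3 : (3 : K) = 0) (x y p x' y' p' M N : K)
    (hM : M ≠ 0) (hN : N ≠ 0) (hx : x' - x ≠ 0) (hy : y' - y ≠ 0) (hp : p' - p ≠ 0)
    (F0 : (y - x) * N = (x - p) * M)
    (F1 : (-y - y' - x') * N = (x' - p) * M)
    (F2 : (y + x + x') * N = (-x - x' - p') * M) :
    (y' - y)⁻¹ + (p' - p)⁻¹ + (x' - x)⁻¹ = 0 ∧
      (y' - y)⁻¹ * y + (p' - p)⁻¹ * p + (x' - x)⁻¹ * x = 0 := by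
  have hX : (x' - x) * (N + M) = -((p' - p) * M) := by
    linear_combination F2 - F0 + (-x * N - x * M) * h3
  have hY : (y' - y) * N = (p' - p) * M := by
    linear_combination F0 - F1 - hX - y * N * h3
  have e1 : (y' - y)⁻¹ = N / ((p' - p) * M) := by
    rw [← hY]; field_simp
  have hNM : N + M ≠ 0 := by
    intro h
    rw [h, mul_zero] at hX
    exact mul_ne_zero hp hM (neg_eq_zero.mp hX.symm)
  have e2 : (x' - x)⁻¹ = -(N + M) / ((p' - p) * M) := by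
    have : (p' - p) * M = -((x' - x) * (N + M)) := by rw [hX, neg_neg]
    rw [this]; field_simp
  have e3 : (p' - p)⁻¹ = M / ((p' - p) * M) := by field_simp
  rw [e1, e2, e3]
  constructor
  · rw [← add_div, ← add_div]
    have : N + M + -(N + M) = 0 := by ring
    rw [this, zero_div]
  · have : N / ((p' - p) * M) * y + M / ((p' - p) * M) * p + -(N + M) / ((p' - p) * M) * x =
        ((y - x) * N - (x - p) * M) / ((p' - p) * M) := by
      field_simp; ring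
    rw [this, F0, sub_self, zero_div]

theorem s_D1 : S_D1 := by
  intro K S _ G k0 l0 hk0 hl0 hc l P hl hl1 hl2
  have h3 := G.three
  have hAP := G.T0b k0 l0 hk0 hl0 hc
  have hlp : l + l0 ≠ 0 := fun h => hl2 (by linear_combination h)
  have hcen := G.c_Cen k0 l
  have hcen' := G.Cen_inv hcen
  have hc1 : G.c k0 (l + l0) = G.c k0 l := by rw [G.c_add_right, hc, mul_one]
  -- the three relations
  have F0 := G.rat' k0 l hk0 hl P
  have F1 := G.rat' k0 (l + l0) hk0 hlp P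
  have F2 := G.rat' k0 (l + l0) hk0 hlp (G.b l0 P)
  rw [hc1] at F1 F2
  have t1 : (G.c k0 l)⁻¹ (G.b (-(l + l0)) P) = G.b (-l0) ((G.c k0 l)⁻¹ (G.b (-l) P)) := by
    rw [show -(l + l0) = -l0 + -l by ring, G.b_add, Equiv.Perm.mul_apply, G.Cen_b hcen']
  have t2 : G.b (l + l0) P = G.b l0 (G.b l P) := by
    rw [add_comm, G.b_add, Equiv.Perm.mul_apply]
  have t3 : G.b (-(l + l0)) (G.b l0 P) = G.b (-l) P := by
    rw [← Equiv.Perm.mul_apply, ← G.b_add]
    congr 2; ring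
  have t4 : G.b (l + l0) (G.b l0 P) = G.b (-l0) (G.b l P) := by
    rw [← Equiv.Perm.mul_apply, ← G.b_add, ← Equiv.Perm.mul_apply, ← G.b_add]
    congr 2
    linear_combination l0 * h3
  have t5 : G.v (G.a k0 (G.b l0 P)) = G.v (G.a k0 P) := by
    rw [G.ab_apply, hc, inv_one, Equiv.Perm.one_apply, G.b_v]
  have t6 : G.v (G.c k0 l (G.a (-k0) (G.b l0 P))) = G.v (G.c k0 l (G.a (-k0) P)) := by
    rw [G.ab_apply, G.c_neg_left, hc, inv_one, inv_one, Equiv.Perm.one_apply, G.Cen_b hcen,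
      G.b_v]
  rw [t1, t2] at F1
  rw [t3, t4, t5, t6, G.b_v] at F2
  have hM : G.v (G.a k0 P) - G.v P ≠ 0 := fun h => hk0 (G.v_a_inj (sub_eq_zero.mp h))
  have hN : G.v (G.c k0 l (G.a (-k0) P)) - G.v (G.a k0 P) ≠ 0 := by
    intro h
    rw [h, mul_zero] at F0
    rcases mul_eq_zero.mp F0.symm with h | h
    · exact hl (G.u_b_inj (sub_eq_zero.mp h))
    · exact hM h
  have hne : ∀ Q : S, G.u (G.b l0 Q) - G.u Q ≠ 0 := fun Q h =>
    hl0 (G.u_b_inj (sub_eq_zero.mp h))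
  have aY := hAP ((G.c k0 l)⁻¹ (G.b (-l) P))
  have aX := hAP (G.b l P)
  refine D1_alg h3 (G.u (G.b l P)) (G.u ((G.c k0 l)⁻¹ (G.b (-l) P))) (G.u P)
    (G.u (G.b l0 (G.b l P))) (G.u (G.b l0 ((G.c k0 l)⁻¹ (G.b (-l) P)))) (G.u (G.b l0 P))
    (G.v (G.a k0 P) - G.v P) (G.v (G.c k0 l (G.a (-k0) P)) - G.v (G.a k0 P))
    hM hN (hne _) (hne _) (hne _) F0 ?_ ?_
  · linear_combination F1 - (G.v (G.c k0 l (G.a (-k0) P)) - G.v (G.a k0 P)) * aY
  · linear_combination F2 + (G.v (G.c k0 l (G.a (-k0) P)) - G.v (G.a k0 P)) * aX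
      + (G.v (G.a k0 P) - G.v P) * aX

end Pool.Agent.TP3
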