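import Pool.Agent.Lib.MP_a1e562_co.Stm

set_option autoImplicit false

namespace Pool.Agent.TP3

private theorem D2_bb {K S : Type} [Field K] (G : Grid K S) (l : K) (P : S) :
    G.b (-l) (G.b l P) = P := by
  rw [G.b_neg]; simp

private theorem D2_bb' {K S : Type} [Field K] (G : Grid K S) (l : K) (P : S) :
    G.b l (G.b (-l) P) = P := by
  rw [G.b_neg]; simp

theorem s_D2 : S_D2 := by
  intro hD1 K S _ G k0 l0 hk0 hl0 hc
  have h3 := G.three
  have hAP := G.T0b k0 l0 hk0 hl0 hc
  set E : S → K := fun Q => (G.u (G.b l0 Q) - G.u Q)⁻¹ with hE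
  have hEne : ∀ Q, E Q ≠ 0 := by
    intro Q
    refine inv_ne_zero (sub_ne_zero.mpr (fun h => hl0 (G.u_b_inj h)))
  have hEb : ∀ Q, E (G.b l0 Q) = E Q := by
    intro Q
    have h := hAP (G.b l0 Q)
    rw [D2_bb] at h
    simp only [hE]
    congr 1
    linear_combination h - G.u (G.b l0 Q) * h3
  have hEb' : ∀ Q, E (G.b (-l0) Q) = E Q := by
    intro Q
    have h := hEb (G.b (-l0) Q)
    rw [D2_bb'] at h
    exact h.symm
  have hc' : G.c (-k0) l0 = 1 := by rw [G.c_neg_left, hc, inv_one]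
  have hcm : G.c k0 (-l0) = 1 := by rw [G.c_neg_right, hc, inv_one]
  -- generic case
  have hgen : ∀ (l : K) (P : S), l ≠ 0 → l ≠ l0 → l ≠ -l0 →
      E ((G.c k0 l)⁻¹ (G.b (-l) P)) + E P + E (G.b l P) = 0 ∧
      E ((G.c k0 l)⁻¹ (G.b (-l) P)) * G.u ((G.c k0 l)⁻¹ (G.b (-l) P)) + E P * G.u P
        + E (G.b l P) * G.u (G.b l P) = 0 := by
    intro l P e1 e2 e3
    exact hD1 K S G k0 l0 hk0 hl0 hc l P e1 e2 e3
  have hgen' : ∀ (l : K) (P : S), l ≠ 0 → l ≠ l0 → l ≠ -l0 →
      E ((G.c k0 l) (G.b (-l) P)) + E P + E (G.b l P) = 0 ∧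
      E ((G.c k0 l) (G.b (-l) P)) * G.u ((G.c k0 l) (G.b (-l) P)) + E P * G.u P
        + E (G.b l P) * G.u (G.b l P) = 0 := by
    intro l P e1 e2 e3
    have h := hD1 K S G (-k0) l0 (neg_ne_zero.mpr hk0) hl0 hc' l P e1 e2 e3
    rw [G.c_neg_left, inv_inv] at h
    exact h
  have hu : ∀ (l : K) (P : S), G.u (G.c k0 l P) = G.u P := by
    intro l P
    by_cases e1 : l = 0
    · subst e1
      rw [G.c_zero_right]; rfl
    by_cases e2 : l = l0
    · subst e2
      rw [hc]; rfl
    by_cases e3 : l = -l0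
    · subst e3
      rw [hcm]; rfl
    have hQ : ∀ Q : S, G.u ((G.c k0 l)⁻¹ Q) = G.u (G.c k0 l Q) := by
      intro Q
      have g1 := hgen l (G.b l Q) e1 e2 e3
      have g2 := hgen' l (G.b l Q) e1 e2 e3
      rw [D2_bb] at g1 g2
      have g3 : E ((G.c k0 l)⁻¹ Q) = E (G.c k0 l Q) := by
        linear_combination g1.1 - g2.1
      have g4 : E (G.c k0 l Q) * (G.u ((G.c k0 l)⁻¹ Q) - G.u (G.c k0 l Q)) = 0 := by
        have g5 := g1.2
        rw [g3] at g5
        linear_combination g5 - g2.2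
      exact sub_eq_zero.mp ((mul_eq_zero.mp g4).resolve_left (hEne _))
    have h1 := hQ (G.c k0 l P)
    have h2 : (G.c k0 l)⁻¹ (G.c k0 l P) = P := by simp
    have h4 : G.c k0 l (G.c k0 l P) = (G.c k0 l)⁻¹ P := by
      have h5 := congrArg (fun f : Equiv.Perm S => (G.c k0 l)⁻¹ (f P)) (G.c_cube k0 l)
      simp only [Equiv.Perm.mul_apply, Equiv.Perm.coe_one, id_eq] at h5
      rw [← h5]
      simp
    rw [h2, h4] at h1
    rw [← hQ P, ← h1]
  refine ⟨hu, E, hEne, ?_, ?_⟩
  all_goals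
    intro l P
    by_cases e1 : l = 0
    · subst e1
      have h5 : G.b (0 : K) P = P := by rw [G.b_zero]; rfl
      have h6 : G.b (-(0 : K)) P = P := by rw [neg_zero, G.b_zero]; rfl
      rw [h5, h6]
      first
        | linear_combination E P * h3
        | linear_combination E P * G.u P * h3
    by_cases e2 : l = l0
    · subst e2
      rw [hEb, hEb']
      first
        | linear_combination E P * h3
        | linear_combination E P * hAP P
    by_cases e3 : l = -l0
    · subst e3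
      rw [neg_neg, hEb, hEb']
      first
        | linear_combination E P * h3
        | linear_combination E P * hAP P
    have hui : ∀ Q : S, G.u ((G.c k0 l)⁻¹ Q) = G.u Q := by
      intro Q
      have h1 := hu l ((G.c k0 l)⁻¹ Q)
      have h2 : G.c k0 l ((G.c k0 l)⁻¹ Q) = Q := by simp
      rw [h2] at h1
      exact h1.symm
    have hEi : ∀ Q : S, E ((G.c k0 l)⁻¹ Q) = E Q := by
      intro Q
      simp only [hE]
      rw [← G.Cen_b (G.Cen_inv (G.c_Cen k0 l)), hui, hui]
    have g := hgen l P e1 e2 e3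
    rw [hEi, hui] at g
    first
      | linear_combination g.1
      | linear_combination g.2

end Pool.Agent.TP3
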