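import Pool.Agent.Lib.MP_a1e562_co.Stm

set_option autoImplicit false

namespace Pool.Agent.TP3

theorem s_D3 : S_D3 := by
  intro K S _ G k0 l0 l P hk0 hl0 hc hu hAP
  by_cases hl : l = 0
  · subst hl
    exact G.c_zero_right k0
  have h3 := G.three
  have hinv : ∀ Q : S, G.u ((G.c k0 l)⁻¹ Q) = G.u Q := by
    intro Q
    have h := hu l ((G.c k0 l)⁻¹ Q)
    simpa using h.symm
  have hr := G.rat' k0 l hk0 hl P
  rw [hinv] at hr
  have hne : G.u (G.b l P) - G.u P ≠ 0 := fun h => hl (G.u_b_inj (sub_eq_zero.mp h))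
  have hT := G.T0a k0 l0 hk0 hl0 hc P
  have hmul : (G.u (G.b l P) - G.u P) *
      (G.v (G.c k0 l (G.a (-k0) P)) - G.v (G.a (-k0) P)) = 0 := by
    linear_combination hr - (G.v (G.c k0 l (G.a (-k0) P)) - G.v (G.a k0 P)) * hAP
      + (G.v (G.c k0 l (G.a (-k0) P)) - G.v (G.a k0 P)) * G.u (G.b l P) * h3
      - (G.u (G.b l P) - G.u P) * hT + (G.u (G.b l P) - G.u P) * G.v (G.a k0 P) * h3
  have hv : G.v (G.c k0 l (G.a (-k0) P)) = G.v (G.a (-k0) P) :=
    sub_eq_zero.mp ((mul_eq_zero.mp hmul).resolve_left hne)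
  exact G.Cen_semireg (G.c_Cen k0 l) (G.a (-k0) P) (G.inj _ _ (hu l _) hv)

end Pool.Agent.TP3
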