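import Pool.Agent.Lib.MP_a1e562_co.Stm

/-!
# MP_a1e562_co, piece D4: normal form of `x ↦ u (b x P)`
-/

set_option autoImplicit false

namespace Pool.Agent.TP3

private theorem D4_jensen {K : Type} [Field K] (h3 : (3 : K) = 0) (f : K → K)
    (h : ∀ x y, f x + f (x + y) + f (x - y) = 0) (x y : K) :
    f (x + y) = f x + f y - f 0 := by
  have h1 := h x y
  have h2 := h y x
  have h4 := h 0 (x - y)
  rw [add_comm y x] at h2
  rw [zero_add, zero_sub, neg_sub] at h4
  linear_combination f (x + y) * h3 - h1 - h2 + h4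

theorem s_D4 : S_D4 := by
  intro K S _ G E hE h1 h2 P
  have three := G.three
  have two : (2 : K) ≠ 0 := by
    intro h
    have : (1 : K) = 0 := by linear_combination three - h
    exact one_ne_zero this
  have b0 : G.b 0 P = P := by rw [G.b_zero]; rfl
  have badd : ∀ x y : K, G.b (x + y) P = G.b y (G.b x P) := by
    intro x y
    rw [add_comm, G.b_add]
    rfl
  have bsub : ∀ x y : K, G.b (x - y) P = G.b (-y) (G.b x P) := by
    intro x y
    rw [sub_eq_add_neg, badd]
  have f1 := D4_jensen three (fun x => E (G.b x P)) (fun x y => by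
    have := h1 y (G.b x P)
    rw [← badd, ← bsub] at this
    exact this)
  have f2 := D4_jensen three (fun x => E (G.b x P) * G.u (G.b x P)) (fun x y => by
    have := h2 y (G.b x P)
    rw [← badd, ← bsub] at this
    exact this)
  simp only [b0] at f1 f2
  have hEP := hE P
  have hn0 : ∀ x, (E (G.b x P) * G.u (G.b x P) - G.u P * E (G.b x P)) / E P = 0 → x = 0 := by
    intro x hx
    rw [div_eq_zero_iff] at hx
    have hx' := hx.resolve_right hEP
    have : E (G.b x P) * (G.u (G.b x P) - G.u P) = 0 := by linear_combination hx'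
    have h5 := (mul_eq_zero.1 this).resolve_left (hE _)
    exact G.u_b_inj (sub_eq_zero.1 h5)
  have hu : ∀ x, G.u (G.b x P) - G.u P =
      ((E (G.b x P) * G.u (G.b x P) - G.u P * E (G.b x P)) / E P) /
        (1 + (E (G.b x P) / E P - 1)) := by
    intro x
    have h5 := hE (G.b x P)
    have e1 : 1 + (E (G.b x P) / E P - 1) = E (G.b x P) / E P := by ring
    rw [e1]
    field_simp
  have hm1 : ∀ x, 1 + (E (G.b x P) / E P - 1) ≠ 0 := by
    intro x
    have e1 : 1 + (E (G.b x P) / E P - 1) = E (G.b x P) / E P := by ring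
    rw [e1]
    exact div_ne_zero (hE _) hEP
  have hnadd : ∀ x y, (E (G.b (x + y) P) * G.u (G.b (x + y) P) - G.u P * E (G.b (x + y) P)) / E P =
      (E (G.b x P) * G.u (G.b x P) - G.u P * E (G.b x P)) / E P +
      (E (G.b y P) * G.u (G.b y P) - G.u P * E (G.b y P)) / E P := by
    intro x y
    rw [← add_div]
    congr 1
    linear_combination f2 x y - G.u P * f1 x y
  have hmadd : ∀ x y, E (G.b (x + y) P) / E P - 1 =
      (E (G.b x P) / E P - 1) + (E (G.b y P) / E P - 1) := by
    intro x y
    have e2 : E P / E P = 1 := div_self hEP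
    rw [f1 x y, sub_div, add_div, e2]
    ring
  refine ⟨fun x => (E (G.b x P) * G.u (G.b x P) - G.u P * E (G.b x P)) / E P,
    fun x => E (G.b x P) / E P - 1, hnadd, hmadd, hm1, hn0, hu, ?_⟩
  intro x hx
  have nn : (E (G.b (-x) P) * G.u (G.b (-x) P) - G.u P * E (G.b (-x) P)) / E P =
      -((E (G.b x P) * G.u (G.b x P) - G.u P * E (G.b x P)) / E P) := by
    have h5 := hnadd x (-x)
    rw [add_neg_cancel, b0] at h5
    have h6 : (E P * G.u P - G.u P * E P) / E P = 0 := by
      rw [mul_comm, sub_self, zero_div]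
    rw [h6] at h5
    linear_combination -h5
  have mn : E (G.b (-x) P) / E P - 1 = -(E (G.b x P) / E P - 1) := by
    have h5 := hmadd x (-x)
    rw [add_neg_cancel, b0, div_self hEP] at h5
    linear_combination -h5
  have hA := hu x
  have hA' := hu (-x)
  have hd' := hm1 (-x)
  have hd := hm1 x
  rw [nn, mn] at hA'
  rw [mn] at hd'
  set n := (E (G.b x P) * G.u (G.b x P) - G.u P * E (G.b x P)) / E P with hn
  set m := E (G.b x P) / E P - 1 with hm
  change m = 0
  have hs : n / (1 + m) + -n / (1 + -m) = 0 := by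
    rw [← hA, ← hA']
    linear_combination hx - G.u P * three
  have hs2 : n * (2 * m) = 0 := by
    field_simp at hs
    linear_combination -hs
  rcases mul_eq_zero.1 hs2 with h5 | h5
  · have h6 := hn0 x h5
    rw [hm, h6, b0, div_self hEP, sub_self]
  · exact (mul_eq_zero.1 h5).resolve_left two

end Pool.Agent.TP3
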