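import Pool.Agent.Lib.MP_a1e562_co.Stm

/-! # [TP E1] some commutator has first coordinate zero -/

set_option autoImplicit false

namespace Pool.Agent.TP3

theorem s_E1 : S_E1 := by
  intro K S _ _ G P
  by_contra hcon
  push Not at hcon
  -- hcon : ∀ l κ lam, l ≠ 0 → G.c 1 l P = G.b lam (G.a κ P) → κ ≠ 0
  have hco : ∀ l : K, ∃ κ lam : K, G.c 1 l P = G.b lam (G.a κ P) := fun l => by
    obtain ⟨κ, lam, h⟩ := G.coords P (G.c 1 l P)
    exact ⟨κ, lam, h⟩
  choose κ lam hκ using hco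
  have hinj : Function.Injective κ := by
    intro l l' hll
    by_contra hne
    have hm : l' - l ≠ 0 := sub_ne_zero.mpr (Ne.symm hne)
    have h1 : G.c 1 l' P = G.c 1 l (G.b (lam l' - lam l) P) := by
      have hb : G.b (lam l') = G.b (lam l' - lam l) * G.b (lam l) := by
        rw [← G.b_add, sub_add_cancel]
      rw [hκ l', ← hll, hb, G.Cen_b (G.c_Cen 1 l), hκ l]
      rfl
    have h2 : G.c 1 l' P = G.c 1 l (G.c 1 (l' - l) P) := by
      have : G.c 1 l' = G.c 1 l * G.c 1 (l' - l) := by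
        rw [← G.c_add_right, add_sub_cancel]
      rw [this]; rfl
    rw [h2] at h1
    have h3 := (G.c 1 l).injective h1
    refine hcon (l' - l) 0 (lam l' - lam l) hm ?_ rfl
    rw [h3, G.a_zero]; rfl
  have hsurj : Function.Surjective κ := Finite.surjective_of_injective hinj
  obtain ⟨l, hl⟩ := hsurj 1
  have hw := hκ l
  rw [hl] at hw
  -- w P = b λ (a 1 P)
  have h1 : G.a 1 P = G.c 1 l (G.b (-lam l) P) := by
    have : G.b (-lam l) (G.c 1 l P) = G.a 1 P := by
      rw [hw]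
      have : G.b (-lam l) (G.b (lam l) (G.a 1 P)) = (G.b (-lam l) * G.b (lam l)) (G.a 1 P) := rfl
      rw [this, ← G.b_add, neg_add_cancel, G.b_zero]; rfl
    rw [← this, G.Cen_b (G.c_Cen 1 l)]
  have h2 : (G.c 1 l)⁻¹ (G.a 1 P) = G.b (-lam l) P := by
    rw [h1]; simp
  have h3 : G.a 1 (G.b l P) = G.b (-lam l) (G.b l P) := by
    rw [G.ab_apply, G.Cen_b (G.Cen_inv (G.c_Cen 1 l)), h2]
    exact congrArg (fun f : Equiv.Perm S => f P) (G.b_comm l (-lam l))
  have h4 : G.v (G.a 1 (G.b l P)) = G.v (G.b l P) := by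
    rw [h3, G.b_v]
  exact one_ne_zero (G.v_a_inj h4)

end Pool.Agent.TP3
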