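import Pool.Agent.Lib.MP_a1e562_co.Stm

set_option autoImplicit false

namespace Pool.Agent.TP3

private lemma E3_alg {K : Type} [Field K] (h3 : (3 : K) = 0) (x y z ρ : K)
    (h0 : ρ ≠ 0) (h1 : ρ ≠ -1)
    (h : x + ρ * (x - z) + ρ * (x + ρ * (x - z) - (z + ρ * (z - y))) = x + ρ * (x - y)) :
    z + x + y = 0 := by
  have h4 : ρ * ((1 + ρ) * (z + x + y)) = 0 := by
    linear_combination h + (ρ * z + ρ ^ 2 * z) * h3
  rcases mul_eq_zero.mp h4 with h5 | h5
  · exact absurd h5 h0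
  rcases mul_eq_zero.mp h5 with h6 | h6
  · exact absurd (by linear_combination h6) h1
  · exact h6

theorem s_E3 : S_E3 := by
  classical
  intro K S _ G hcol P
  have h3 := G.three
  have h2 : (2 : K) ≠ 0 := by
    intro h
    have : (1 : K) = 0 := by linear_combination h3 - h
    exact one_ne_zero this
  have hcol' : ∀ (k l : K) (Q : S), G.u ((G.c k l)⁻¹ Q) = G.u Q := by
    intro k l Q
    rw [← G.c_neg_left]
    exact hcol _ _ _
  -- A and B
  let A : K → K := fun l => G.u (G.b l P) - G.u P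
  let ρ : K → K := fun l => A l / (A (-l) - A l)
  have hA : ∀ l : K, ∀ Q : S, G.u Q = G.u P → G.u (G.b l Q) - G.u Q = A l := by
    intro l Q hQ
    obtain ⟨j, rfl⟩ := G.a_tr P Q hQ.symm
    rw [G.ba_apply, hcol, G.a_u, G.a_u]
  have hA0 : ∀ l : K, l ≠ 0 → A l ≠ 0 := fun l hl h => hl (G.u_b_inj (sub_eq_zero.mp h))
  have hAA : ∀ l : K, l ≠ 0 → A (-l) - A l ≠ 0 := by
    intro l hl h
    have h1 : G.u (G.b (-l) P) = G.u (G.b l P) := by
      have : A (-l) = A l := sub_eq_zero.mp h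
      simpa [A] using this
    have h4 := G.u_b_inj' h1
    have : 2 * l = 0 := by linear_combination (-1) * h4
    rcases mul_eq_zero.mp this with h | h
    · exact h2 h
    · exact hl h
  have hρ0 : ∀ l : K, l ≠ 0 → ρ l ≠ 0 := fun l hl => div_ne_zero (hA0 l hl) (hAA l hl)
  have hρ1 : ∀ l : K, l ≠ 0 → ρ l ≠ -1 := by
    intro l hl h
    have h1 : A l = -1 * (A (-l) - A l) := by
      rw [← h]
      simp only [ρ]
      rw [div_mul_cancel₀ _ (hAA l hl)]
    have h4 : A (-l) = 0 := by linear_combination h1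
    exact hA0 (-l) (neg_ne_zero.mpr hl) h4
  -- (0)
  have r0 : ∀ (k l : K) (Q : S), k ≠ 0 → l ≠ 0 → G.u Q = G.u P →
      G.v (G.c k l (G.a (-k) Q)) = G.v (G.a k Q) + ρ l * (G.v (G.a k Q) - G.v Q) := by
    intro k l Q hk hl hQ
    have h := G.rat' k l hk hl Q
    rw [hcol'] at h
    have e1 := hA l Q hQ
    have e2 := hA (-l) Q hQ
    have h4 : (A (-l) - A l) * (G.v (G.c k l (G.a (-k) Q)) - G.v (G.a k Q)) =
        A l * (G.v (G.a k Q) - G.v Q) := by
      rw [← e1, ← e2]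
      linear_combination h
    have h5 : G.v (G.c k l (G.a (-k) Q)) - G.v (G.a k Q) = ρ l * (G.v (G.a k Q) - G.v Q) := by
      simp only [ρ]
      rw [div_mul_eq_mul_div, eq_div_iff (hAA l hl)]
      linear_combination h4
    linear_combination h5
  have ha2 : ∀ (k : K) (Q : S), G.a k (G.a k Q) = G.a (-k) Q := by
    intro k Q
    rw [← Equiv.Perm.mul_apply, ← G.a_add]
    congr 2
    linear_combination k * h3
  have ha2' : ∀ (k : K) (Q : S), G.a (-k) (G.a (-k) Q) = G.a k Q := by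
    intro k Q
    have := ha2 (-k) Q
    rwa [neg_neg] at this
  have hinv1 : ∀ (k : K) (Q : S), G.a (-k) (G.a k Q) = Q := by
    intro k Q
    rw [G.a_neg]; simp
  have hinv2 : ∀ (k : K) (Q : S), G.a k (G.a (-k) Q) = Q := by
    intro k Q
    rw [G.a_neg]; simp
  -- (1)
  have r1 : ∀ (k l : K) (Q : S), k ≠ 0 → l ≠ 0 → G.u Q = G.u P →
      G.v (G.c k l Q) = G.v (G.a (-k) Q) + ρ l * (G.v (G.a (-k) Q) - G.v (G.a k Q)) := by
    intro k l Q hk hl hQ
    have h := r0 k l (G.a k Q) hk hl (by rw [G.a_u, hQ])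
    rwa [hinv1, ha2] at h
  -- (2)
  have r2 : ∀ (k l : K) (Q : S), k ≠ 0 → l ≠ 0 → G.u Q = G.u P →
      G.v ((G.c k l)⁻¹ Q) = G.v (G.a k Q) + ρ l * (G.v (G.a k Q) - G.v (G.a (-k) Q)) := by
    intro k l Q hk hl hQ
    have h := r1 (-k) l Q (neg_ne_zero.mpr hk) hl hQ
    rwa [G.c_neg_left, neg_neg] at h
  -- (3)
  have r3 : ∀ (k : K) (Q : S), k ≠ 0 → G.u Q = G.u P →
      G.v Q + G.v (G.a k Q) + G.v (G.a (-k) Q) = 0 := by
    intro k Q hk hQ
    have hcen := G.c_Cen k 1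
    have e1 := r1 k 1 (G.c k 1 Q) hk one_ne_zero (by rw [hcol, hQ])
    have e2 := r2 k 1 Q hk one_ne_zero hQ
    have hww : G.c k 1 (G.c k 1 Q) = (G.c k 1)⁻¹ Q := by
      have h := G.c_cube k 1
      have h' : G.c k 1 * G.c k 1 = (G.c k 1)⁻¹ := eq_inv_of_mul_eq_one_left h
      rw [← h']; rfl
    rw [hww, ← G.Cen_a hcen, ← G.Cen_a hcen] at e1
    have e3 := r1 k 1 (G.a (-k) Q) hk one_ne_zero (by rw [G.a_u, hQ])
    have e4 := r1 k 1 (G.a k Q) hk one_ne_zero (by rw [G.a_u, hQ])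
    rw [ha2', hinv2] at e3
    rw [hinv1, ha2] at e4
    rw [e3, e4, e2] at e1
    exact E3_alg h3 _ _ _ (ρ 1) (hρ0 1 one_ne_zero) (hρ1 1 one_ne_zero) e1.symm
  refine ⟨fun l => if l = 0 then 0 else 2 + ρ l, ?_, ?_, ?_⟩
  · intro l
    by_cases hl : l = 0
    · simp [hl]
    · simp only [hl, if_false]
      intro h
      exact hρ1 l hl (by linear_combination h)
  · intro k l Q hQ
    by_cases hk : k = 0
    · rw [hk, G.c_zero_left, G.a_zero]
      simp
    by_cases hl : l = 0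
    · simp [hl, G.c_zero_right]
    · simp only [hl, if_false]
      have e1 := r1 k l Q hk hl hQ
      have e3 := r3 k Q hk hQ
      have e4 : G.v (G.a (-k) Q) = -G.v Q - G.v (G.a k Q) := by linear_combination e3
      rw [e1, e4]
      linear_combination (-G.v (G.a k Q) - ρ l * G.v (G.a k Q)) * h3
  · intro k Q hQ
    by_cases hk : k = 0
    · rw [hk, neg_zero, G.a_zero]
      simp only [Equiv.Perm.one_apply]
      linear_combination G.v Q * h3
    · exact r3 k Q hk hQ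

end Pool.Agent.TP3
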