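import Pool.Agent.Lib.MP_a1e562_co.Stm

/-!
Piece E4: a trivial commutator when all commutators preserve the columns.
-/

set_option autoImplicit false

namespace Pool.Agent.TP3

theorem s_E4 : S_E4 := by
  intro hE3 K S _ _ G hu
  obtain ⟨P⟩ := G.nonempty
  obtain ⟨τ, hτ1, hτ, h3⟩ := hE3 K S G hu P
  have hx : G.v (G.a 1 P) - G.v P ≠ 0 := by
    intro h
    exact one_ne_zero (G.v_a_inj (sub_eq_zero.mp h))
  have hthree := G.three
  have hadd : ∀ l l' : K, τ (l' + l) = τ l' + τ l := by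
    intro l l'
    have e1 := hτ 1 l P rfl
    have e2 := hτ 1 l (G.a 1 P) (G.a_u 1 P)
    have e3 := hτ 1 l' (G.c 1 l P) (hu 1 l P)
    have e4 := hτ 1 (l' + l) P rfl
    have e5 := h3 1 P rfl
    have e6 : G.a 1 (G.a 1 P) = G.a (-1) P := by
      have h : G.a 1 * G.a 1 = G.a (-1) := by
        rw [← G.a_add]
        congr 1
        linear_combination hthree
      exact congrArg (fun f : Equiv.Perm S => f P) h
    have e7 : G.a 1 (G.c 1 l P) = G.c 1 l (G.a 1 P) := (G.Cen_a (G.c_Cen 1 l) 1 P).symm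
    have e8 : G.c 1 (l' + l) P = G.c 1 l' (G.c 1 l P) :=
      congrArg (fun f : Equiv.Perm S => f P) (G.c_add_right 1 l' l)
    rw [e6] at e2
    rw [e7] at e3
    rw [e8] at e4
    have e9 : (τ (l' + l) - (τ l' + τ l)) * (G.v (G.a 1 P) - G.v P) = 0 := by
      linear_combination e3 - e4 + e1 + τ l' * (e2 - e1) + τ l' * τ l * e5 -
        τ l' * τ l * G.v (G.a 1 P) * hthree
    exact sub_eq_zero.mp ((mul_eq_zero.mp e9).resolve_right hx)
  have hninj : ¬ Function.Injective τ := by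
    intro h
    obtain ⟨l, hl⟩ := (Finite.injective_iff_surjective.mp h) 1
    exact hτ1 l hl
  rw [Function.Injective] at hninj
  push Not at hninj
  obtain ⟨l1, l2, h12, hne⟩ := hninj
  have h0 : τ (l1 - l2) = 0 := by
    have h := hadd l2 (l1 - l2)
    rw [sub_add_cancel] at h
    linear_combination h12 - h
  refine ⟨1, l1 - l2, one_ne_zero, sub_ne_zero.mpr hne, ?_⟩
  refine G.Cen_semireg (G.c_Cen 1 (l1 - l2)) P (G.inj _ _ (hu _ _ _) ?_)
  have h := hτ 1 (l1 - l2) P rfl
  rw [h0, zero_mul] at h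
  exact sub_eq_zero.mp h

end Pool.Agent.TP3
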