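import Pool.Agent.Lib.MP_a1e562_co.Stm

/-! # Piece H1: AP classes of a grid and of the spread set -/

set_option autoImplicit false

namespace Pool.Agent.TP3

private lemma H1_aux (K U : Type) [Field K] [AddCommGroup U] [Module K U]
    (S : Set (Module.End K U)) (hU : Module.finrank K U = 2) (h3 : (3 : K) = 0)
    (hS : SpreadSet K U S) (p r δ : U) (η : U →ₗ[K] K) (hpr : LinearIndependent K ![p, r])
    (hη : ∀ x : U, η x = 0 ↔ ∃ t : K, x = t • δ) (G : Grid K S)
    (hv : ∀ M : S, G.v M = η ((M : Module.End K U) r))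
    (ha : ∀ (k : K) (M : S), (G.a k M : Module.End K U) p = (M : Module.End K U) p + k • δ) :
    (∀ k, G.APa k) ↔ APcls K U S δ p := by
  have hp : p ≠ 0 := by
    have h := hpr.ne_zero 0
    simpa using h
  have hηδ : ∀ k : K, η (k • δ) = 0 := fun k => (hη _).2 ⟨k, rfl⟩
  constructor
  · intro hAP k M hM N hN N' hN' hNp hN'p x
    have e1 : ((G.a k ⟨M, hM⟩ : S) : Module.End K U) = N :=
      hS.uq _ (G.a k ⟨M, hM⟩).2 _ hN p hp (by rw [ha, hNp])
    have e2 : ((G.a (-k) ⟨M, hM⟩ : S) : Module.End K U) = N' :=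
      hS.uq _ (G.a (-k) ⟨M, hM⟩).2 _ hN' p hp (by
        rw [ha, hN'p, neg_smul, ← sub_eq_add_neg])
    have hv0 := hAP k ⟨M, hM⟩
    rw [hv, hv, hv, e1, e2] at hv0
    have hspan : Submodule.span K (Set.range ![p, r]) = ⊤ :=
      hpr.span_eq_top_of_card_eq_finrank (by simp [hU])
    have hzero : η ∘ₗ (M + N + N') = 0 := by
      refine LinearMap.ext_on hspan ?_
      rintro _ ⟨i, rfl⟩
      fin_cases i
      · simp only [LinearMap.comp_apply, LinearMap.add_apply, LinearMap.zero_apply]
        change η (M p + N p + N' p) = 0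
        rw [hNp, hN'p]
        have : M p + (M p + k • δ) + (M p - k • δ) = (3 : K) • M p := by
          have : (3 : K) = 1 + 1 + 1 := by norm_num
          rw [this]
          simp only [add_smul, one_smul]
          abel
        rw [this, h3, zero_smul, map_zero]
      · simp only [LinearMap.comp_apply, LinearMap.add_apply, LinearMap.zero_apply]
        change η (M r + N r + N' r) = 0
        rw [map_add, map_add]
        exact hv0
    have h := congrArg (fun f : U →ₗ[K] K => f x) hzero
    exact (hη _).1 h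
  · intro hcl k M
    obtain ⟨t, ht⟩ := hcl k M M.2 (G.a k M) (G.a k M).2 (G.a (-k) M) (G.a (-k) M).2
      (ha k M) (by rw [ha, neg_smul, ← sub_eq_add_neg]) r
    rw [hv, hv, hv, ← map_add, ← map_add]
    have h := hηδ t
    rw [← ht] at h
    exact h

theorem s_H1 : S_H1 := by
  intro K U _ _ _ S hU h3 hS p r δ η hpr _ hη G hu hv ha hb
  refine ⟨H1_aux K U S hU h3 hS p r δ η hpr hη G hv ha, ?_⟩
  exact H1_aux K U S hU h3 hS r p δ η (LinearIndependent.pair_symm_iff.1 hpr) hη G.symm hu hb

end Pool.Agent.TP3
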