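import Pool.Agent.Lib.MP_a1e562_co.Stm

/-! # [TP H3] All commute -/

set_option autoImplicit false

namespace Pool.Agent.TP3

private lemma H3_exists {K U : Type} [Field K] [AddCommGroup U] [Module K U]
    (hf : Module.finrank K U = 2) {x : U} (hx : x ≠ 0) :
    ∃ y : U, LinearIndependent K ![x, y] := by
  have : FiniteDimensional K U := Module.finite_of_finrank_pos (by omega)
  have h1 : Submodule.span K {x} ≠ ⊤ := by
    intro h
    have h2 := finrank_span_singleton (K := K) hx
    rw [h, finrank_top] at h2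
    omega
  obtain ⟨y, -, hy⟩ := SetLike.exists_of_lt (lt_top_iff_ne_top.2 h1)
  refine ⟨y, (LinearIndependent.pair_iff' hx).2 ?_⟩
  intro a ha
  exact hy (Submodule.mem_span_singleton.2 ⟨a, ha⟩)

private lemma H3_coord {K U : Type} [Field K] [AddCommGroup U] [Module K U]
    (hf : Module.finrank K U = 2) {p r : U} (h : LinearIndependent K ![p, r]) (q : U) :
    ∃ α β : K, q = α • p + β • r := by
  have : FiniteDimensional K U := Module.finite_of_finrank_pos (by omega)
  let b := basisOfLinearIndependentOfCardEqFinrank h (by simp [hf])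
  have h1 := b.sum_repr q
  rw [Fin.sum_univ_two, coe_basisOfLinearIndependentOfCardEqFinrank] at h1
  exact ⟨b.repr q 0, b.repr q 1, h1.symm⟩

private lemma H3_func {K U : Type} [Field K] [AddCommGroup U] [Module K U]
    (hf : Module.finrank K U = 2) {δ : U} (hδ : δ ≠ 0) :
    ∃ η : U →ₗ[K] K, ∀ x : U, η x = 0 ↔ ∃ t : K, x = t • δ := by
  have : FiniteDimensional K U := Module.finite_of_finrank_pos (by omega)
  obtain ⟨e, he⟩ := H3_exists hf hδ
  let b := basisOfLinearIndependentOfCardEqFinrank he (by simp [hf])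
  have hb0 : b 0 = δ := by
    simp [b]
  have hb1 : b 1 = e := by
    simp [b]
  refine ⟨b.coord 1, fun x => ⟨fun hx => ?_, ?_⟩⟩
  · have h1 := b.sum_repr x
    rw [Fin.sum_univ_two, hb0, hb1] at h1
    rw [Module.Basis.coord_apply] at hx
    rw [hx, zero_smul, add_zero] at h1
    exact ⟨_, h1.symm⟩
  · rintro ⟨t, rfl⟩
    rw [map_smul, ← hb0, Module.Basis.coord_apply, Module.Basis.repr_self]
    simp

private lemma H3_smul {K U : Type} [Field K] [AddCommGroup U] [Module K U]
    {S : Set (Module.End K U)} {δ p : U} (h : APcls K U S δ p) {t : K} (ht : t ≠ 0) :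
    APcls K U S δ (t • p) := by
  intro k M hM N hN N' hN' h1 h2
  apply h (t⁻¹ * k) M hM N hN N' hN'
  · rw [map_smul, map_smul] at h1
    have h3 : t⁻¹ • (t • N p) = t⁻¹ • (t • M p + k • δ) := by rw [h1]
    rw [smul_add, smul_smul, smul_smul, smul_smul, inv_mul_cancel₀ ht, one_smul, one_smul] at h3
    exact h3
  · rw [map_smul, map_smul] at h2
    have h3 : t⁻¹ • (t • N' p) = t⁻¹ • (t • M p - k • δ) := by rw [h2]
    rw [smul_sub, smul_smul, smul_smul, smul_smul, inv_mul_cancel₀ ht, one_smul, one_smul] at h3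
    exact h3

theorem s_H3 : S_H3 := by
  intro h1 h2 hC GT1 GT2 GT3 K U _ _ _ _ S hf h3 hS hHex p r δ hpr hδ
  obtain ⟨η, hη⟩ := H3_func hf hδ
  have hηδ : η δ = 0 := (hη δ).2 ⟨1, by rw [one_smul]⟩
  have hne : ∀ {x y : U}, LinearIndependent K ![x, y] → x ≠ 0 ∧ y ≠ 0 := by
    intro x y h
    rw [LinearIndependent.pair_iff] at h
    constructor
    · rintro rfl
      exact one_ne_zero (h 1 0 (by simp)).1
    · rintro rfl
      exact one_ne_zero (h 0 1 (by simp)).2
  -- (1)
  have c1 : ∀ p r : U, LinearIndependent K ![p, r] → APcls K U S δ p ∨ APcls K U S δ r := by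
    intro p r hpr
    obtain ⟨G, g1, g2, g3, g4⟩ := hC K U S hf h3 hS hHex p r δ η hpr hδ hη
    obtain ⟨i1, i2⟩ := h1 K U S hf h3 hS p r δ η hpr hδ hη G g1 g2 g3 g4
    rcases GT1 K S G with h | h
    · exact Or.inr (i2.1 h)
    · exact Or.inl (i1.1 h)
  -- (3)
  have c3 : ∀ p r : U, LinearIndependent K ![p, r] → APcls K U S δ p → APcls K U S δ r →
      ∀ q : U, q ≠ 0 → APcls K U S δ q := by
    intro p r hpr hp hr q hq
    obtain ⟨α, β, hq2⟩ := H3_coord hf hpr q
    by_cases hβ : β = 0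
    · rw [hβ, zero_smul, add_zero] at hq2
      rw [hq2]
      refine H3_smul hp ?_
      rintro rfl
      exact hq (by rw [hq2, zero_smul])
    by_cases hα : α = 0
    · rw [hα, zero_smul, zero_add] at hq2
      rw [hq2]
      exact H3_smul hr hβ
    obtain ⟨G, g1, g2, g3, g4⟩ := hC K U S hf h3 hS hHex p r δ η hpr hδ hη
    obtain ⟨i1, i2⟩ := h1 K U S hf h3 hS p r δ η hpr hδ hη G g1 g2 g3 g4
    have hc := GT2 K S G (i2.2 hr) (i1.2 hp)
    obtain ⟨L, hL⟩ := h2 K S G hc (i1.2 hp)
    have hpq : LinearIndependent K ![p, q] := by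
      rw [LinearIndependent.pair_iff] at hpr ⊢
      intro s t hst
      have h4 : (s + t * α) • p + (t * β) • r = 0 := by
        rw [← hst, hq2]
        module
      obtain ⟨h5, h6⟩ := hpr _ _ h4
      have h7 := (mul_eq_zero.1 h6).resolve_right hβ
      rw [h7, zero_mul, add_zero] at h5
      exact ⟨h5, h7⟩
    obtain ⟨G', g1', g2', g3', g4'⟩ := hC K U S hf h3 hS hHex p q δ η hpq hδ hη
    obtain ⟨i1', i2'⟩ := h1 K U S hf h3 hS p q δ η hpq hδ hη G' g1' g2' g3' g4'
    have haa : ∀ (k : K) (M : S), G'.a k M = G.a k M := by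
      intro k M
      apply Subtype.ext
      exact hS.uq _ (G'.a k M).2 _ (G.a k M).2 p (hne hpr).1 (by rw [g3', g3])
    have hv : ∀ (k : K) (M : S), G'.v (G'.a k M) = G'.v M + β * L k := by
      intro k M
      have e1 : η (((G.a k) M : Module.End K U) p) = η ((M : Module.End K U) p) := by
        rw [g3, map_add, map_smul, hηδ, smul_zero, add_zero]
      have e2 : η (((G.a k) M : Module.End K U) r) = η ((M : Module.End K U) r) + L k := by
        rw [← g2, hL, g2]
      rw [haa, g2', g2', hq2]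
      simp only [map_add, map_smul, smul_eq_mul, e1, e2]
      ring
    exact i2'.1 (GT3 K S G' (by
      intro k P Q hPQ
      rw [hv, hv, hPQ]))
  -- (4)
  have c4 : ∀ q : U, q ≠ 0 → APcls K U S δ q := by
    intro q hq
    by_contra hcon
    obtain ⟨p, hp⟩ := H3_exists hf hq
    have hp' := LinearIndependent.pair_iff.1 hp
    have e1 : LinearIndependent K ![p, q] := by
      rw [LinearIndependent.pair_iff]
      intro s t hst
      obtain ⟨h4, h5⟩ := hp' t s (by rw [← hst, add_comm])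
      exact ⟨h5, h4⟩
    have e2 : LinearIndependent K ![p + q, q] := by
      rw [LinearIndependent.pair_iff]
      intro s t hst
      obtain ⟨h4, h5⟩ := hp' (s + t) s (by rw [← hst]; module)
      refine ⟨h5, ?_⟩
      rw [h5, zero_add] at h4
      exact h4
    have e3 : LinearIndependent K ![p, p + q] := by
      rw [LinearIndependent.pair_iff]
      intro s t hst
      obtain ⟨h4, h5⟩ := hp' t (s + t) (by rw [← hst]; module)
      refine ⟨?_, h4⟩
      rw [h4, add_zero] at h5
      exact h5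
    have a1 := (c1 p q e1).resolve_right hcon
    have a2 := (c1 (p + q) q e2).resolve_right hcon
    exact hcon (c3 p (p + q) e3 a1 a2 q hq)
  -- (5)
  intro M hM N hN N' hN' X hX hNp hN'r hXr
  obtain ⟨G, g1, g2, g3, g4⟩ := hC K U S hf h3 hS hHex p r δ η hpr hδ hη
  obtain ⟨i1, i2⟩ := h1 K U S hf h3 hS p r δ η hpr hδ hη G g1 g2 g3 g4
  have hc := GT2 K S G (i2.2 (c4 r (hne hpr).2)) (i1.2 (c4 p (hne hpr).1))
  have b1 : G.a 1 ⟨M, hM⟩ = ⟨N, hN⟩ := by
    apply Subtype.ext
    refine hS.uq _ (G.a 1 ⟨M, hM⟩).2 _ hN p (hne hpr).1 ?_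
    rw [g3, one_smul, hNp]
  have b2 : G.b 1 ⟨M, hM⟩ = ⟨N', hN'⟩ := by
    apply Subtype.ext
    refine hS.uq _ (G.b 1 ⟨M, hM⟩).2 _ hN' r (hne hpr).2 ?_
    rw [g4, one_smul, hN'r]
  have b3 : G.b 1 ⟨N, hN⟩ = ⟨X, hX⟩ := by
    apply Subtype.ext
    refine hS.uq _ (G.b 1 ⟨N, hN⟩).2 _ hX r (hne hpr).2 ?_
    rw [g4, one_smul, hXr]
  have b4 : G.a 1 ⟨N', hN'⟩ = ⟨X, hX⟩ := by
    rw [← b3, ← b2, ← b1, G.ba_apply, hc]
    rfl
  have b5 := g3 1 ⟨N', hN'⟩
  rw [b4, one_smul] at b5
  exact b5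

end Pool.Agent.TP3
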