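import Pool.Agent.Lib.MP_a1e562_co.Stm

/-! # [TP H4] Commuting implies additive -/

set_option autoImplicit false

namespace Pool.Agent.TP3

private lemma H4_ind {K U : Type} [Field K] [AddCommGroup U] [Module K U] {x y : U}
    (h : LinearIndependent K ![x, y]) (α β γ δ : K) (hd : α * δ - β * γ ≠ 0) :
    LinearIndependent K ![α • x + β • y, γ • x + δ • y] := by
  rw [LinearIndependent.pair_iff] at h ⊢
  intro s t hst
  have h1 : (s * α + t * γ) • x + (s * β + t * δ) • y = 0 := by
    rw [← hst]
    module
  obtain ⟨h2, h3⟩ := h _ _ h1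
  have h4 : s * (α * δ - β * γ) = 0 := by linear_combination δ * h2 - γ * h3
  have h5 : t * (α * δ - β * γ) = 0 := by linear_combination α * h3 - β * h2
  exact ⟨(mul_eq_zero.1 h4).resolve_right hd, (mul_eq_zero.1 h5).resolve_right hd⟩

private lemma H4_ext {K U : Type} [Field K] [AddCommGroup U] [Module K U]
    (hf : Module.finrank K U = 2) {p r : U} (h : LinearIndependent K ![p, r])
    {f g : Module.End K U} (hp : f p = g p) (hr : f r = g r) : f = g := by
  have : FiniteDimensional K U := Module.finite_of_finrank_pos (by omega)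
  let b := basisOfLinearIndependentOfCardEqFinrank h (by simp [hf])
  apply b.ext
  intro i
  rw [coe_basisOfLinearIndependentOfCardEqFinrank]
  fin_cases i
  · exact hp
  · exact hr

private lemma H4_exists {K U : Type} [Field K] [AddCommGroup U] [Module K U]
    (hf : Module.finrank K U = 2) {x : U} (hx : x ≠ 0) :
    ∃ y : U, LinearIndependent K ![x, y] := by
  have : FiniteDimensional K U := Module.finite_of_finrank_pos (by omega)
  have h1 : Submodule.span K {x} ≠ ⊤ := by
    intro h
    have h2 := finrank_span_singleton (K := K) hx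
    rw [h, finrank_top] at h2
    omega
  obtain ⟨y, -, hy⟩ := SetLike.exists_of_lt (lt_top_iff_ne_top.2 h1)
  refine ⟨y, (LinearIndependent.pair_iff' hx).2 ?_⟩
  intro a ha
  exact hy (Submodule.mem_span_singleton.2 ⟨a, ha⟩)

theorem s_H4 : S_H4 := by
  intro K U _ _ _ S hf h3 hS hcomm
  have hfd : FiniteDimensional K U := Module.finite_of_finrank_pos (by omega)
  have hinj : ∀ M ∈ S, M ≠ 0 → ∀ x : U, M x = 0 → x = 0 := by
    intro M hM hM0 x hx
    by_contra hx0
    exact hM0 (hS.uq M hM 0 hS.zero x hx0 (by rw [hx]; rfl))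
  have hsurj : ∀ M ∈ S, M ≠ 0 → ∀ y : U, ∃ x, M x = y := by
    intro M hM hM0 y
    have h1 : Function.Injective M := by
      intro x z hxz
      have h2 : M (x - z) = 0 := by rw [map_sub, hxz, sub_self]
      exact sub_eq_zero.1 (hinj M hM hM0 _ h2)
    exact (LinearMap.injective_iff_surjective.1 h1) y
  obtain ⟨p0, hp0⟩ : ∃ p : U, p ≠ 0 := by
    have : Nontrivial U := Module.nontrivial_of_finrank_pos (R := K) (by omega)
    exact exists_ne 0
  -- step 1
  have step1 : ∀ N1 ∈ S, ∀ N2 ∈ S, N1 ≠ 0 → N2 ≠ 0 → (∀ t : K, N2 ≠ t • N1) → N1 + N2 ∈ S := by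
    intro N1 hN1 N2 hN2 h10 h20 hprop
    have hkey : ∃ p r : U, N2 r = N1 p ∧ LinearIndependent K ![p, r] := by
      by_contra hcon
      push Not at hcon
      -- every vector is an eigenvector
      have hev : ∀ p : U, p ≠ 0 → ∃ t : K, N1 p = t • N2 p := by
        intro p hp
        obtain ⟨r, hr⟩ := hsurj N2 hN2 h20 (N1 p)
        have h1 := hcon p r hr
        rw [LinearIndependent.pair_iff' hp] at h1
        push Not at h1
        obtain ⟨t, ht⟩ := h1
        exact ⟨t, by rw [← hr, ← ht, map_smul]⟩
      obtain ⟨t, ht⟩ := hev p0 hp0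
      obtain ⟨q, hq⟩ := H4_exists hf hp0
      have hq0 : q ≠ 0 := by
        rintro rfl
        exact (LinearIndependent.pair_iff' hp0).1 hq 0 (by simp)
      obtain ⟨s, hs⟩ := hev q hq0
      have hpq0 : p0 + q ≠ 0 := by
        intro h
        refine (LinearIndependent.pair_iff' hp0).1 hq (-1) ?_
        rw [neg_one_smul]
        exact (eq_neg_of_add_eq_zero_right h).symm
      obtain ⟨u, hu⟩ := hev (p0 + q) hpq0
      have h2 : N2 ((t - u) • p0 + (s - u) • q) = 0 := by
        rw [map_add, map_smul, map_smul]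
        rw [map_add, ht, hs, map_add] at hu
        have h4 : (t - u) • N2 p0 + (s - u) • N2 q =
          (t • N2 p0 + s • N2 q) - u • (N2 p0 + N2 q) := by module
        rw [h4, hu, sub_self]
      have h4 := hinj N2 hN2 h20 _ h2
      obtain ⟨h5, h6⟩ := LinearIndependent.pair_iff.1 hq _ _ h4
      have h7 : s = t := by linear_combination h6 - h5
      have h8 : N1 = t • N2 := by
        apply H4_ext hf hq
        · rw [ht]; rfl
        · rw [hs, h7]; rfl
      have ht0 : t ≠ 0 := by
        rintro rfl
        exact h10 (by rw [h8, zero_smul])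
      exact hprop t⁻¹ (by rw [h8, smul_smul, inv_mul_cancel₀ ht0, one_smul])
    obtain ⟨p, r, hpr, hind⟩ := hkey
    have hp : p ≠ 0 := by
      rintro rfl
      have h1 := LinearIndependent.pair_iff.1 hind 1 0 (by simp)
      exact one_ne_zero h1.1
    have hδ : N1 p ≠ 0 := fun h => hp (hinj N1 hN1 h10 p h)
    have hr : r ≠ 0 := by
      rintro rfl
      exact hδ (by rw [← hpr, map_zero])
    obtain ⟨X, hX, hXr⟩ := hS.ex r hr (N1 r + N1 p)
    have h1 := hcomm p r (N1 p) hind hδ 0 hS.zero N1 hN1 N2 hN2 X hX (by simp) (by simp [hpr]) hXr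
    have h2 : N1 + N2 = X := by
      apply H4_ext hf hind
      · rw [h1, LinearMap.add_apply, add_comm]
      · rw [hXr, LinearMap.add_apply, hpr]
    rw [h2]
    exact hX
  have step1' : ∀ N1 ∈ S, ∀ N2 ∈ S, LinearIndependent K ![N1 p0, N2 p0] → N1 + N2 ∈ S := by
    intro N1 hN1 N2 hN2 hind
    rw [LinearIndependent.pair_iff] at hind
    apply step1 N1 hN1 N2 hN2
    · rintro rfl
      exact one_ne_zero (hind 1 0 (by simp)).1
    · rintro rfl
      exact one_ne_zero (hind 0 1 (by simp)).2
    · rintro t rfl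
      have := (hind (-t) 1 (by simp)).2
      exact one_ne_zero this
  have hL : ∀ M ∈ S, M ≠ 0 → ∃ L ∈ S, LinearIndependent K ![M p0, L p0] := by
    intro M hM hM0
    obtain ⟨y, hy⟩ := H4_exists hf (fun h => hp0 (hinj M hM hM0 p0 h))
    obtain ⟨L, hL, hLy⟩ := hS.ex p0 hp0 y
    exact ⟨L, hL, by rw [hLy]; exact hy⟩
  have three : ∀ x : U, x + x + x = 0 := by
    intro x
    have h1 : (3 : K) • x = 0 := by rw [h3, zero_smul]
    rw [← h1]
    module
  -- step 2
  have step2 : ∀ M ∈ S, -M ∈ S := by
    intro M hM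
    by_cases hM0 : M = 0
    · rw [hM0, neg_zero]
      exact hS.zero
    obtain ⟨L, hL1, hL2⟩ := hL M hM hM0
    have a1 : M + L ∈ S := step1' M hM L hL1 hL2
    have a2 : (M + L) + L ∈ S := by
      apply step1' _ a1 _ hL1
      have := H4_ind hL2 1 1 0 1 (by simp)
      simpa using this
    have a3 : (M + L) + L + M ∈ S := by
      apply step1' _ a2 _ hM
      have h4 : (-1 : K) ≠ 0 := by simp
      have := H4_ind hL2 1 (-1) 1 0 (by simp)
      have e : (M + L + L) p0 = (1 : K) • M p0 + (-1 : K) • L p0 := by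
        have := three (L p0)
        simp only [LinearMap.add_apply]
        rw [← sub_eq_zero]
        rw [← this]
        module
      rw [e]
      simpa using this
    have a4 : (M + L) + L + M + L ∈ S := by
      apply step1' _ a3 _ hL1
      have := H4_ind hL2 (-1) (-1) 0 1 (by simp)
      have e : (M + L + L + M) p0 = (-1 : K) • M p0 + (-1 : K) • L p0 := by
        have h5 := three (L p0)
        have h6 := three (M p0)
        simp only [LinearMap.add_apply]
        rw [← sub_eq_zero]
        calc _ = (M p0 + M p0 + M p0) + (L p0 + L p0 + L p0) := by module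
          _ = 0 := by rw [h5, h6, add_zero]
      rw [e]
      simpa using this
    have e : (M + L) + L + M + L = -M := by
      apply LinearMap.ext
      intro x
      have h5 := three (L x)
      have h6 := three (M x)
      simp only [LinearMap.add_apply, LinearMap.neg_apply]
      rw [← sub_eq_zero]
      calc _ = (M x + M x + M x) + (L x + L x + L x) := by module
        _ = 0 := by rw [h5, h6, add_zero]
    rw [← e]
    exact a4
  refine ⟨?_, step2⟩
  intro M hM N hN
  by_cases hM0 : M = 0
  · rw [hM0, zero_add]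
    exact hN
  by_cases hN0 : N = 0
  · rw [hN0, add_zero]
    exact hM
  by_cases hprop : ∀ t : K, N ≠ t • M
  · exact step1 M hM N hN hM0 hN0 hprop
  push Not at hprop
  obtain ⟨t, ht⟩ := hprop
  by_cases ht1 : t = -1
  · have : M + N = 0 := by rw [ht, ht1, neg_one_smul, add_neg_cancel]
    rw [this]
    exact hS.zero
  have ht0 : t ≠ 0 := by
    rintro rfl
    exact hN0 (by rw [ht, zero_smul])
  obtain ⟨L, hL1, hL2⟩ := hL M hM hM0
  have a1 : M + L ∈ S := step1' M hM L hL1 hL2
  have a2 : N + -L ∈ S := by
    apply step1' _ hN _ (step2 L hL1)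
    have := H4_ind hL2 t 0 0 (-1) (by simpa using ht0)
    have e1 : N p0 = t • M p0 + (0 : K) • L p0 := by rw [ht]; simp
    have e2 : (-L) p0 = (0 : K) • M p0 + (-1 : K) • L p0 := by simp
    rw [e1, e2]
    exact this
  have a3 : (M + L) + (N + -L) ∈ S := by
    apply step1' _ a1 _ a2
    have := H4_ind hL2 1 1 t (-1) (by
      intro h
      apply ht1
      linear_combination -h)
    have e1 : (M + L) p0 = (1 : K) • M p0 + (1 : K) • L p0 := by simp
    have e2 : (N + -L) p0 = t • M p0 + (-1 : K) • L p0 := by rw [ht]; simp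
    rw [e1, e2]
    exact this
  have e : (M + L) + (N + -L) = M + N := by abel
  rw [← e]
  exact a3

end Pool.Agent.TP3
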