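import Pool.Agent.Lib.MP_a1e562_co.Stm

/-! # Piece J1 -/

set_option autoImplicit false

namespace Pool.Agent.TP3

private lemma J1_c_apply {K S : Type} [Field K] (G : Grid K S) (k l : K) (Q : S) :
    G.c k l Q = G.b l (G.a k (G.b (-l) (G.a (-k) Q))) := by
  rw [G.b_neg, G.a_neg]
  rfl

private lemma J1_comm {K S : Type} [Field K] (G : Grid K S) {w : Equiv.Perm S} (h : G.Cen w)
    (k l : K) (P : S) : w (G.c k l P) = G.c k l (w P) := by
  rw [J1_c_apply, J1_c_apply, G.Cen_b h, G.Cen_a h, G.Cen_b h, G.Cen_a h]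

theorem s_J1 : S_J1 := by
  intro K S _ G w1 w2 h1 h2 hw1 hw2 hu hv k l κ lam P e
  obtain ⟨κ1, hκ1⟩ := G.a_tr P (w1 P) (hu P).symm
  obtain ⟨l2, hl2⟩ := G.b_tr P (w2 P) (hv P).symm
  have hc : G.Cen (G.c k l) := G.c_Cen k l
  refine ⟨⟨κ1, ?_, G.iso_a h1 hc P κ1 κ lam hκ1.symm e (J1_comm G h1 k l P)⟩, l2, ?_, ?_⟩
  · rintro rfl
    refine hw1 (G.Cen_semireg h1 P ?_)
    rw [← hκ1, G.a_zero]
    rfl
  · rintro rfl
    refine hw2 (G.Cen_semireg h2 P ?_)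
    rw [← hl2, G.b_zero]
    rfl
  · have e1 := J1_comm G h2 k l P
    rw [← hl2, G.Cen_b hc, e, G.Cen_b h2, G.Cen_a h2, ← hl2] at e1
    have e2 : G.b l2 (G.b lam (G.a κ P)) = G.b lam (G.b l2 (G.a κ P)) :=
      congrArg (fun f : Equiv.Perm S => f (G.a κ P)) (G.b_comm l2 lam)
    rw [e2] at e1
    have e3 := (G.b lam).injective e1
    rw [G.ab_apply] at e3
    exact inv_eq_one.mp (G.Cen_semireg (G.Cen_inv (G.c_Cen κ l2)) _ e3)

end Pool.Agent.TP3
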