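import Pool.Agent.Lib.MP_a1e562_co.Stm

set_option autoImplicit false

namespace Pool.Agent.TP3

theorem s_J2 : S_J2 := by
  intro K S _ G h1 hD hD' k l κ lam P hk hl hP
  have preU : ∀ (k l κ lam : K) (P : S), G.c k l P = G.b lam (G.a κ P) →
      ∀ (l' : K) (Q : S), G.u (G.c κ l' Q) = G.u Q := by
    intro k l κ lam P hP l' Q
    obtain ⟨-, l2, hl2, hc⟩ := h1 k l κ lam P hP
    by_cases hκ : κ = 0
    · rw [hκ, G.c_zero_left]; rfl
    · exact hD κ l2 hκ hl2 hc l' Q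
  have preV : ∀ (k l κ lam : K) (P : S), G.c k l P = G.b lam (G.a κ P) →
      ∀ (k' : K) (Q : S), G.v (G.c k' lam Q) = G.v Q := by
    intro k l κ lam P hP k' Q
    obtain ⟨⟨κ1, hκ1, hc⟩, -⟩ := h1 k l κ lam P hP
    by_cases hlam : lam = 0
    · rw [hlam, G.c_zero_right]; rfl
    · exact hD' κ1 lam hκ1 hlam hc k' Q
  have hA := preU k l κ lam P hP
  have hB := preV k l κ lam P hP
  have hcen := G.c_Cen k l
  have hcen' := G.Cen_inv hcen
  have hinv : (G.c k l)⁻¹ P = G.a (-κ) (G.b (-lam) P) := by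
    have h2 : P = G.b lam (G.a κ ((G.c k l)⁻¹ P)) := by
      have h3 : (G.c k l)⁻¹ (G.c k l P) = (G.c k l)⁻¹ (G.b lam (G.a κ P)) := by rw [hP]
      rw [G.Cen_b hcen', G.Cen_a hcen'] at h3
      simpa using h3
    have h3 : G.a (-κ) (G.b (-lam) P) = G.a (-κ) (G.b (-lam) (G.b lam (G.a κ ((G.c k l)⁻¹ P)))) :=
      congrArg (fun Q => G.a (-κ) (G.b (-lam) Q)) h2
    rw [h3, G.b_neg, G.a_neg]
    simp
  have hA' : ∀ (l' : K) (Q : S), G.u (G.c (-κ) l' Q) = G.u Q := by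
    intro l' Q
    have := hA (-l') Q
    rwa [G.c_neg_right, ← G.c_neg_left] at this
  have hB' : ∀ (k' : K) (Q : S), G.v ((G.c k' lam)⁻¹ Q) = G.v Q := by
    intro k' Q
    have := hB (-k') Q
    rwa [G.c_neg_left] at this
  constructor
  · have h := G.rat' k l hk hl P
    have e1 : G.u ((G.c k l)⁻¹ (G.b (-l) P)) = G.u (G.b (-l - lam) P) := by
      rw [G.Cen_b hcen', hinv, G.ba_apply, hA', G.a_u, ← Equiv.Perm.mul_apply, ← G.b_add,
        sub_eq_add_neg]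
    have e2 : G.v (G.c k l (G.a (-k) P)) = G.v (G.a (-k + κ) P) := by
      rw [G.Cen_a hcen, hP, G.ab_apply, hB', G.b_v, ← Equiv.Perm.mul_apply, ← G.a_add]
    rw [e1, e2] at h
    exact h
  · obtain ⟨κ', lam', h2⟩ := G.coords P (G.c (-k) l P)
    have hA2 := preU (-k) l κ' lam' P h2
    have h3 : G.c (-k) l P = G.a (-κ) (G.b (-lam) P) := by
      rw [G.c_neg_left]; exact hinv
    have e1 : G.u (G.b lam' P) = G.u (G.b (-lam) P) := by
      have h4 : G.u (G.c (-k) l P) = G.u (G.b lam' P) := by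
        rw [h2, G.ba_apply, hA2, G.a_u]
      rw [← h4, h3, G.a_u]
    have e2 : G.v (G.a κ' P) = G.v (G.a (-κ) P) := by
      have h4 : G.v (G.c (-k) l P) = G.v (G.a κ' P) := by
        rw [h2, G.b_v]
      have h5 : G.v (G.a (-κ) (G.b (-lam) P)) = G.v (G.a (-κ) P) := by
        rw [G.ab_apply, G.c_neg_left, G.c_neg_right, inv_inv, hB', G.b_v]
      rw [← h4, h3, h5]
    rw [h2, G.u_b_inj' e1, G.v_a_inj' e2]

end Pool.Agent.TP3
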