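import Pool.Agent.Lib.MP_a1e562_co.Stm

set_option autoImplicit false

namespace Pool.Agent.TP3

theorem s_J3 : S_J3 := by
  intro K _ h3 n n' m m' B B' hn hn' hm hm' e1 e2 e3 e4
  have hBB : B * B' = 0 := by
    have : m * m' * (B * B') = 0 := by
      linear_combination (-1) * e1 - e2 - e3 - e4 - (m * m' * B * B') * h3
    rcases mul_eq_zero.mp this with h | h
    · exact absurd h (mul_ne_zero hm hm')
    · exact h
  rcases mul_eq_zero.mp hBB with h | h
  · subst h
    have : n * n' * m = 0 := by
      linear_combination (-1) * e1 - e3 + (n * n' * m) * h3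
    exact mul_ne_zero (mul_ne_zero hn hn') hm this
  · subst h
    have : n * n' * m' = 0 := by
      linear_combination (-1) * e1 - e4 + (n * n' * m') * h3
    exact mul_ne_zero (mul_ne_zero hn hn') hm' this

end Pool.Agent.TP3
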