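import Pool.Agent.Lib.MP_a1e562_co.Stm

set_option autoImplicit false

namespace Pool.Agent.TP3

/-- algebra: clearing denominators in the first claim of J2 -/
private lemma J4_conv {K : Type} [Field K] (h3 : (3 : K) = 0) (N M N' M' B B' : K)
    (h1 : 1 + M ≠ 0) (h2 : 1 - M ≠ 0) (h1' : 1 + M' ≠ 0) (h2' : 1 - M' ≠ 0)
    (X1 X2 Y1 Y2 : K)
    (hX1 : X1 = -(N + B') / (1 - M)) (hX2 : X2 = N / (1 + M))
    (hY1 : Y1 = (-N' + B) / (1 - M')) (hY2 : Y2 = N' / (1 + M'))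
    (h : (X1 - X2) * (Y1 - Y2) = X2 * Y2) :
    (N - B' * (1 + M)) * (N' + B * (1 + M')) = N * N' * (1 - M) * (1 - M') := by
  have eX1 : X1 * (1 - M) = -(N + B') := by rw [hX1]; field_simp
  have eX2 : X2 * (1 + M) = N := by rw [hX2]; field_simp
  have eY1 : Y1 * (1 - M') = -N' + B := by rw [hY1]; field_simp
  have eY2 : Y2 * (1 + M') = N' := by rw [hY2]; field_simp
  have a1 : (X1 - X2) * ((1 - M) * (1 + M)) = N - B' * (1 + M) := by
    linear_combination (1 + M) * eX1 - (1 - M) * eX2 - N * h3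
  have a2 : (Y1 - Y2) * ((1 - M') * (1 + M')) = N' + B * (1 + M') := by
    linear_combination (1 + M') * eY1 - (1 - M') * eY2 - N' * h3
  rw [← a1, ← a2]
  calc (X1 - X2) * ((1 - M) * (1 + M)) * ((Y1 - Y2) * ((1 - M') * (1 + M')))
      = ((X1 - X2) * (Y1 - Y2)) * (((1 - M) * (1 + M)) * ((1 - M') * (1 + M'))) := by ring
    _ = (X2 * Y2) * (((1 - M) * (1 + M)) * ((1 - M') * (1 + M'))) := by rw [h]
    _ = (X2 * (1 + M)) * (Y2 * (1 + M')) * (1 - M) * (1 - M') := by ring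
    _ = N * N' * (1 - M) * (1 - M') := by rw [eX2, eY2]

/-- `APb 0` holds -/
private lemma J4_APb_zero {K S : Type} [Field K] (G : Grid K S) : G.APb 0 := by
  intro P
  have h3 := G.three
  rw [neg_zero, G.b_zero]
  change G.u P + G.u P + G.u P = 0
  linear_combination G.u P * h3

/-- the normal form of `x ↦ u (b x P)` at a point where `b l1` is not AP -/
private lemma J4_nf (D1 : S_D1) (D2 : S_D2) (D3 : S_D3) (D4 : S_D4) {K S : Type} [Field K]
    (G : Grid K S) (k0 l0 : K) (hk0 : k0 ≠ 0) (hl0 : l0 ≠ 0) (hc0 : G.c k0 l0 = 1)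
    (l1 : K) (hl1 : ¬ G.APb l1) (P : S) :
    l1 ≠ 0 ∧ G.c k0 l1 ≠ 1 ∧ (∀ Q, G.u (G.c k0 l1 Q) = G.u Q) ∧
    ∃ n m : K → K, (∀ x y, n (x + y) = n x + n y) ∧ (∀ x y, m (x + y) = m x + m y) ∧
      (∀ x, 1 + m x ≠ 0) ∧ (∀ x, n x = 0 → x = 0) ∧
      (∀ x, G.u (G.b x P) - G.u P = n x / (1 + m x)) ∧
      (∀ x, G.APb x → m x = 0) ∧ m l1 ≠ 0 := by
  have h3 := G.three
  have hl1' : l1 ≠ 0 := by
    rintro rfl
    exact hl1 (J4_APb_zero G)
  have hc1 : G.c k0 l1 ≠ 1 := fun h => hl1 (G.T0b k0 l1 hk0 hl1' h)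
  obtain ⟨pu, E, hE0, hE1, hE2⟩ := D2 D1 K S G k0 l0 hk0 hl0 hc0
  obtain ⟨n, m, hn, hm, h1m, hn0, hnf, hmAP⟩ := D4 K S G E hE0 hE1 hE2 P
  refine ⟨hl1', hc1, pu l1, n, m, hn, hm, h1m, hn0, hnf, fun x hx => hmAP x (hx P), ?_⟩
  intro hm1
  have n0 : n 0 = 0 := by
    have := hn 0 0
    rw [add_zero] at this
    linear_combination -this
  have m0 : m 0 = 0 := by
    have := hm 0 0
    rw [add_zero] at this
    linear_combination -this
  have nneg : n (-l1) = -n l1 := by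
    have := hn l1 (-l1)
    rw [add_neg_cancel, n0] at this
    linear_combination -this
  have mneg : m (-l1) = 0 := by
    have := hm l1 (-l1)
    rw [add_neg_cancel, m0, hm1] at this
    linear_combination -this
  have e1 := hnf l1
  have e2 := hnf (-l1)
  rw [hm1, add_zero, div_one] at e1
  rw [mneg, nneg, add_zero, div_one] at e2
  exact hc1 (D3 K S G k0 l0 l1 P hk0 hl0 hc0 pu (by linear_combination e1 + e2 + G.u P * h3))

theorem s_J4 : S_J4 := by
  intro D1 D2 D3 D4 J1 J2 J3 K S _ G k0 l0 hk0 hl0 hc0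
  by_contra hcon
  push Not at hcon
  obtain ⟨⟨l1, hl1⟩, ⟨k1, hk1⟩⟩ := hcon
  have h3 := G.three
  have hc0' : G.symm.c l0 k0 = 1 := by rw [G.symm_c, hc0, inv_one]
  obtain ⟨P⟩ := G.nonempty
  obtain ⟨hl1', hw1, hw1u, n, m, hn, hm, h1m, hn0, hnf, hmAP, hm1⟩ :=
    J4_nf D1 D2 D3 D4 G k0 l0 hk0 hl0 hc0 l1 hl1 P
  obtain ⟨hk1', hw2, hw2v, n', m', hn', hm', h1m', hn0', hnf', hmAP', hm1'⟩ :=
    J4_nf D1 D2 D3 D4 G.symm l0 k0 hl0 hk0 hc0' k1 hk1 P
  -- hypotheses of J2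
  have hD : ∀ k0 l0 : K, k0 ≠ 0 → l0 ≠ 0 → G.c k0 l0 = 1 →
      ∀ (l : K) (P : S), G.u (G.c k0 l P) = G.u P :=
    fun k0 l0 h1 h2 h => (D2 D1 K S G k0 l0 h1 h2 h).1
  have hD' : ∀ k0 l0 : K, k0 ≠ 0 → l0 ≠ 0 → G.c k0 l0 = 1 →
      ∀ (k : K) (P : S), G.v (G.c k l0 P) = G.v P := by
    intro k0 l0 h1 h2 h k Q
    have hh := (D2 D1 K S G.symm l0 k0 h2 h1 (by rw [G.symm_c, h, inv_one])).1 k (G.c k l0 Q)
    have hq : (G.c k l0)⁻¹ (G.c k l0 Q) = Q := Equiv.symm_apply_apply _ _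
    rw [G.symm_c, G.symm_u, hq] at hh
    exact hh.symm
  have hw2' : G.c k1 l0 ≠ 1 := by
    intro h
    apply hw2
    rw [G.symm_c, h, inv_one]
  have J1' := J1 K S G (G.c k0 l1) (G.c k1 l0) (G.c_Cen _ _) (G.c_Cen _ _) hw1 hw2' hw1u
    (fun Q => hD' k0 l0 hk0 hl0 hc0 k1 Q)
  have J2' := J2 K S G J1' hD hD'
  -- coordinates of `c k1 l1 P`
  obtain ⟨κ, lam, hkl⟩ := G.coords P (G.c k1 l1 P)
  obtain ⟨⟨κ1, hκ1, hcκ1⟩, ⟨l2, hl2, hcl2⟩⟩ := J1' k1 l1 κ lam P hkl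
  have n0 : n 0 = 0 := by
    have := hn 0 0
    rw [add_zero] at this
    linear_combination -this
  have m0 : m 0 = 0 := by
    have := hm 0 0
    rw [add_zero] at this
    linear_combination -this
  have n0' : n' 0 = 0 := by
    have := hn' 0 0
    rw [add_zero] at this
    linear_combination -this
  have m0' : m' 0 = 0 := by
    have := hm' 0 0
    rw [add_zero] at this
    linear_combination -this
  have nneg : ∀ x, n (-x) = -n x := by
    intro x
    have := hn x (-x)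
    rw [add_neg_cancel, n0] at this
    linear_combination -this
  have mneg : ∀ x, m (-x) = -m x := by
    intro x
    have := hm x (-x)
    rw [add_neg_cancel, m0] at this
    linear_combination -this
  have nneg' : ∀ x, n' (-x) = -n' x := by
    intro x
    have := hn' x (-x)
    rw [add_neg_cancel, n0'] at this
    linear_combination -this
  have mneg' : ∀ x, m' (-x) = -m' x := by
    intro x
    have := hm' x (-x)
    rw [add_neg_cancel, m0'] at this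
    linear_combination -this
  have hmlam : m lam = 0 := by
    by_cases hlam : lam = 0
    · rw [hlam, m0]
    · exact hmAP lam (G.T0b κ1 lam hκ1 hlam hcκ1)
  have hmκ : m' κ = 0 := by
    by_cases hκ : κ = 0
    · rw [hκ, m0']
    · exact hmAP' κ (G.T0a κ l2 hκ hl2 hcl2)
  have hnf2 : ∀ x, G.v (G.a x P) - G.v P = n' x / (1 + m' x) := hnf'
  -- general form: for `k = ±k1`, `l = ±l1` with coordinates `(κ', lam')`
  have key : ∀ k l κ' lam' : K, k ≠ 0 → l ≠ 0 → m lam' = 0 → m' κ' = 0 →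
      G.c k l P = G.b lam' (G.a κ' P) →
      (n l - n lam' * (1 + m l)) * (n' k + n' κ' * (1 + m' k)) =
        n l * n' k * (1 - m l) * (1 - m' k) := by
    intro k l κ' lam' hk hl hml hmk hc
    have h := (J2' k l κ' lam' P hk hl hc).1
    have d1 : 1 - m l ≠ 0 := by
      have := h1m (-l)
      rw [mneg] at this
      rwa [sub_eq_add_neg]
    have d2 : 1 - m' k ≠ 0 := by
      have := h1m' (-k)
      rw [mneg'] at this
      rwa [sub_eq_add_neg]
    refine J4_conv h3 (n l) (m l) (n' k) (m' k) (n' κ') (n lam') (h1m l) d1 (h1m' k) d2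
      (G.u (G.b (-l - lam') P) - G.u P) (G.u (G.b l P) - G.u P)
      (G.v (G.a (-k + κ') P) - G.v P) (G.v (G.a k P) - G.v P) ?_ (hnf l) ?_ (hnf2 k) ?_
    · rw [hnf, sub_eq_add_neg (-l) lam', hn, hm, nneg, nneg, mneg, mneg, hml]
      congr 1 <;> ring
    · rw [hnf2, hn', hm', nneg', mneg', hmk]
      congr 1 <;> ring
    · linear_combination h
  have hcneg : G.c (-k1) l1 P = G.b (-lam) (G.a (-κ) P) := (J2' k1 l1 κ lam P hk1' hl1' hkl).2
  have hcneg2 : G.c k1 (-l1) P = G.b (-lam) (G.a (-κ) P) := by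
    rw [G.c_neg_right, ← G.c_neg_left]
    exact hcneg
  have hcneg3 : G.c (-k1) (-l1) P = G.b lam (G.a κ P) := by
    rw [G.c_neg_right, G.c_neg_left, inv_inv]
    exact hkl
  have hmlam' : m (-lam) = 0 := by rw [mneg, hmlam, neg_zero]
  have hmκ' : m' (-κ) = 0 := by rw [mneg', hmκ, neg_zero]
  have e1 := key k1 l1 κ lam hk1' hl1' hmlam hmκ hkl
  have e3 := key (-k1) l1 (-κ) (-lam) (neg_ne_zero.mpr hk1') hl1' hmlam' hmκ' hcneg
  have e4 := key k1 (-l1) (-κ) (-lam) hk1' (neg_ne_zero.mpr hl1') hmlam' hmκ' hcneg2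
  have e2 := key (-k1) (-l1) κ lam (neg_ne_zero.mpr hk1') (neg_ne_zero.mpr hl1') hmlam hmκ hcneg3
  simp only [nneg, mneg, nneg', mneg'] at e2 e3 e4
  refine J3 K h3 (n l1) (n' k1) (m l1) (m' k1) (n' κ) (n lam) (fun h => hl1' (hn0 _ h))
    (fun h => hk1' (hn0' _ h)) hm1 hm1' e1 ?_ ?_ ?_
  · linear_combination e2
  · linear_combination -e3
  · linear_combination -e4

end Pool.Agent.TP3
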