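import Pool.Agent.Lib.MP_a1e562_co.Asm
import Pool.Agent.Lib.MP_a1e562_co.A1
import Pool.Agent.Lib.MP_a1e562_co.A2
import Pool.Agent.Lib.MP_a1e562_co.A3
import Pool.Agent.Lib.MP_a1e562_co.A4
import Pool.Agent.Lib.MP_a1e562_co.A5
import Pool.Agent.Lib.MP_a1e562_co.A6a
import Pool.Agent.Lib.MP_a1e562_co.A6b
import Pool.Agent.Lib.MP_a1e562_co.A7a
import Pool.Agent.Lib.MP_a1e562_co.A7b
import Pool.Agent.Lib.MP_a1e562_co.B1
import Pool.Agent.Lib.MP_a1e562_co.B2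
import Pool.Agent.Lib.MP_a1e562_co.B3
import Pool.Agent.Lib.MP_a1e562_co.B4
import Pool.Agent.Lib.MP_a1e562_co.B5
import Pool.Agent.Lib.MP_a1e562_co.B6
import Pool.Agent.Lib.MP_a1e562_co.B7
import Pool.Agent.Lib.MP_a1e562_co.B8
import Pool.Agent.Lib.MP_a1e562_co.B9
import Pool.Agent.Lib.MP_a1e562_co.B10
import Pool.Agent.Lib.MP_a1e562_co.C1
import Pool.Agent.Lib.MP_a1e562_co.C2
import Pool.Agent.Lib.MP_a1e562_co.E1
import Pool.Agent.Lib.MP_a1e562_co.E2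
import Pool.Agent.Lib.MP_a1e562_co.E3
import Pool.Agent.Lib.MP_a1e562_co.E4
import Pool.Agent.Lib.MP_a1e562_co.D1
import Pool.Agent.Lib.MP_a1e562_co.D2
import Pool.Agent.Lib.MP_a1e562_co.D3
import Pool.Agent.Lib.MP_a1e562_co.D4
import Pool.Agent.Lib.MP_a1e562_co.J1
import Pool.Agent.Lib.MP_a1e562_co.J2
import Pool.Agent.Lib.MP_a1e562_co.J3
import Pool.Agent.Lib.MP_a1e562_co.J4
import Pool.Agent.Lib.MP_a1e562_co.H1
import Pool.Agent.Lib.MP_a1e562_co.H2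
import Pool.Agent.Lib.MP_a1e562_co.H3
import Pool.Agent.Lib.MP_a1e562_co.H4

/-! # Theorem A of MP_a1e562_co -/

set_option autoImplicit false

namespace Pool.Agent.TP3

open Configuration

theorem theoremA (P L : Type) [Membership P L] [ProjectivePlane P L] [Finite P]
    (h : Char3 P L) (hT : TranslationDimTwo P L) : Desarguesian P L :=
  Asm_main s_A1 s_A2 s_A3 s_A4 s_A5 s_A6a s_A6b s_A7a s_A7b s_B1 s_B2 s_B3 s_B4 s_B5 s_B6 s_B7
    s_B8 s_B9 s_B10 s_C1 s_C2 s_E1 s_E2 s_E3 s_E4 s_D1 s_D2 s_D3 s_D4 s_J1 s_J2 s_J3 s_J4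
    s_H1 s_H2 s_H3 s_H4 P L h hT

end Pool.Agent.TP3
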