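import Pool.Agent.Lib.MP_a1e562_co.Stm

/-! # Assembly of Theorem A of MP_a1e562_co from the pieces -/

set_option autoImplicit false

namespace Pool.Agent.TP3

open Configuration

/-- some commutator `c k l`, `k, l ≠ 0`, vanishes -/
theorem Asm_claimE (hE1 : S_E1) (hE2 : S_E2) (hE3 : S_E3) (hE4 : S_E4)
    (K S : Type) [Field K] [Finite K] (G : Grid K S) :
    ∃ k l : K, k ≠ 0 ∧ l ≠ 0 ∧ G.c k l = 1 := by
  by_contra hcon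
  push Not at hcon
  obtain ⟨P⟩ := G.nonempty
  -- use the symmetric grid to find `c k 1 P = a κ P`
  obtain ⟨k, κ, lam, hk, hP, hκ⟩ := hE1 K S G.symm P
  have h1 : G.symm.c 1 k = (G.c k 1)⁻¹ := G.symm_c k 1
  rw [h1, hκ] at hP
  have hP2 : (G.c k 1)⁻¹ P = G.a lam P := by
    rw [hP]
    simp only [Grid.symm_b, Grid.symm_a, G.b_zero]
    rfl
  have hcen : G.Cen (G.c k 1)⁻¹ := G.Cen_inv (G.c_Cen k 1)
  have hne : (G.c k 1)⁻¹ ≠ 1 := by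
    rw [Ne, inv_eq_one]
    exact hcon k 1 hk one_ne_zero
  have hcol := hE2 K S G _ P lam (fun k l hk hl => hcon k l hk hl) hcen hne hP2
  obtain ⟨k', l', hk', hl', hc⟩ := hE4 hE3 K S G hcol
  exact hcon k' l' hk' hl' hc

theorem Asm_GT1 (hE1 : S_E1) (hE2 : S_E2) (hE3 : S_E3) (hE4 : S_E4)
    (hD1 : S_D1) (hD2 : S_D2) (hD3 : S_D3) (hD4 : S_D4) (hJ1 : S_J1) (hJ2 : S_J2) (hJ3 : S_J3)
    (hJ4 : S_J4) (K S : Type) [Field K] [Finite K] (G : Grid K S) :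
    (∀ l, G.APb l) ∨ (∀ k, G.APa k) := by
  obtain ⟨k0, l0, hk0, hl0, hc⟩ := Asm_claimE hE1 hE2 hE3 hE4 K S G
  exact hJ4 hD1 hD2 hD3 hD4 hJ1 hJ2 hJ3 K S G k0 l0 hk0 hl0 hc

theorem Asm_GT2 (hE1 : S_E1) (hE2 : S_E2) (hE3 : S_E3) (hE4 : S_E4)
    (hD1 : S_D1) (hD2 : S_D2) (hD3 : S_D3)
    (K S : Type) [Field K] [Finite K] (G : Grid K S) (hb : ∀ l, G.APb l) (ha : ∀ k, G.APa k) :
    ∀ k l, G.c k l = 1 := by
  obtain ⟨k0, l0, hk0, hl0, hc⟩ := Asm_claimE hE1 hE2 hE3 hE4 K S G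
  obtain ⟨P⟩ := G.nonempty
  have h1 : ∀ l, G.c k0 l = 1 := fun l =>
    hD3 K S G k0 l0 l P hk0 hl0 hc (hD2 hD1 K S G k0 l0 hk0 hl0 hc).1 (hb l P)
  intro k l
  by_cases hl : l = 0
  · rw [hl, G.c_zero_right]
  have hc2 : G.symm.c l k0 = 1 := by rw [G.symm_c, h1 l, inv_one]
  have h2 := hD3 K S G.symm l k0 k P hl hk0 hc2 (hD2 hD1 K S G.symm l k0 hl hk0 hc2).1 (ha k P)
  rw [G.symm_c, inv_eq_one] at h2
  exact h2

theorem Asm_GT3 (hE1 : S_E1) (hE2 : S_E2) (hE3 : S_E3) (hE4 : S_E4)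
    (hD1 : S_D1) (hD2 : S_D2)
    (K S : Type) [Field K] [Finite K] (G : Grid K S)
    (hrow : ∀ (k : K) (P Q : S), G.v P = G.v Q → G.v (G.a k P) = G.v (G.a k Q)) :
    ∀ l, G.APb l := by
  obtain ⟨k0, l0, hk0, hl0, hc⟩ := Asm_claimE hE1 hE2 hE3 hE4 K S G
  have hcol := (hD2 hD1 K S G k0 l0 hk0 hl0 hc).1
  intro l
  by_cases hl : l = 0
  · intro P
    rw [hl, neg_zero, G.b_zero]
    simp only [Equiv.Perm.coe_one, id_eq]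
    linear_combination G.u P * G.three
  obtain ⟨P⟩ := G.nonempty
  have h1 : G.c k0 l = 1 := by
    apply G.Cen_semireg (G.c_Cen k0 l) (G.a k0 (G.b l P))
    apply G.inj
    · exact hcol l _
    · rw [← G.ba_apply, G.b_v]
      exact hrow k0 P (G.b l P) (G.b_v l P).symm
  exact G.T0b k0 l hk0 hl h1

/-- spread sets satisfying `Hex` are additive -/
theorem Asm_add (hC1 : S_C1) (hC2 : S_C2) (hE1 : S_E1) (hE2 : S_E2) (hE3 : S_E3) (hE4 : S_E4)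
    (hD1 : S_D1) (hD2 : S_D2) (hD3 : S_D3) (hD4 : S_D4) (hJ1 : S_J1) (hJ2 : S_J2) (hJ3 : S_J3)
    (hJ4 : S_J4) (hH1 : S_H1) (hH2 : S_H2) (hH3 : S_H3) (hH4 : S_H4)
    (K U : Type) [Field K] [Finite K] [AddCommGroup U] [Module K U]
    (S : Set (Module.End K U)) (hU : Module.finrank K U = 2) (h3 : (3 : K) = 0)
    (hS : SpreadSet K U S) (hH : Hex K U S) :
    (∀ M ∈ S, ∀ N ∈ S, M + N ∈ S) ∧ ∀ M ∈ S, -M ∈ S :=
  hH4 K U S hU h3 hS (hH3 hH1 hH2 (hC2 hC1)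
    (Asm_GT1 hE1 hE2 hE3 hE4 hD1 hD2 hD3 hD4 hJ1 hJ2 hJ3 hJ4)
    (Asm_GT2 hE1 hE2 hE3 hE4 hD1 hD2 hD3)
    (Asm_GT3 hE1 hE2 hE3 hE4 hD1 hD2) K U S hU h3 hS hH)

theorem Asm_main (hA1 : S_A1) (hA2 : S_A2) (hA3 : S_A3) (hA4 : S_A4) (hA5 : S_A5)
    (hA6a : S_A6a) (hA6b : S_A6b) (hA7a : S_A7a) (hA7b : S_A7b)
    (hB1 : S_B1) (hB2 : S_B2) (hB3 : S_B3) (hB4 : S_B4) (hB5 : S_B5) (hB6 : S_B6) (hB7 : S_B7)
    (hB8 : S_B8) (hB9 : S_B9) (hB10 : S_B10)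
    (hC1 : S_C1) (hC2 : S_C2) (hE1 : S_E1) (hE2 : S_E2) (hE3 : S_E3) (hE4 : S_E4)
    (hD1 : S_D1) (hD2 : S_D2) (hD3 : S_D3) (hD4 : S_D4) (hJ1 : S_J1) (hJ2 : S_J2) (hJ3 : S_J3)
    (hJ4 : S_J4) (hH1 : S_H1) (hH2 : S_H2) (hH3 : S_H3) (hH4 : S_H4)
    (P L : Type) [Membership P L] [ProjectivePlane P L] [Finite P]
    (h : Char3 P L) (hT : TranslationDimTwo P L) : Desarguesian P L := by
  obtain ⟨K, _, _, ⟨C⟩⟩ := hA6b hA6a P L hT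
  have hU : Module.finrank K (Fin 2 → K) = 2 := by simp
  have hQ : Quad4 P L := hA1 P L h
  have hI : Inc P L := hA2 P L hQ
  have h3 : (3 : K) = 0 := hA3 P L K (Fin 2 → K) hU C hQ
  have hS : ∀ C : Coor P L K (Fin 2 → K), SpreadSet K (Fin 2 → K) C.S :=
    fun C => ⟨C.zero, C.one, C.ex, C.uq⟩
  have hadd := fun C' : Coor P L K (Fin 2 → K) =>
    Asm_add hC1 hC2 hE1 hE2 hE3 hE4 hD1 hD2 hD3 hD4 hJ1 hJ2 hJ3 hJ4 hH1 hH2 hH3 hH4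
      K (Fin 2 → K) C'.S hU h3 (hS C') (hA4 P L K (Fin 2 → K) C' hI)
  obtain ⟨C', hC'⟩ := hA5 P L K (Fin 2 → K) hU C
  have hadd' := (hadd C').1
  rw [hC'] at hadd'
  have hinv := hB1 K (Fin 2 → K) C.S hU (hS C) (hadd C).1 (hadd C).2 hadd'
  have htri := hB2 (Module.End K (Fin 2 → K)) C.S C.zero (hadd C).1 (hadd C).2 hinv
  have hmul := hB10 hB3 hB4 hB5 hB6 hB7 hB8 hB9 K C.S h3 (hS C) (hadd C).1 (hadd C).2 htri
  obtain ⟨F, _, r, t, hrt⟩ := hA7a K (Fin 2 → K) C.S hU (hS C) (hadd C).1 (hadd C).2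
    (fun A hA B hB => (hmul A hA B hB).1) (fun A hA B hB => (hmul A hA B hB).2)
  exact hA7b P L K (Fin 2 → K) C F r t hrt

end Pool.Agent.TP3
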