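import Pool.Agent.Lib.MP_a1e562_co.Stm

/-!
Piece B2: the identity of Hua.
-/

set_option autoImplicit false

namespace Pool.Agent.TP3

theorem s_B2 : S_B2 := by
  intro R _ S h0 hadd hneg hinv A hA B hB
  have hsub : ∀ M ∈ S, ∀ N ∈ S, M - N ∈ S := by
    intro M hM N hN
    rw [sub_eq_add_neg]
    exact hadd M hM _ (hneg N hN)
  by_cases hA0 : A = 0
  · rw [hA0, zero_mul, zero_mul]
    exact h0
  by_cases hB0 : B = 0
  · rw [hB0, mul_zero, zero_mul]
    exact h0
  obtain ⟨A', hA', a1, a2⟩ := hinv A hA hA0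
  obtain ⟨B', hB', b1, b2⟩ := hinv B hB hB0
  by_cases hC0 : B' - A = 0
  · have h1 : B' = A := sub_eq_zero.1 hC0
    have h2 : A * B * A = A := by rw [← h1, b1, one_mul]
    rw [h2]
    exact hA
  · obtain ⟨C, hC⟩ : ∃ C, C = B' - A := ⟨_, rfl⟩
    rw [← hC] at hC0
    have hCS : C ∈ S := by
      rw [hC]
      exact hsub B' hB' A hA
    obtain ⟨C', hC', c1, c2⟩ := hinv C hCS hC0
    have hDS : A' + C' ∈ S := hadd A' hA' C' hC'
    have e1 : A * (A' + C') * C = B' := by
      rw [mul_add, a2, add_mul, one_mul, mul_assoc, c1, mul_one, hC, sub_add_cancel]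
    have hD0 : A' + C' ≠ 0 := by
      intro h
      rw [h, mul_zero, zero_mul] at e1
      rw [← e1, zero_mul] at b1
      apply hA0
      calc A = 1 * A := (one_mul A).symm
        _ = 0 := by rw [← b1, zero_mul]
    obtain ⟨D', hD', d1, d2⟩ := hinv (A' + C') hDS hD0
    have e2 : A' + C' = A' * B' * C' := by
      calc A' + C' = (A' * A) * (A' + C') * (C * C') := by rw [a1, c2, one_mul, mul_one]
        _ = A' * (A * (A' + C') * C) * C' := by simp only [mul_assoc]
        _ = A' * B' * C' := by rw [e1]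
    have e3 : (A' + C') * (C * B * A) = 1 := by
      calc (A' + C') * (C * B * A) = A' * B' * C' * (C * B * A) := by rw [e2]
        _ = A' * (B' * ((C' * C) * (B * A))) := by simp only [mul_assoc]
        _ = A' * ((B' * B) * A) := by rw [c1, one_mul, mul_assoc]
        _ = 1 := by rw [b1, one_mul, a1]
    have e4 : C * B * A = D' := by
      calc C * B * A = (D' * (A' + C')) * (C * B * A) := by rw [d1, one_mul]
        _ = D' * ((A' + C') * (C * B * A)) := mul_assoc _ _ _
        _ = D' := by rw [e3, mul_one]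
    have e5 : A * B * A = A - C * B * A := by
      rw [hC, sub_mul, sub_mul, b1, one_mul, sub_sub_cancel]
    rw [e5, e4]
    exact hsub A hA D' hD'

end Pool.Agent.TP3
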