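import Mathlib

/-!
# Finite projective planes of characteristic three: definitions

Definitions used in the statement of Theorem A (statement level) and the auxiliary
structures `Sub4`, `Inc`, `Coor`, `SpreadSet`, `Hex`, `Grid` used in its proof.
-/

set_option autoImplicit false

namespace Pool.Agent.TP3

open Configuration

/-! ## statement level -/

/-- Every quadrangle generates a subplane with exactly 13 points (order 3); the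
condition is copied from the frozen statement S10505. -/
def Char3 (P L : Type) [Membership P L] : Prop :=
  ∀ a b c d : P,
    (¬ ∃ l : L, a ∈ l ∧ b ∈ l ∧ c ∈ l) →
    (¬ ∃ l : L, a ∈ l ∧ b ∈ l ∧ d ∈ l) →
    (¬ ∃ l : L, a ∈ l ∧ c ∈ l ∧ d ∈ l) →
    (¬ ∃ l : L, b ∈ l ∧ c ∈ l ∧ d ∈ l) →
    Set.ncard {x : P | ∀ (S : Set P) (T : Set L),
        a ∈ S → b ∈ S → c ∈ S → d ∈ S →
        (∀ p ∈ S, ∀ q ∈ S, p ≠ q → ∀ l : L, p ∈ l → q ∈ l → l ∈ T) →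
        (∀ l ∈ T, ∀ m ∈ T, l ≠ m → ∀ p : P, p ∈ l → p ∈ m → p ∈ S) →
        x ∈ S} = 13

/-- The plane is isomorphic to the plane over some field. -/
def Desarguesian (P L : Type) [Membership P L] : Prop :=
  ∃ (F : Type) (_ : Field F) (f : P ≃ Projectivization F (Fin 3 → F))
    (g : L ≃ {W : Submodule F (Fin 3 → F) // Module.finrank F W = 2}),
    ∀ (p : P) (l : L), p ∈ l ↔ (f p).submodule ≤ (g l).1

/-- The plane is a translation plane which is 2-dimensional over a field `K` in its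
kernel (André, Bruck-Bose): for some line `ℓ` the points off `ℓ` are the vectors of
`K^4` and the lines other than `ℓ` are exactly the cosets of the members of a set `𝒮` of
2-dimensional subspaces (a spread). -/
def TranslationDimTwo (P L : Type) [Membership P L] : Prop :=
  ∃ (K : Type) (_ : Field K) (ℓ : L) (φ : {x : P // x ∉ ℓ} ≃ (Fin 4 → K))
    (𝒮 : Set (Submodule K (Fin 4 → K))),
    (∀ W ∈ 𝒮, Module.finrank K W = 2) ∧
    (∀ m : L, m ≠ ℓ → ∃ W ∈ 𝒮, ∃ a : Fin 4 → K,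
      ∀ x : {x : P // x ∉ ℓ}, (x : P) ∈ m ↔ φ x - a ∈ W) ∧
    (∀ W ∈ 𝒮, ∀ a : Fin 4 → K, ∃ m : L, m ≠ ℓ ∧
      ∀ x : {x : P // x ∉ ℓ}, (x : P) ∈ m ↔ φ x - a ∈ W)

/-! ## auxiliary: incidence -/

/-- `C` is the point set of a subplane of order 3: closed under intersecting lines that
meet `C` twice, and every line that meets `C` twice meets it in four points. -/
structure Sub4 (P L : Type) [Membership P L] (C : Set P) : Prop where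
  meet : ∀ p ∈ C, ∀ q ∈ C, p ≠ q → ∀ p' ∈ C, ∀ q' ∈ C, p' ≠ q' → ∀ l m : L, l ≠ m →
    p ∈ l → q ∈ l → p' ∈ m → q' ∈ m → ∀ x : P, x ∈ l → x ∈ m → x ∈ C
  four : ∀ p ∈ C, ∀ q ∈ C, p ≠ q → ∀ l : L, p ∈ l → q ∈ l →
    Set.ncard {x : P | x ∈ C ∧ x ∈ l} = 4

/-- Every quadrangle lies in a `Sub4`. -/
def Quad4 (P L : Type) [Membership P L] : Prop :=
  ∀ a b c d : P,
    (¬ ∃ l : L, a ∈ l ∧ b ∈ l ∧ c ∈ l) →
    (¬ ∃ l : L, a ∈ l ∧ b ∈ l ∧ d ∈ l) →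
    (¬ ∃ l : L, a ∈ l ∧ c ∈ l ∧ d ∈ l) →
    (¬ ∃ l : L, b ∈ l ∧ c ∈ l ∧ d ∈ l) →
    ∃ C : Set P, a ∈ C ∧ b ∈ C ∧ c ∈ C ∧ d ∈ C ∧ Sub4 P L C

/-- The incidence theorem of characteristic 3 that is used. -/
def Inc (P L : Type) [Membership P L] : Prop :=
  ∀ (Z C0 C1 A0 A1 A2 B0 B1 B2 D0 D1 D2 : P) (l m r x0 x1 x2 y0 y1 y2 : L),
    l ≠ m → l ≠ r → m ≠ r → Z ∈ l → Z ∈ m → Z ∈ r →
    C0 ∈ l → C1 ∈ l → C0 ≠ C1 → C0 ≠ Z → C1 ≠ Z →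
    C0 ∈ x0 → C0 ∈ x1 → C0 ∈ x2 → C1 ∈ y0 → C1 ∈ y1 → C1 ∈ y2 → x0 ≠ l →
    A0 ∈ x0 → A0 ∈ m → A0 ∈ y0 →
    B1 ∈ y0 → B1 ∈ r → B1 ∈ x1 →
    A1 ∈ x1 → A1 ∈ m → A1 ∈ y1 →
    B2 ∈ y1 → B2 ∈ r → B2 ∈ x2 →
    A2 ∈ x2 → A2 ∈ m → A2 ∈ y2 →
    B0 ∈ x0 → B0 ∈ r →
    D0 ∈ x0 → D0 ∈ y1 → D1 ∈ x1 → D1 ∈ y2 → D2 ∈ x2 → D2 ∈ y0 →
    B0 ∈ y2 ∧ ∃ g : L, Z ∈ g ∧ D0 ∈ g ∧ D1 ∈ g ∧ D2 ∈ g

/-! ## auxiliary: coordinates -/

/-- Coordinates of a translation plane with spread set `S` of linear maps `U → U`. -/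
structure Coor (P L K U : Type) [Membership P L] [Field K] [AddCommGroup U]
    [Module K U] where
  S : Set (Module.End K U)
  inf : L
  Z : P
  pt : U → U → P
  Zp : Module.End K U → P
  vt : U → L
  ln : Module.End K U → U → L
  zero : (0 : Module.End K U) ∈ S
  one : (1 : Module.End K U) ∈ S
  ex : ∀ x : U, x ≠ 0 → ∀ y : U, ∃ M ∈ S, M x = y
  uq : ∀ M ∈ S, ∀ N ∈ S, ∀ x : U, x ≠ 0 → M x = N x → M = N
  pts : ∀ q : P, (∃ x y : U, q = pt x y) ∨ (∃ M ∈ S, q = Zp M) ∨ q = Z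
  lns : ∀ l : L, l = inf ∨ (∃ c : U, l = vt c) ∨ ∃ M ∈ S, ∃ b : U, l = ln M b
  pt_inf : ∀ x y : U, pt x y ∉ inf
  pt_vt : ∀ x y c : U, pt x y ∈ vt c ↔ x = c
  pt_ln : ∀ M ∈ S, ∀ b x y : U, pt x y ∈ ln M b ↔ y = M x + b
  Zp_inf : ∀ M ∈ S, Zp M ∈ inf
  Zp_vt : ∀ M ∈ S, ∀ c : U, Zp M ∉ vt c
  Zp_ln : ∀ M ∈ S, ∀ N ∈ S, ∀ b : U, Zp M ∈ ln N b ↔ M = N
  Z_inf : Z ∈ inf
  Z_vt : ∀ c : U, Z ∈ vt c
  Z_ln : ∀ M ∈ S, ∀ b : U, Z ∉ ln M b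

/-! ## auxiliary: spread sets -/

/-- A spread set containing 0 and 1: for `x ≠ 0` the map `M ↦ M x` is a bijection from
`S` onto `U`. -/
structure SpreadSet (K U : Type) [Field K] [AddCommGroup U] [Module K U]
    (S : Set (Module.End K U)) : Prop where
  zero : (0 : Module.End K U) ∈ S
  one : (1 : Module.End K U) ∈ S
  ex : ∀ x : U, x ≠ 0 → ∀ y : U, ∃ M ∈ S, M x = y
  uq : ∀ M ∈ S, ∀ N ∈ S, ∀ x : U, x ≠ 0 → M x = N x → M = N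

/-- The incidence theorem `Inc` in coordinates. -/
def Hex (K U : Type) [Field K] [AddCommGroup U] [Module K U]
    (S : Set (Module.End K U)) : Prop :=
  ∀ p r δ : U, LinearIndependent K ![p, r] → δ ≠ 0 →
    ∀ x0 ∈ S, ∀ x1 ∈ S, ∀ x2 ∈ S, ∀ y0 ∈ S, ∀ y1 ∈ S, ∀ y2 ∈ S,
      y0 p = x0 p + δ → y0 r = x1 r + δ → y1 p = x1 p + δ → y1 r = x2 r + δ →
      y2 p = x2 p + δ →
      y2 r = x0 r + δ ∧
        ∃ γ : U, y1 γ = x0 γ + δ ∧ y2 γ = x1 γ + δ ∧ y0 γ = x2 γ + δ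

/-! ## auxiliary: grids -/

/-- The structure carried by a spread set after fixing `p`, `r`, `δ`: `u`, `v` are the
`p`- and `r`-coordinate modulo `δ`, `a k` adds `k δ` at `p`, `b l` adds `l δ` at `r`. -/
structure Grid (K S : Type) [Field K] where
  u : S → K
  v : S → K
  a : K → Equiv.Perm S
  b : K → Equiv.Perm S
  inj : ∀ P Q : S, u P = u Q → v P = v Q → P = Q
  surj : ∀ x y : K, ∃ P : S, u P = x ∧ v P = y
  a_add : ∀ k k' : K, a (k + k') = a k * a k'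
  b_add : ∀ l l' : K, b (l + l') = b l * b l'
  a_u : ∀ (k : K) (P : S), u (a k P) = u P
  b_v : ∀ (l : K) (P : S), v (b l P) = v P
  a_free : ∀ (k : K) (P : S), a k P = P → k = 0
  b_free : ∀ (l : K) (P : S), b l P = P → l = 0
  a_tr : ∀ P Q : S, u P = u Q → ∃ k : K, a k P = Q
  b_tr : ∀ P Q : S, v P = v Q → ∃ l : K, b l P = Q
  cube : ∀ k l : K, (b l * a k) ^ 3 = 1
  rat : ∀ k l : K, k ≠ 0 → l ≠ 0 → ∀ P : S,
    (u (b (-l) (a k P)) - u (b l P)) * (v (a (-k) (b l P)) - v (a k P)) =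
      (u (b l P) - u P) * (v (a k P) - v P)

end Pool.Agent.TP3
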