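import Pool.Agent.Lib.MP_a1e562_co.Stm

/-! # [TP E2] -/

set_option autoImplicit false

namespace Pool.Agent.TP3

theorem E2_comm {K S : Type} [Field K] (G : Grid K S) {w : Equiv.Perm S} (hw : G.Cen w)
    (k l : K) : w * G.c k l = G.c k l * w := by
  unfold Grid.c
  rw [← G.b_neg, ← G.a_neg]
  calc w * (G.b l * G.a k * G.b (-l) * G.a (-k))
      = (w * G.b l) * G.a k * G.b (-l) * G.a (-k) := by simp only [mul_assoc]
    _ = G.b l * (w * G.a k) * G.b (-l) * G.a (-k) := by rw [hw.2]; simp only [mul_assoc]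
    _ = G.b l * G.a k * (w * G.b (-l)) * G.a (-k) := by rw [hw.1]; simp only [mul_assoc]
    _ = G.b l * G.a k * G.b (-l) * (w * G.a (-k)) := by rw [hw.2]; simp only [mul_assoc]
    _ = _ := by rw [hw.1]; simp only [mul_assoc]

theorem E2_star {K S : Type} [Field K] (G : Grid K S)
    (hfree : ∀ k l : K, k ≠ 0 → l ≠ 0 → G.c k l ≠ 1) {w : Equiv.Perm S} (hw : G.Cen w) (Q : S)
    (κ1 : K) (h1 : κ1 ≠ 0) (e : w Q = G.a κ1 Q) (k l : K) : G.u (G.c k l Q) = G.u Q := by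
  obtain ⟨κ, lam, h⟩ := G.coords Q (G.c k l Q)
  have hc : w (G.c k l Q) = G.c k l (w Q) :=
    congrArg (fun f : Equiv.Perm S => f Q) (E2_comm G hw k l)
  have h2 := G.iso_a hw (G.c_Cen k l) Q κ1 κ lam e h hc
  have h3 : lam = 0 := by
    by_contra h4
    exact hfree κ1 lam h1 h4 h2
  rw [h, h3, G.b_zero]
  exact G.a_u κ Q

theorem s_E2 : S_E2 := by
  intro K S _ G w1 P0 κ1 hfree hw hw1 he k l Q
  have hκ : κ1 ≠ 0 := by
    intro h
    rw [h, G.a_zero] at he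
    exact hw1 (G.Cen_semireg hw P0 he)
  obtain ⟨R, hR1, hR2⟩ := G.surj (G.u Q) (G.v P0)
  obtain ⟨m, hm⟩ := G.b_tr P0 R hR2.symm
  have hwc : G.Cen ((G.c κ1 m)⁻¹ * w1) := G.Cen_mul (G.Cen_inv (G.c_Cen κ1 m)) hw
  have e : ((G.c κ1 m)⁻¹ * w1) R = G.a κ1 R := by
    rw [← hm, Equiv.Perm.mul_apply, G.Cen_b hw, he, G.ab_apply]
  have h1 := E2_star G hfree hwc R κ1 hκ e k l
  rw [G.Cen_u (G.c_Cen k l) Q R hR1.symm, h1, hR1]

end Pool.Agent.TP3
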