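import Pool.Agent.Lib.MP_a1e562_co.Defs

/-! # Basic facts about grids -/

set_option autoImplicit false

namespace Pool.Agent.TP3

variable {K S : Type} [Field K]

namespace Grid

variable (G : Grid K S)

/-- commutator of `b l` and `a k` -/
def c (k l : K) : Equiv.Perm S := G.b l * G.a k * (G.b l)⁻¹ * (G.a k)⁻¹

/-- `w` commutes with all `a k` and all `b l` -/
def Cen (w : Equiv.Perm S) : Prop := (∀ k, w * G.a k = G.a k * w) ∧ (∀ l, w * G.b l = G.b l * w)

/-- `a k` acts as an arithmetic progression (characteristic 3) -/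
def APa (k : K) : Prop := ∀ P, G.v P + G.v (G.a k P) + G.v (G.a (-k) P) = 0

/-- `b l` acts as an arithmetic progression -/
def APb (l : K) : Prop := ∀ P, G.u P + G.u (G.b l P) + G.u (G.b (-l) P) = 0

lemma a_zero : G.a 0 = 1 := by
  have h := G.a_add 0 0
  simp only [add_zero] at h
  exact (mul_eq_left.mp h.symm)

lemma b_zero : G.b 0 = 1 := by
  have h := G.b_add 0 0
  simp only [add_zero] at h
  exact (mul_eq_left.mp h.symm)

lemma a_neg (k : K) : G.a (-k) = (G.a k)⁻¹ := by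
  have h := G.a_add (-k) k
  rw [neg_add_cancel, a_zero] at h
  exact eq_inv_of_mul_eq_one_left h.symm

lemma b_neg (l : K) : G.b (-l) = (G.b l)⁻¹ := by
  have h := G.b_add (-l) l
  rw [neg_add_cancel, b_zero] at h
  exact eq_inv_of_mul_eq_one_left h.symm

lemma a_comm (k k' : K) : G.a k * G.a k' = G.a k' * G.a k := by
  rw [← G.a_add, ← G.a_add, add_comm]

lemma b_comm (l l' : K) : G.b l * G.b l' = G.b l' * G.b l := by
  rw [← G.b_add, ← G.b_add, add_comm]

/-- exchange of the two directions -/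
def symm : Grid K S where
  u := G.v
  v := G.u
  a := G.b
  b := G.a
  inj := fun P Q h1 h2 => G.inj P Q h2 h1
  surj := fun x y => by
    obtain ⟨P, h1, h2⟩ := G.surj y x
    exact ⟨P, h2, h1⟩
  a_add := G.b_add
  b_add := G.a_add
  a_u := G.b_v
  b_v := G.a_u
  a_free := G.b_free
  b_free := G.a_free
  a_tr := G.b_tr
  b_tr := G.a_tr
  cube := fun k l => by
    have h := G.cube l k
    have h2 : (G.a l * G.b k) ^ 3 = (G.b k)⁻¹ * (G.b k * G.a l) ^ 3 * G.b k := by
      simp only [pow_succ, pow_zero, one_mul]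
      group
    rw [h2, h]
    group
  rat := fun k l hk hl P => by
    have h := G.rat l k hl hk P
    rw [mul_comm, h, mul_comm]

@[simp] lemma symm_u : G.symm.u = G.v := rfl
@[simp] lemma symm_v : G.symm.v = G.u := rfl
@[simp] lemma symm_a : G.symm.a = G.b := rfl
@[simp] lemma symm_b : G.symm.b = G.a := rfl

lemma symm_symm : G.symm.symm = G := rfl

lemma symm_c (k l : K) : G.symm.c l k = (G.c k l)⁻¹ := by
  simp only [c, symm_a, symm_b]
  group

lemma symm_Cen (w : Equiv.Perm S) : G.symm.Cen w ↔ G.Cen w := by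
  simp only [Cen, symm_a, symm_b]
  exact and_comm

lemma symm_APa (k : K) : G.symm.APa k ↔ G.APb k := Iff.rfl

lemma symm_APb (k : K) : G.symm.APb k ↔ G.APa k := Iff.rfl

include G in
lemma nonempty : Nonempty S := ⟨(G.surj 0 0).choose⟩

include G in
/-- the field has characteristic three -/
lemma three : (3 : K) = 0 := by
  obtain ⟨P⟩ := G.nonempty
  have h := G.cube 0 1
  rw [G.a_zero, mul_one] at h
  have h2 : G.b 3 = 1 := by
    have : (3 : K) = 1 + 1 + 1 := by norm_num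
    rw [this, G.b_add, G.b_add]
    rw [← h]
    simp [pow_succ]
  exact G.b_free 3 P (by rw [h2]; rfl)

lemma b_cube (l : K) : G.b l * G.b l * G.b l = 1 := by
  rw [← G.b_add, ← G.b_add]
  have : l + l + l = 0 := by
    have := G.three
    linear_combination l * this
  rw [this, G.b_zero]

lemma a_cube (k : K) : G.a k * G.a k * G.a k = 1 := G.symm.b_cube k

/-- conjugates of the `a k` by `b l` commute with the `a k'` (key step for class 2) -/
lemma conj_comm (k k' l : K) :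
    (G.b l * G.a k * (G.b l)⁻¹) * G.a k' = G.a k' * (G.b l * G.a k * (G.b l)⁻¹) := by
  -- X_k = y a_k y⁻¹, Y_k = y⁻¹ a_k y
  have key : ∀ (m j : K), (G.b m * G.a j * (G.b m)⁻¹) * ((G.b m)⁻¹ * G.a j * G.b m) = G.a (-j) := by
    intro m j
    have h := G.cube j m
    have hb := G.b_cube m
    have hb2 : (G.b m)⁻¹ * (G.b m)⁻¹ = G.b m := by
      have : G.b m = G.b m * G.b m * G.b m * ((G.b m)⁻¹ * (G.b m)⁻¹) := by group
      rw [hb, one_mul] at this
      exact this.symm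
    have h3 : (G.b m * G.a j * (G.b m)⁻¹) * ((G.b m)⁻¹ * G.a j * G.b m) =
        (G.b m * G.a j) * ((G.b m)⁻¹ * (G.b m)⁻¹) * (G.a j * G.b m) := by group
    rw [h3, hb2]
    have h4 : G.b m * G.a j * G.b m * (G.a j * G.b m) = (G.b m * G.a j) ^ 3 * (G.a j)⁻¹ := by
      simp only [pow_succ, pow_zero, one_mul]
      group
    rw [h4, h, one_mul, G.a_neg]
  have key2 : ∀ (m j : K), ((G.b m)⁻¹ * G.a j * G.b m) * (G.b m * G.a j * (G.b m)⁻¹) = G.a (-j) := by
    intro m j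
    have h := key (-m) j
    rw [G.b_neg, inv_inv] at h
    exact h
  -- X_{k'} Y_k = Y_k X_{k'}
  have key3 : ∀ (m i j : K), (G.b m * G.a i * (G.b m)⁻¹) * ((G.b m)⁻¹ * G.a j * G.b m) =
      ((G.b m)⁻¹ * G.a j * G.b m) * (G.b m * G.a i * (G.b m)⁻¹) := by
    intro m i j
    have h1 := key m (j + i)
    have h2 := key m j
    have h3 := key m i
    rw [neg_add, G.a_add (-j) (-i), ← h2, ← h3, G.a_add] at h1
    have h4 : (G.b m * (G.a j * G.a i) * (G.b m)⁻¹) * ((G.b m)⁻¹ * (G.a j * G.a i) * G.b m) =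
      (G.b m * G.a j * (G.b m)⁻¹) * ((G.b m * G.a i * (G.b m)⁻¹) * ((G.b m)⁻¹ * G.a j * G.b m)) *
        ((G.b m)⁻¹ * G.a i * G.b m) := by group
    have h5 : (G.b m * G.a j * (G.b m)⁻¹) * ((G.b m)⁻¹ * G.a j * G.b m) *
        ((G.b m * G.a i * (G.b m)⁻¹) * ((G.b m)⁻¹ * G.a i * G.b m)) =
        (G.b m * G.a j * (G.b m)⁻¹) * (((G.b m)⁻¹ * G.a j * G.b m) * (G.b m * G.a i * (G.b m)⁻¹)) *
        ((G.b m)⁻¹ * G.a i * G.b m) := by group
    rw [h4, h5] at h1
    exact mul_left_cancel (mul_right_cancel h1)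
  -- conjugate by y
  have h := key3 (-l) k k'
  rw [G.b_neg, inv_inv] at h
  -- (y⁻¹ a_k y)(y a_k' y⁻¹) = (y a_k' y⁻¹)(y⁻¹ a_k y); conjugate by y⁻¹ : y⁻¹ y⁻¹ a_k y y = y a_k y⁻¹
  have hb := G.b_cube l
  have hb2 : (G.b l)⁻¹ * (G.b l)⁻¹ = G.b l := by
    have : G.b l = G.b l * G.b l * G.b l * ((G.b l)⁻¹ * (G.b l)⁻¹) := by group
    rw [hb, one_mul] at this
    exact this.symm
  have hb3 : G.b l * G.b l = (G.b l)⁻¹ := eq_inv_of_mul_eq_one_left hb
  have e1 : (G.b l * G.a k * (G.b l)⁻¹) * G.a k' =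
      (G.b l)⁻¹ * (((G.b l)⁻¹ * G.a k * G.b l) * (G.b l * G.a k' * (G.b l)⁻¹)) * G.b l := by
    calc (G.b l * G.a k * (G.b l)⁻¹) * G.a k'
        = ((G.b l)⁻¹ * (G.b l)⁻¹) * G.a k * (G.b l * G.b l) * G.a k' := by rw [hb2, hb3]
      _ = _ := by group
  have e2 : G.a k' * (G.b l * G.a k * (G.b l)⁻¹) =
      (G.b l)⁻¹ * ((G.b l * G.a k' * (G.b l)⁻¹) * ((G.b l)⁻¹ * G.a k * G.b l)) * G.b l := by
    calc G.a k' * (G.b l * G.a k * (G.b l)⁻¹)
        = G.a k' * (((G.b l)⁻¹ * (G.b l)⁻¹) * G.a k * (G.b l * G.b l)) := by rw [hb2, hb3]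
      _ = _ := by group
  rw [e1, e2, h]

lemma c_comm_a (k l x : K) : G.c k l * G.a x = G.a x * G.c k l := by
  unfold c
  rw [mul_assoc, ← G.a_neg, G.a_comm, ← mul_assoc, G.conj_comm, mul_assoc]

lemma c_comm_b (k l x : K) : G.c k l * G.b x = G.b x * G.c k l := by
  have h := G.symm.c_comm_a l k x
  rw [G.symm_c, G.symm_a] at h
  have h2 : G.c k l * ((G.c k l)⁻¹ * G.b x) * G.c k l = G.c k l * (G.b x * (G.c k l)⁻¹) * G.c k l := by
    rw [h]
  have h3 : G.c k l * ((G.c k l)⁻¹ * G.b x) * G.c k l = G.b x * G.c k l := by group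
  have h4 : G.c k l * (G.b x * (G.c k l)⁻¹) * G.c k l = G.c k l * G.b x := by group
  rw [h3, h4] at h2
  exact h2.symm

/-- the commutators are central -/
lemma c_Cen (k l : K) : G.Cen (G.c k l) := ⟨G.c_comm_a k l, G.c_comm_b k l⟩

lemma Cen_one : G.Cen 1 := ⟨fun k => by simp, fun l => by simp⟩

lemma Cen_mul {w w' : Equiv.Perm S} (h : G.Cen w) (h' : G.Cen w') : G.Cen (w * w') :=
  ⟨fun k => by rw [mul_assoc, h'.1, ← mul_assoc, h.1, mul_assoc],
   fun l => by rw [mul_assoc, h'.2, ← mul_assoc, h.2, mul_assoc]⟩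

lemma Cen_inv {w : Equiv.Perm S} (h : G.Cen w) : G.Cen w⁻¹ :=
  ⟨fun k => by
    have := h.1 k
    calc w⁻¹ * G.a k = w⁻¹ * (G.a k * w) * w⁻¹ := by group
      _ = w⁻¹ * (w * G.a k) * w⁻¹ := by rw [this]
      _ = G.a k * w⁻¹ := by group,
   fun l => by
    have := h.2 l
    calc w⁻¹ * G.b l = w⁻¹ * (G.b l * w) * w⁻¹ := by group
      _ = w⁻¹ * (w * G.b l) * w⁻¹ := by rw [this]
      _ = G.b l * w⁻¹ := by group⟩

/-- `b a = c a b` -/
lemma ba (k l : K) : G.b l * G.a k = G.c k l * G.a k * G.b l := by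
  unfold c; group

lemma c_add_left (k k' l : K) : G.c (k + k') l = G.c k l * G.c k' l := by
  have h : G.c (k + k') l = (G.b l * G.a k * (G.b l)⁻¹) * (G.c k' l) * (G.a k)⁻¹ := by
    unfold c
    rw [G.a_add]
    group
  rw [h, mul_assoc, ← G.a_neg, G.c_comm_a, ← mul_assoc, G.a_neg]
  rfl

lemma c_add_right (k l l' : K) : G.c k (l + l') = G.c k l * G.c k l' := by
  have h := G.symm.c_add_left l l' k
  rw [G.symm_c, G.symm_c, G.symm_c, ← mul_inv_rev] at h
  have h2 := inv_injective h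
  rw [h2]
  have hc := G.c_comm_a k l' k
  -- c k l' and c k l commute
  have := (G.c_Cen k l')
  unfold c at *
  simp only [mul_assoc] at *
  have e : ∀ w : Equiv.Perm S, G.Cen w → w * (G.b l * (G.a k * ((G.b l)⁻¹ * (G.a k)⁻¹))) =
      G.b l * (G.a k * ((G.b l)⁻¹ * (G.a k)⁻¹)) * w := by
    intro w hw
    rw [← mul_assoc, hw.2, mul_assoc, ← mul_assoc w, hw.1, mul_assoc, ← mul_assoc w, ← G.b_neg,
      hw.2, mul_assoc, ← G.a_neg, hw.1]
    simp only [mul_assoc]
  exact e _ this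

lemma c_zero_left (l : K) : G.c 0 l = 1 := by
  unfold c; rw [G.a_zero]; group

lemma c_zero_right (k : K) : G.c k 0 = 1 := by
  unfold c; rw [G.b_zero]; group

lemma c_neg_left (k l : K) : G.c (-k) l = (G.c k l)⁻¹ := by
  have h := G.c_add_left (-k) k l
  rw [neg_add_cancel, c_zero_left] at h
  exact eq_inv_of_mul_eq_one_left h.symm

lemma c_neg_right (k l : K) : G.c k (-l) = (G.c k l)⁻¹ := by
  have h := G.c_add_right k (-l) l
  rw [neg_add_cancel, c_zero_right] at h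
  exact eq_inv_of_mul_eq_one_left h.symm

lemma c_cube (k l : K) : G.c k l * G.c k l * G.c k l = 1 := by
  rw [← G.c_add_right, ← G.c_add_right]
  have : l + l + l = 0 := by
    have := G.three
    linear_combination l * this
  rw [this, G.c_zero_right]

/-- every point is `b l (a k P)` -/
lemma coords (P Q : S) : ∃ k l : K, Q = G.b l (G.a k P) := by
  obtain ⟨R, h1, h2⟩ := G.surj (G.u P) (G.v Q)
  obtain ⟨k, hk⟩ := G.a_tr P R h1.symm
  obtain ⟨l, hl⟩ := G.b_tr R Q h2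
  exact ⟨k, l, by rw [hk, hl]⟩

/-- the coordinates are unique -/
lemma coords_unique (P : S) (k l k' l' : K) (h : G.b l (G.a k P) = G.b l' (G.a k' P)) :
    k = k' ∧ l = l' := by
  have h1 : G.a k P = G.a k' P := by
    apply G.inj
    · rw [G.a_u, G.a_u]
    · have := congrArg G.v h
      rwa [G.b_v, G.b_v] at this
  have h2 : k = k' := by
    have : G.a (-k') (G.a k P) = P := by
      rw [h1, G.a_neg]; simp
    have h3 := G.a_free (-k' + k) P (by rw [G.a_add]; exact this)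
    linear_combination h3
  refine ⟨h2, ?_⟩
  rw [h1] at h
  have : G.b (-l') (G.b l (G.a k' P)) = G.a k' P := by
    rw [h, G.b_neg]; simp
  have h3 := G.b_free (-l' + l) (G.a k' P) (by rw [G.b_add]; exact this)
  linear_combination h3

lemma Cen_a {w : Equiv.Perm S} (h : G.Cen w) (k : K) (P : S) : w (G.a k P) = G.a k (w P) := by
  have := congrArg (fun f : Equiv.Perm S => f P) (h.1 k)
  exact this

lemma Cen_b {w : Equiv.Perm S} (h : G.Cen w) (l : K) (P : S) : w (G.b l P) = G.b l (w P) := by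
  have := congrArg (fun f : Equiv.Perm S => f P) (h.2 l)
  exact this

/-- central elements are semiregular -/
lemma Cen_semireg {w : Equiv.Perm S} (h : G.Cen w) (P : S) (hP : w P = P) : w = 1 := by
  ext Q
  obtain ⟨k, l, rfl⟩ := G.coords P Q
  rw [G.Cen_b h, G.Cen_a h, hP]
  rfl

/-- central elements permute columns -/
lemma Cen_u {w : Equiv.Perm S} (h : G.Cen w) (P Q : S) (hPQ : G.u P = G.u Q) :
    G.u (w P) = G.u (w Q) := by
  obtain ⟨k, rfl⟩ := G.a_tr P Q hPQ
  rw [G.Cen_a h, G.a_u]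

/-- central elements permute rows -/
lemma Cen_v {w : Equiv.Perm S} (h : G.Cen w) (P Q : S) (hPQ : G.v P = G.v Q) :
    G.v (w P) = G.v (w Q) := by
  obtain ⟨l, rfl⟩ := G.b_tr P Q hPQ
  rw [G.Cen_b h, G.b_v]

/-- if a central element preserves one column then it preserves its column pointwise -/
lemma u_b_inj {l : K} {P : S} (h : G.u (G.b l P) = G.u P) : l = 0 :=
  G.b_free l P (G.inj _ _ h (G.b_v l P))

lemma v_a_inj {k : K} {P : S} (h : G.v (G.a k P) = G.v P) : k = 0 :=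
  G.a_free k P (G.inj _ _ (G.a_u k P) h)

lemma u_b_inj' {l l' : K} {P : S} (h : G.u (G.b l P) = G.u (G.b l' P)) : l = l' := by
  have h2 := G.inj _ _ h (by rw [G.b_v, G.b_v])
  exact (G.coords_unique P 0 l 0 l' (by rw [G.a_zero]; exact h2)).2

lemma v_a_inj' {k k' : K} {P : S} (h : G.v (G.a k P) = G.v (G.a k' P)) : k = k' :=
  G.symm.u_b_inj' h

/-- `a k (b l P) = (c k l)⁻¹ (b l (a k P))` -/
lemma ab_apply (k l : K) (P : S) : G.a k (G.b l P) = (G.c k l)⁻¹ (G.b l (G.a k P)) := by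
  have h : G.a k * G.b l = (G.c k l)⁻¹ * (G.b l * G.a k) := by
    rw [G.ba]; group
  exact congrArg (fun f : Equiv.Perm S => f P) h

lemma ba_apply (k l : K) (P : S) : G.b l (G.a k P) = G.c k l (G.a k (G.b l P)) := by
  have h : G.b l * G.a k = G.c k l * (G.a k * G.b l) := by
    rw [G.ba]; group
  exact congrArg (fun f : Equiv.Perm S => f P) h

/-- the rational identity with the central element `w = c k l` -/
lemma rat' (k l : K) (hk : k ≠ 0) (hl : l ≠ 0) (P : S) :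
    (G.u ((G.c k l)⁻¹ (G.b (-l) P)) - G.u (G.b l P)) *
      (G.v (G.c k l (G.a (-k) P)) - G.v (G.a k P)) =
      (G.u (G.b l P) - G.u P) * (G.v (G.a k P) - G.v P) := by
  have h := G.rat k l hk hl P
  have h1 : G.u (G.b (-l) (G.a k P)) = G.u ((G.c k l)⁻¹ (G.b (-l) P)) := by
    rw [G.ba_apply, G.c_neg_right, ← G.a_u k ((G.c k l)⁻¹ (G.b (-l) P)),
      G.Cen_a (G.Cen_inv (G.c_Cen k l))]
  have h2 : G.v (G.a (-k) (G.b l P)) = G.v (G.c k l (G.a (-k) P)) := by
    rw [G.ab_apply, G.c_neg_left, inv_inv, G.Cen_b (G.c_Cen k l), G.b_v]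
  rw [h1, h2] at h
  exact h

/-- T0: if `c k l = 1` with `k, l ≠ 0` then `b l` is AP -/
lemma T0b (k l : K) (hk : k ≠ 0) (hl : l ≠ 0) (hc : G.c k l = 1) : G.APb l := by
  intro P
  have h1 := G.rat' k l hk hl P
  have hc2 : G.c k (-l) = 1 := by rw [G.c_neg_right, hc, inv_one]
  have h2 := G.rat' k (-l) hk (neg_ne_zero.mpr hl) P
  rw [hc] at h1
  rw [hc2, neg_neg] at h2
  simp only [inv_one, Equiv.Perm.coe_one, id_eq] at h1 h2
  have hne : G.v (G.a k P) - G.v P ≠ 0 := by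
    intro h
    exact hk (G.v_a_inj (sub_eq_zero.mp h))
  have h3 := G.three
  have : (G.u P + G.u (G.b l P) + G.u (G.b (-l) P)) * (G.v (G.a k P) - G.v P) = 0 := by
    linear_combination (-1) * h1 - h2 + G.u P * (G.v (G.a k P) - G.v P) * h3
  exact (mul_eq_zero.mp this).resolve_right hne

lemma T0a (k l : K) (hk : k ≠ 0) (hl : l ≠ 0) (hc : G.c k l = 1) : G.APa k := by
  have h := G.symm.T0b l k hl hk (by rw [G.symm_c, hc, inv_one])
  exact h

/-- ISO trick: if a central `w1` acts on `P` as `a κ1` and `w P = b λ (a κ P)` with `w`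
central then `c κ1 λ = 1`. -/
lemma iso_a {w1 w : Equiv.Perm S} (h1 : G.Cen w1) (hw : G.Cen w) (P : S) (κ1 κ lam : K)
    (e1 : w1 P = G.a κ1 P) (e : w P = G.b lam (G.a κ P))
    (hcomm : w1 (w P) = w (w1 P)) : G.c κ1 lam = 1 := by
  have h2 : w1 (w P) = G.b lam (G.a κ (G.a κ1 P)) := by
    rw [e, G.Cen_b h1, G.Cen_a h1, e1]
  have h3 : w (w1 P) = G.a κ1 (G.b lam (G.a κ P)) := by
    rw [e1, G.Cen_a hw, e]
  rw [h2, h3, G.ab_apply] at hcomm
  have h4 : G.a κ (G.a κ1 P) = G.a κ1 (G.a κ P) :=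
    congrArg (fun f : Equiv.Perm S => f P) (G.a_comm κ κ1)
  rw [h4] at hcomm
  have h5 := G.Cen_semireg (G.Cen_inv (G.c_Cen κ1 lam)) _ hcomm.symm
  exact inv_eq_one.mp h5

end Grid

end Pool.Agent.TP3
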