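import Pool.Agent.Lib.MP_a1e562_co.Stm

/-! # Piece H2: all `a k` translate the rows -/

set_option autoImplicit false

namespace Pool.Agent.TP3

theorem s_H2 : S_H2 := by
  intro K S _ G hc hAP
  have h3 := G.three
  obtain ⟨P0⟩ := G.nonempty
  -- the values on the column of `P0`
  have hf : ∀ x y : K, G.v (G.a x P0) + G.v (G.a (x + y) P0) + G.v (G.a (x - y) P0) = 0 := by
    intro x y
    have h := hAP y (G.a x P0)
    have e1 : G.a y (G.a x P0) = G.a (x + y) P0 := by
      rw [add_comm, G.a_add]; rfl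
    have e2 : G.a (-y) (G.a x P0) = G.a (x - y) P0 := by
      rw [sub_eq_neg_add, G.a_add]; rfl
    rw [e1, e2] at h
    exact h
  have hst : ∀ s t : K, G.v (G.a s P0) + G.v (G.a t P0) + G.v (G.a (-s - t) P0) = 0 := by
    intro s t
    have h := hf (-s - t) (t - s)
    have e1 : -s - t + (t - s) = s := by linear_combination (-s) * h3
    have e2 : -s - t - (t - s) = t := by linear_combination (-t) * h3
    rw [e1, e2] at h
    linear_combination h
  have hadd : ∀ s t : K, G.v (G.a (s + t) P0) = G.v (G.a s P0) + G.v (G.a t P0) -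
      G.v (G.a 0 P0) := by
    intro s t
    have h1 := hst s t
    have h2 := hst (s + t) 0
    have e : -(s + t) - 0 = -s - t := by ring
    rw [e] at h2
    linear_combination h2 - h1
  refine ⟨fun k => G.v (G.a k P0) - G.v (G.a 0 P0), fun k P => ?_⟩
  obtain ⟨R, hR1, hR2⟩ := G.surj (G.u P0) (G.v P)
  obtain ⟨m, hm⟩ := G.a_tr P0 R hR1.symm
  obtain ⟨l, hl⟩ := G.b_tr R P hR2
  have e1 : G.v (G.a k P) = G.v (G.a k R) := by
    rw [← hl, G.ab_apply, hc, inv_one, Equiv.Perm.coe_one, id_eq, G.b_v]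
  have e2 : G.a k R = G.a (k + m) P0 := by
    rw [← hm, G.a_add]; rfl
  have e3 : G.v P = G.v (G.a m P0) := by rw [hm, hR2]
  rw [e1, e2, hadd, e3]
  ring

end Pool.Agent.TP3
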