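import Pool.Agent.Lib.MP_a1e562_co.GridBasic

/-!
# Statements of the pieces [TP ..] of Theorem A of MP_a1e562_co

THEOREM A. Every finite projective plane of characteristic 3 which is a translation plane
of dimension 2 over a field `K` in its kernel is desarguesian.

Every `def S_xx : Prop` below is one independent piece; its docstring contains the complete
proof.  Notation in the docstrings: a spread set `S` is a set of linear maps `U → U`.
-/

set_option autoImplicit false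

namespace Pool.Agent.TP3

open Configuration

/-! ## A. geometry -/

/-- [TP A1] (about 120 lines) In a plane of characteristic 3 every quadrangle lies in a `Sub4`.

Proof. Given `a b c d` let `C` be the set in the definition of `Char3` (the closure). `a,b,c,d ∈ C`
is clear. Let `T = {l | two distinct points of C on l}`. `C` is closed: if `l, m ∈ T`, `l ≠ m`,
`x ∈ l`, `x ∈ m` then for every pair `(S', T')` as in the definition `C ⊆ S'`, hence `l, m ∈ T'`
and so `x ∈ S'`; this is `Sub4.meet`.  Make the subtypes `{x // x ∈ C}`, `{l // l ∈ T}` into a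
`Configuration.ProjectivePlane` (membership inherited; `mkPoint`, `mkLine` from the plane, which
stay in `C`, `T` by closedness; `eq_or_eq` inherited; `exists_config` from the quadrangle:
`p₁ = a, p₂ = b, p₃ = c` and suitable joining lines, use `d`).  `C` is finite with 13 points, so
`Configuration.ProjectivePlane.card_points` gives `n^2+n+1 = 13`, `n = 3`, and
`Configuration.ProjectivePlane.pointCount_eq` says every line of `T` has `n+1 = 4` points of `C`;
this is `Sub4.four` (every line with two points of `C` is in `T`). -/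
def S_A1 : Prop :=
  ∀ (P L : Type) [Membership P L] [ProjectivePlane P L] [Finite P], Char3 P L → Quad4 P L

/-- [TP A2] (about 150 lines) The incidence theorem.

Proof. Notation as in `Inc`. First `Z ∉ x0` (else `x0 = l`), `A0 ≠ Z`, `C1 ∉ x0`, `C0 ∉ y0`
(else `y0 = l`, `A0 ∈ l ∩ m`, `A0 = Z ∈ x0`), `Z ∉ y0`; `B1 ≠ Z`; `B1 ∉ x0` (else `x0`, `y0`
share `A0 ≠ B1`, so `x0 = y0 ∋ C0, C1`, `x0 = l`).  So `Z, C0, A0, B1` is a quadrangle; take `C`
from `Quad4`. In `C`: the lines `l, m, r, x0, y0 = A0B1, x1 = C0B1` meet `C` twice, then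
`C1 = l ∩ y0 ∈ C`, `A1 = x1 ∩ m ∈ C` (`A1 ≠ A0, Z`), `y1 = C1A1`, `B2 = y1 ∩ r ∈ C`, `x2 = C0B2`,
`A2 = x2 ∩ m ∈ C`, `y2 = C1A2`, `B0 = x0 ∩ r ∈ C`, and `D0, D1, D2 ∈ C`.
(Every line through two of the points of `C` has exactly 4 points of `C`: 4-count.)
`m ∩ C = {Z, A0, A1, A'}` (three distinct points known, the 4-count gives the fourth `A'`),
`r ∩ C = {Z, B0, B1, B'}`. Let `x' = C0A'`, `y' = C1A'`. `x' ∩ r ∈ C` is not `Z`, not `B0`
(`x' ≠ x0` as `A' ≠ A0`), not `B1` (`x' ≠ x1`), so it is `B'`. `y' ∩ r ∈ C` is not `Z`, not `B1`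
(`y' ≠ y0`), and not `B'` (else `x' = y'` contains `A' ≠ B'`, `C0`, `C1`, so `x' = l`, `A' ∈ l ∩ m`),
so it is `B0`.  `y1 ∩ r = B2` is not `Z`, not `B1` (`y1 ≠ y0`), not `B0` (`y1 ≠ y'`), so
`B2 = B'`. Hence `x2 = x'` (both contain `C0, B'`), `A2 = A'`, `y2 = y'`, `B0 ∈ y2`.
`x0, x1, x2` are distinct, `y0, y1, y2` are distinct.
`D0 = x0 ∩ y1` is different from `C0`, `A0` (`A0 ∈ y0`), `B0` (`B0 ∈ y2`), `D1 = x1 ∩ y2` is different
from `C0, A1 (∈ y1), B1 (∈ y0)`, `D2 = x2 ∩ y0` is different from `C0, A2 (∈ y2), B2 (∈ y1)`.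
`D0 ∉ l, m, r` (the points of `x0` on `l, m, r` are `C0, A0, B0`). Let `g = ZD0`; `g ≠ l, m, r`.
`g ∩ x1 ∈ C` and `x1 ∩ C = {C0, A1, B1, D1}`; it is not `C0, A1, B1` (`g ≠ l, m, r`), so it is
`D1`; likewise `g ∩ x2 = D2`. -/
def S_A2 : Prop :=
  ∀ (P L : Type) [Membership P L] [ProjectivePlane P L], Quad4 P L → Inc P L

/-- [TP A3] (about 100 lines) `K` has characteristic three.

Proof. Let `e ≠ 0` in `U` (`finrank = 2`). The points `pt 0 0, pt e e, Zp 0, Z` form a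
quadrangle (lines: `pt 0 0, pt e e` on `ln 1 0` only; `Zp 0, Z` on `inf` only, etc.); take `C` from
`Quad4`. `inf`, `ln 1 0`, `vt 0`, `ln 0 0` meet `C` twice, `Zp 1 = inf ∩ ln 1 0 ∈ C`.
Let `Y = {y | pt 0 y ∈ C}`. `vt 0` has 4 points of `C`, one is `Z`, the others are `pt 0 y`:
`Y` has 3 elements.  `0 ∈ Y`, and if `y, y' ∈ Y` then `y + y' ∈ Y`: if `y = 0` or `y' = 0` clear;
`pt y y = ln 0 y ∩ ln 1 0 ∈ C` (`ln 0 y ∋ Zp 0, pt 0 y`), `vt y ∋ Z, pt y y`,
`ln 1 y' ∋ Zp 1, pt 0 y'`, so `pt y (y+y') = vt y ∩ ln 1 y' ∈ C`, `ln 0 (y+y') ∋ Zp 0, pt y (y+y')`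
meets `vt 0` in `pt 0 (y+y') ∈ C`.  `e ∈ Y` (`pt 0 e = ln 0 e ∩ vt 0`, `ln 0 e ∋ Zp 0, pt e e`).
`Y` is finite, closed under addition, `0 ∈ Y`, `|Y| = 3`, so it is a subgroup of order 3 and
`3 e = 0` (or: translation by `e` permutes `Y = {0, e, f}` without fixed point; `0 ↦ e`,
`e ↦ 2e ∈ {0, f}`; `2e = 0` would give `f ↦ f + e ∈ {0,e,f}`, impossible; so `f = 2e`, and
`f + e ∈ Y` gives `3e = 0`).  Hence `3 = 0` in `K`. -/
def S_A3 : Prop :=
  ∀ (P L K U : Type) [Membership P L] [ProjectivePlane P L] [Field K] [AddCommGroup U]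
    [Module K U], Module.finrank K U = 2 → Coor P L K U → Quad4 P L → (3 : K) = 0

/-- [TP A4] (about 100 lines) The incidence theorem in coordinates.

Proof. Given `p, r, δ, x0, .., y2` as in `Hex`, apply `Inc` with `Z`, `l = vt 0`, `m = vt p`,
`r = vt r` (distinct since `0, p, r` are distinct), `C0 = pt 0 0`, `C1 = pt 0 (-δ)`,
`xi = ln xi 0`, `yi = ln yi (-δ)`, `Ai = pt p (xi p)`, `Bi = pt r (xi r)`,
`D0 = mkPoint (x0 ∩ y1)`, `D1 = x1 ∩ y2`, `D2 = x2 ∩ y0` (two lines always have a common point: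
if the lines are different use `mkPoint`, they are different as one contains `pt 0 0` and the other
does not). `A0 ∈ y0` is `x0 p = y0 p - δ` etc. The conclusion `B0 ∈ y2` is `x0 r = y2 r - δ`.
The line `g` contains `Z`, so `g = inf` or `g = vt γ`. If `g = vt γ`: `D0 ∈ vt γ ∩ ln x0 0` is an
affine point `pt γ (x0 γ)` (it is not `Z` or `Zp`), on `ln y1 (-δ)`: `x0 γ = y1 γ - δ`; similarly
for `D1, D2`.  If `g = inf`: `D0 ∈ inf ∩ ln x0 0` is `Zp x0`, and `Zp x0 ∈ ln y1 (-δ)` gives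
`x0 = y1`; similarly `x1 = y2`, `x2 = y0`. Then `x2 p = x0 p + δ`, `x0 p = x1 p + δ`,
`x2 r = x1 r + δ`, `x0 r = x2 r + δ`, `x1 p = x2 p + δ`, and `x1 r = y2 r = x0 r + δ`, so
`(x0 - x1) p = δ`, `(x0 - x1) r = -δ`, so `x0 (p + r) = x1 (p + r)` with `p + r ≠ 0`, `x0 = x1`,
`δ = 0`, contradiction. -/
def S_A4 : Prop :=
  ∀ (P L K U : Type) [Membership P L] [ProjectivePlane P L] [Field K] [AddCommGroup U]
    [Module K U] (C : Coor P L K U), Inc P L → Hex K U C.S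

/-- [TP A5] (about 100 lines) Exchange of the axes.

Proof. `pt' x y = pt y x`, `Z' = Zp 0`, `Zp' 0 = Z`, `Zp' M = Zp N` for `M ≠ 0`, `N ∈ C.S` the
inverse of `M` (if it exists; junk otherwise), `vt' c = ln 0 c`, `ln' 0 b = vt b`,
`ln' M b = ln N (-(N b))` for `M ≠ 0` with inverse `N ∈ C.S`, `inf' = inf`. Every nonzero `N ∈ C.S`
is injective (`uq` with `0 ∈ S`), hence bijective as `U` is finite-dimensional, so it has an inverse.
`ex` for `S'`: given `x ≠ 0`, `y`; if `y = 0` take `0`; else there is `N ∈ S` with `N y = x`, `N ≠ 0`,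
and `M = N⁻¹` has `M x = y`. `uq`: `M x = M' x = y` for `x ≠ 0`: if `y = 0` both are 0 (invertible
maps are injective); if `y ≠ 0` both are nonzero with `N y = x = N' y`, so `N = N'`. The incidence
conditions: `pt' x y ∈ ln' M b ↔ y = M x + b` as `pt y x ∈ ln N (-(N b)) ↔ x = N y - N b
↔ M x = y - b`. -/
def S_A5 : Prop :=
  ∀ (P L K U : Type) [Membership P L] [ProjectivePlane P L] [Field K] [AddCommGroup U]
    [Module K U], Module.finrank K U = 2 → ∀ C : Coor P L K U, ∃ C' : Coor P L K U,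
      C'.S = {M | M = 0 ∨ ∃ N ∈ C.S, N * M = 1 ∧ M * N = 1}

/-- [TP A6a] (about 150 lines, linear algebra) Normal form of a spread of `K^4`.

Proof. Choose `v1 ≠ 0`, `W1 ∈ 𝒮` containing it, `v2 ∉ W1`, `W0 ∋ v2`; `W0 ≠ W1`, `W1 ⊓ W0 = ⊥`,
so `IsCompl W0 W1` by dimensions. `v1 + v2 ∉ W1, W0`; take `W2 ∈ 𝒮` containing `v1 + v2`; `W2` is
different from `W0, W1`, hence complementary to both. The projections `W2 → W0` (along `W1`) and
`W2 → W1` (along `W0`) are bijective. Let `θ : (Fin 2 → K) ≃ₗ W2` (dimension 2). Define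
`e.symm (x, y) = π0 (θ x) + π1 (θ y)`, where `π0, π1` are the projections to `W0`, `W1`; this is a
linear bijection `U × U → K^4` under which `W0 = {(x,0)}`, `W1 = {(0,y)}`, `W2 = {(x,x)}`.
Let `S = {M | the subspace {v | (e v).2 = M (e v).1} is in 𝒮}`. `0, 1 ∈ S` from `W0, W2`. If `W ∈ 𝒮`,
`W ≠ W1`, then `W ⊓ W1 = ⊥`, so the first coordinate is injective on `W`, thus bijective `W → U`
(dimension 2), and `W` is the graph of a linear map. `ex`: given `x ≠ 0`, `y`: the vector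
`e.symm (x,y)` lies in some `W ∈ 𝒮`, `W ≠ W1` since `x ≠ 0`, so it is a graph. `uq`: `M x = N x`
gives a common nonzero vector `(x, M x)`, so the two subspaces are equal and `M = N`. -/
def S_A6a : Prop :=
  ∀ (K : Type) [Field K] (𝒮 : Set (Submodule K (Fin 4 → K))),
    (∀ W ∈ 𝒮, Module.finrank K W = 2) →
    (∀ W ∈ 𝒮, ∀ W' ∈ 𝒮, ∀ v : Fin 4 → K, v ≠ 0 → v ∈ W → v ∈ W' → W = W') →
    (∀ v : Fin 4 → K, v ≠ 0 → ∃ W ∈ 𝒮, v ∈ W) →
    ∃ (e : (Fin 4 → K) ≃ₗ[K] ((Fin 2 → K) × (Fin 2 → K))) (S : Set (Module.End K (Fin 2 → K))),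
      SpreadSet K (Fin 2 → K) S ∧
      ∀ W : Submodule K (Fin 4 → K), W ∈ 𝒮 ↔
        (∀ v, v ∈ W ↔ (e v).1 = 0) ∨ ∃ M ∈ S, ∀ v, v ∈ W ↔ (e v).2 = M (e v).1

/-- [TP A6b] (about 200 lines) Coordinates of the plane.

Proof. Get `K, ℓ, φ, 𝒮` from `TranslationDimTwo`. `K` is finite since `Fin 4 → K` is equivalent to
a subtype of `P`. Spread properties needed for the hypothesis: if `0 ≠ v ∈ W ∩ W'` then the lines
`m, m'` given for `(W, a = 0)` and `(W', a = 0)` both contain the two points `φ⁻¹ 0`, `φ⁻¹ v`, so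
`m = m'` and `W = W'` (all points off `ℓ` are compared). If `v ≠ 0` the line joining `φ⁻¹ 0`,
`φ⁻¹ v` is not `ℓ`, so it is a coset `a + W` containing `0` and `v`; then `v ∈ W`. Let `e, S` be
from the hypothesis (A6a) and let `x ↦ e (φ x)` be the coordinates of a point off `ℓ`. Put
`pt x y = φ⁻¹ (e⁻¹ (x,y))`, `inf = ℓ`, `vt c` = the line of `(W1, e⁻¹ (c,0))` where `W1` is the member
`(e v).1 = 0` (it is in `𝒮` by the iff; as a submodule it is the kernel of `v ↦ (e v).1`),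
`ln M b` = the line of `(W_M, e⁻¹ (0,b))` for `M ∈ S`, `Z = vt 0 ∩ ℓ`, `Zp M = ln M 0 ∩ ℓ` (mkPoint).
Two distinct cosets of the same `W` are disjoint, so their lines meet on `ℓ`; hence all lines
belonging to the same `W` meet `ℓ` in the same point. This gives `Z ∈ vt c`, `Zp M ∈ ln M b`.
If `Zp M ∈ ln N b` then `Zp M ∈ ln N 0` as well, and `ln M 0`, `ln N 0` share `Zp M` and `pt 0 0`, so
they are equal and `M = N`; similarly `Z ∉ ln M b`, `Zp M ∉ vt c` (`W1 ≠ W_M`: compare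
`(0, y)`). Every point `z` of `ℓ` is `Z` or some `Zp M`: the line joining `z` and `pt 0 0` is not
`ℓ`, so it is a coset of a member of `𝒮`, i.e. the line `vt 0` or `ln M 0`. Every line `≠ ℓ` is a
coset of a member of `𝒮`, i.e. some `vt c` or `ln M b` (compare affine points; two lines with the
same affine points are equal, as a coset of a 2-dimensional space has at least two points). -/
def S_A6b : Prop :=
  S_A6a → ∀ (P L : Type) [Membership P L] [ProjectivePlane P L] [Finite P],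
    TranslationDimTwo P L →
      ∃ (K : Type) (_ : Field K) (_ : Finite K), Nonempty (Coor P L K (Fin 2 → K))

/-- [TP A7a] (about 60 lines) The field `F = S`.

Proof. `S` is the carrier of a subring of `Module.End K U`; it is commutative; every nonzero `M ∈ S`
has an inverse in `S`: take `e0 ≠ 0` in `U`, `M e0 ≠ 0` (`uq` with `0`), `N ∈ S` with `N (M e0) = e0`;
`N * M ∈ S` agrees with `1` at `e0`, so `N * M = 1 = M * N`. Let `F` be this subring with its field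
structure, `t : S ≃ F` the identity, `r : U ≃ F`, `r x` = the member of `S` with `(r x) e0 = x`
(bijective by `ex`, `uq`).  `r (M x + b) = M * r x + r b` since both sides are in `S` and agree at
`e0`. -/
def S_A7a : Prop :=
  ∀ (K U : Type) [Field K] [AddCommGroup U] [Module K U] (S : Set (Module.End K U)),
    Module.finrank K U = 2 → SpreadSet K U S →
    (∀ M ∈ S, ∀ N ∈ S, M + N ∈ S) → (∀ M ∈ S, -M ∈ S) → (∀ M ∈ S, ∀ N ∈ S, M * N ∈ S) →
    (∀ M ∈ S, ∀ N ∈ S, M * N = N * M) →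
    ∃ (F : Type) (_ : Field F) (r : U ≃ F) (t : S ≃ F),
      ∀ (M : S) (x b : U), r ((M : Module.End K U) x + b) = t M * r x + r b

/-- [TP A7b] (about 250 lines) A plane with coordinates over a field is desarguesian.

Proof. `r 0 = 0` (take `M = 0`... : `r (M x + b) = t M * r x + r b` with `x = b = 0`, `M` arbitrary gives
`r 0 = t M * r 0 + r 0` for all `M`, so `r 0 = 0`), and `r (M x) = t M * r x`, `r (x + y)`: with
`M = 1`. Points: `pt x y ↦ [1, r x, r y]`, `Zp M ↦ [0, 1, t M]`, `Z ↦ [0, 0, 1]`; bijective onto the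
points of `P(F^3)` (first nonzero coordinate normalised to 1). Lines: `inf ↦ {w | w 0 = 0}`,
`vt c ↦ {w | w 1 = r c * w 0}`, `ln M b ↦ {w | w 2 = t M * w 1 + r b * w 0}`; every 2-dimensional
subspace of `F^3` is exactly one of these (it is the kernel of a nonzero functional
`α w0 + β w1 + γ w2`; normalise `γ = -1`, or `γ = 0, β = -1`, or `γ = β = 0`).
Incidence is checked case by case with the axioms of `Coor`.  (Alternative for `g`: once `f` is a
bijection for which every line of `P` is mapped exactly onto the set of points of a 2-dimensional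
subspace, `g` is determined; injective since a line is determined by its points, surjective since a
2-dimensional subspace has two distinct points, whose joining line is mapped into it.) -/
def S_A7b : Prop :=
  ∀ (P L K U : Type) [Membership P L] [ProjectivePlane P L] [Field K] [AddCommGroup U]
    [Module K U] (C : Coor P L K U) (F : Type) [Field F] (r : U ≃ F) (t : C.S ≃ F),
    (∀ (M : C.S) (x b : U), r ((M : Module.End K U) x + b) = t M * r x + r b) →
    Desarguesian P L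

/-! ## B. additive spread sets closed under inversion are fields -/

/-- [TP B1] (about 50 lines) Inverse closure.

Proof. Let `S' = {M | M = 0 ∨ ∃ N ∈ S, N M = M N = 1}`. Let `B ∈ S`, `B ≠ 0`. Claim: the inverse of `B` is
in `S`. Nonzero members of `S` are injective (`uq` with `0`), hence invertible (finrank 2). If `B = 1`
clear. Otherwise `A = B - 1 ∈ S`, `A ≠ 0` (`-1 ∈ S` by `hneg`), `A⁻¹ ∈ S'`, `1 ∈ S'`, so
`1 + A⁻¹ ∈ S'`, and `1 + A⁻¹ = A⁻¹ (A + 1) = A⁻¹ B` is invertible, hence nonzero, so its inverse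
`B⁻¹ A = B⁻¹ (B - 1) = 1 - B⁻¹` is in `S`. Hence `B⁻¹ = 1 - (1 - B⁻¹) ∈ S`. -/
def S_B1 : Prop :=
  ∀ (K U : Type) [Field K] [AddCommGroup U] [Module K U] (S : Set (Module.End K U)),
    Module.finrank K U = 2 → SpreadSet K U S →
    (∀ M ∈ S, ∀ N ∈ S, M + N ∈ S) → (∀ M ∈ S, -M ∈ S) →
    (∀ M ∈ {M : Module.End K U | M = 0 ∨ ∃ N ∈ S, N * M = 1 ∧ M * N = 1},
      ∀ N ∈ {M : Module.End K U | M = 0 ∨ ∃ N ∈ S, N * M = 1 ∧ M * N = 1},
        M + N ∈ {M : Module.End K U | M = 0 ∨ ∃ N ∈ S, N * M = 1 ∧ M * N = 1}) →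
    ∀ M ∈ S, M ≠ 0 → ∃ N ∈ S, N * M = 1 ∧ M * N = 1

/-- [TP B2] (about 60 lines) Hua's identity: `A B A ∈ S`.

Proof. Work in any ring `R`. `S` is closed under `+`, `-`, inverses of nonzero elements.
If `A = 0` or `B = 0`: `0 ∈ S`. Let `A, B ≠ 0` with inverses `A', B' ∈ S`.
If `B' = A` then `B = A'`, `A B A = A ∈ S`. Otherwise `C = B' - A ∈ S` is nonzero, with inverse
`C' ∈ S`; `D = A' + C' ∈ S`.  `A D C = (1 + A C') C = C + A = B'`, so `D = A' B' C'` is
invertible, with inverse `C B A ∈ S`. Now `C B A = (B' - A) B A = A - A B A`, so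
`A B A = A - C B A ∈ S`. -/
def S_B2 : Prop :=
  ∀ (R : Type) [Ring R] (S : Set R), (0 : R) ∈ S →
    (∀ M ∈ S, ∀ N ∈ S, M + N ∈ S) → (∀ M ∈ S, -M ∈ S) →
    (∀ M ∈ S, M ≠ 0 → ∃ N ∈ S, N * M = 1 ∧ M * N = 1) →
    ∀ A ∈ S, ∀ B ∈ S, A * B * A ∈ S

/-- matrix version of an additive spread set closed under `A B A` -/
structure MatS (K : Type) [Field K] (T : Set (Matrix (Fin 2) (Fin 2) K)) : Prop where
  one : 1 ∈ T
  add : ∀ A ∈ T, ∀ B ∈ T, A + B ∈ T
  neg : ∀ A ∈ T, -A ∈ T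
  tri : ∀ A ∈ T, ∀ B ∈ T, A * B * A ∈ T
  uq : ∀ A ∈ T, ∀ B ∈ T, A 0 0 = B 0 0 → A 1 0 = B 1 0 → A = B
  ex : ∀ α γ : K, ∃ A ∈ T, A 0 0 = α ∧ A 1 0 = γ
  det : ∀ A ∈ T, A ≠ 0 → A.det ≠ 0

/-- [TP B3] (about 120 lines) The members of `T` with first column `(k, 0)`.

Proof. For `k` let `X k ∈ T` be the member with first column `(k,0)` (`ex`, `uq`); write
`X k = !![k, c k; 0, s k]`.  `X (k+l) = X k + X l` (`uq`), so `c, s` are additive; `X 1 = 1`, so
`s 1 = 1`, `c 1 = 0`. `X k * X k = X k * 1 * X k ∈ T` has first column `(k², 0)`, so it is `X (k²)`.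
Powers: `(X k)^(n+2) = X k * (X k)^n * X k ∈ T` by induction, first column `(k^(n+2), 0)`, so
`(X k)^n = X (k^n)` for all `n`. `K` is finite, so `Kˣ` is cyclic with a generator `θ`; for nonzero
`k = θ^i`, `l = θ^j`: `X k * X l = (X θ)^(i+j) = X (k l)`; for `k = 0` or `l = 0`, `X 0 = 0`. So
`X` is multiplicative: `s (k l) = s k * s l` and `c (k l) = k * c l + c k * s l`. -/
def S_B3 : Prop :=
  ∀ (K : Type) [Field K] [Finite K] (T : Set (Matrix (Fin 2) (Fin 2) K)), MatS K T →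
    ∃ (s : K →+* K) (c : K → K), (∀ k, !![k, c k; 0, s k] ∈ T) ∧
      (∀ k l, c (k + l) = c k + c l) ∧ (∀ k l, c (k * l) = k * c l + c k * s l)

/-- [TP B4] (about 30 lines) Derivations of a finite field vanish.

Proof. `c (k^n) = n * k^(n-1) * c k` by induction (`c 1 = 0` since `c (1*1) = c 1 + c 1`). With
`q = card K`, `k^q = k`, and `(q : K) = 0`. -/
def S_B4 : Prop :=
  ∀ (K : Type) [Field K] [Finite K] (c : K → K), (∀ k l, c (k + l) = c k + c l) →
    (∀ k l, c (k * l) = k * c l + c k * l) → ∀ k, c k = 0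

/-- [TP B5] (about 60 lines) If the scalar matrices are in `T` then `T` is commutative and closed
under multiplication.

Proof. `A B + B A = (A+B) 1 (A+B) - A 1 A - B 1 B ∈ T`. With `B = k • 1 = !![k,0;0,k]`:
`2 k A ∈ T` for all `k`, and `2 ≠ 0`, so `k • A ∈ T` for all `k ∈ K`, `A ∈ T`. Let `J ∈ T` have first
column `(0,1)`. For `A ∈ T` the matrix `A 0 0 • 1 + A 1 0 • J ∈ T` has the same first column, so
`A = A 0 0 • 1 + A 1 0 • J`. So all members commute, and `A * B` is a combination of `1, J, J²`,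
`J² = J 1 J ∈ T`. -/
def S_B5 : Prop :=
  ∀ (K : Type) [Field K] (T : Set (Matrix (Fin 2) (Fin 2) K)), (2 : K) ≠ 0 → MatS K T →
    (∀ k : K, !![k, 0; 0, k] ∈ T) → ∀ A ∈ T, ∀ B ∈ T, A * B ∈ T ∧ A * B = B * A

/-- [TP B6] (about 100 lines) If `s ≠ id` the matrices `!![k, c k; 0, s k]` can be diagonalised.

Proof. From `c (k l) = c (l k)`: `k c l + c k s l = l c k + c l s k`, so
`c l (k - s k) = c k (l - s l)`. Choose `k0` with `s k0 ≠ k0`, `t = c k0 / (k0 - s k0)`; then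
`c l = t (l - s l)` for all `l`. Let `g = !![1, t; 0, 1]`, `g⁻¹ = !![1, -t; 0, 1]`; then
`!![k, c k; 0, s k] = g⁻¹ * !![k, 0; 0, s k] * g`  (check: `!![1,-t;0,1] * !![k, k t; 0, s k]
= !![k, k t - t s k; 0, s k]`). Put `T' = {g * A * g⁻¹ | A ∈ T}`. `g` fixes the first basis vector,
so the first column of `g A g⁻¹` is `g` times the first column of `A`: `(α + t γ, γ)`; hence
`ex`, `uq`. The other properties are invariant under conjugation. -/
def S_B6 : Prop :=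
  ∀ (K : Type) [Field K] (T : Set (Matrix (Fin 2) (Fin 2) K)), MatS K T →
    ∀ (s : K →+* K) (c : K → K), (∀ k, !![k, c k; 0, s k] ∈ T) →
      (∀ k l, c (k * l) = k * c l + c k * s l) → (∃ k, s k ≠ k) →
      ∃ T' : Set (Matrix (Fin 2) (Fin 2) K), MatS K T' ∧ ∀ k, !![k, 0; 0, s k] ∈ T'

/-- [TP B7] (about 100 lines) With `diag(k, s k) ∈ T`, `s ≠ id`, characteristic 3: members of `T`
with zero first diagonal entry have zero second diagonal entry.

Proof. For `γ` let `M γ = !![0, β γ; γ, δ γ] ∈ T` (`ex`, `uq`); `β, δ` additive. With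
`D = diag(k, s k)`: `D M + M D ∈ T` (polarise `A 1 A`), it equals
`!![0, (k + s k) β; (k + s k) γ, 2 s k δ]`, so `δ ((k + s k) γ) = 2 s k δ γ = - s k δ γ`;
`D M D ∈ T` equals `!![0, k s k β; k s k γ, (s k)² δ]`, so `δ (k s k γ) = (s k)² δ γ`. Put
`t = k + s k`, `n = k s k`. Then `δ (t² γ) = (s k)² δ γ` and
`δ ((t² - 4 n) γ) = (s k)² δ γ - 4 (s k)² δ γ = -3 (s k)² δ γ = 0` for all `γ`, where
`t² - 4 n = (k - s k)²`. Choose `k` with `s k ≠ k`; then `(k - s k)² γ` is arbitrary, so `δ = 0`. -/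
def S_B7 : Prop :=
  ∀ (K : Type) [Field K] (T : Set (Matrix (Fin 2) (Fin 2) K)), (3 : K) = 0 → MatS K T →
    ∀ s : K →+* K, (∀ k, !![k, 0; 0, s k] ∈ T) → (∃ k, s k ≠ k) →
      ∀ A ∈ T, A 0 0 = 0 → A 1 1 = 0

/-- [TP B8] (about 150 lines) The shape of the members with zero diagonal.

Proof. For `γ` let `M γ = !![0, β γ; γ, 0] ∈ T` (B7 hypothesis `h7`); `β` additive, and `β γ ≠ 0` for
`γ ≠ 0` (`det`). With `D = diag(k, s k)`: `M D M ∈ T` equals `diag(β γ * s k * γ, γ * k * β γ)`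
(first column `(β γ γ s k, 0)`), which must be the member `diag(x, s x)` with `x = β γ γ s k` (`uq`):
`s (β γ * γ * s k) = γ k β γ` for all `k, γ`.  With `k = 1`: `s (γ β γ) = γ β γ` (1). Dividing (for
`γ = 1`, `β 1 ≠ 0`): `s (s k) = k` (2).  Put `y = β 1`, so `s y = y` by (1).
As in B7, `D M + M D ∈ T`: `β ((k + s k) γ) = (k + s k) β γ` (3). Polarise (1) with `γ` and `1`:
`s (γ y + β γ) = γ y + β γ` (4), i.e. `s (β γ) = β γ + γ y - s γ * y`. From (1) for `γ`: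
`s γ * s (β γ) = γ β γ`, so `s γ (β γ + y (γ - s γ)) = γ β γ`, i.e.
`(γ - s γ) β γ = s γ * y * (γ - s γ)`. So if `s γ ≠ γ` then `β γ = y * s γ`. If `s γ = γ`, choose `κ`
with `s κ ≠ κ`; `γ + κ` and `κ` are not fixed, so `β γ = β (γ+κ) - β κ = y s γ`. So
`β γ = y * s γ` for all `γ`. -/
def S_B8 : Prop :=
  ∀ (K : Type) [Field K] (T : Set (Matrix (Fin 2) (Fin 2) K)), (2 : K) ≠ 0 → MatS K T →
    ∀ s : K →+* K, (∀ k, !![k, 0; 0, s k] ∈ T) → (∃ k, s k ≠ k) →
      (∀ A ∈ T, A 0 0 = 0 → A 1 1 = 0) →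
      (∀ k, s (s k) = k) ∧ ∃ y : K, y ≠ 0 ∧ s y = y ∧ ∀ γ : K, !![0, y * s γ; γ, 0] ∈ T

/-- [TP B9] (about 80 lines) The norm is surjective.

Proof. `K` finite of odd characteristic, `s` an involution `≠ id` with fixed field `K0`. Let
`z = k - s k ≠ 0`, `s z = -z`, `d = z² ∈ K0`. For `a, b ∈ K0` and `α = a + b z`,
`α * s α = a² - d b²`. By `FiniteField.exists_root_sum_quadratic` over the finite field `K0`
(odd cardinality) there are `a, b ∈ K0` with `a² + (- d b² - y) = 0`. (Or: `Kˣ` is cyclic of order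
`q0² - 1`, `s x = x^q0`, and `x ↦ x^(q0+1)` maps onto the subgroup of order `q0 - 1`.) -/
def S_B9 : Prop :=
  ∀ (K : Type) [Field K] [Finite K], (2 : K) ≠ 0 → ∀ s : K →+* K, (∀ k, s (s k) = k) →
    (∃ k, s k ≠ k) → ∀ y : K, s y = y → ∃ α : K, α * s α = y

/-- [TP B10] (about 100 lines) Transfer between endomorphisms of `K^2` and matrices: conclusion for
spread sets, given the matrix statements B3-B9.

Proof. First `hM` (matrix statement): if `MatS K T`, `K` finite, `3 = 0`, then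
`A * B ∈ T ∧ A * B = B * A` for `A, B ∈ T`. Take `s, c` from B3. If `s k = k` for all `k`: `c = 0` by
B4, so the scalar matrices are in `T`, B5. Otherwise B6 gives `T'` with `diag(k, s k) ∈ T'`, B7, B8
give `y`, and B9 gives `α` with `α s α = y`; the matrix
`!![α, 0; 0, s α] + !![0, y * s 1; 1, 0] = !![α, y; 1, s α] ∈ T'` is nonzero with determinant
`α s α - y = 0`, contradiction.
Then for `S ⊆ Module.End K (Fin 2 → K)` let `T = {LinearMap.toMatrix' M | M ∈ S}`. `uq`, `ex` are the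
spread property at the first basis vector, `det`: nonzero members are injective. -/
def S_B10 : Prop :=
  S_B3 → S_B4 → S_B5 → S_B6 → S_B7 → S_B8 → S_B9 →
  ∀ (K : Type) [Field K] [Finite K] (S : Set (Module.End K (Fin 2 → K))), (3 : K) = 0 →
    SpreadSet K (Fin 2 → K) S → (∀ M ∈ S, ∀ N ∈ S, M + N ∈ S) → (∀ M ∈ S, -M ∈ S) →
    (∀ A ∈ S, ∀ B ∈ S, A * B * A ∈ S) →
    ∀ A ∈ S, ∀ B ∈ S, A * B ∈ S ∧ A * B = B * A

/-! ## C. the grid of a spread set -/

/-- [TP C1] (about 60 lines) `Hex` gives the cube relation and the rational identity.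

Proof. Apply `Hex` with `k⁻¹ • p`, `l⁻¹ • r` (independent) and `δ`: `y0 (k⁻¹ p) = x0 (k⁻¹ p) + δ` etc.
We get `y2 r = x0 r + l δ` and `γ` with `y1 γ = x0 γ + δ`, `y2 γ = x1 γ + δ`, `y0 γ = x2 γ + δ`. Put
`U i = η (x i p)`, `V i = η (x i r)`; as `η δ = 0`: `η (y i p) = U i`, `η (y0 r) = V 1`,
`η (y1 r) = V 2`, `η (y2 r) = V 0`.  Write `γ = α p + β r` (`p, r` is a basis of `U`, finrank 2);
`γ ≠ 0` since `y1 0 = x0 0 + δ` is impossible, so `(α, β) ≠ 0`.
Apply `η`: `α (U 2 - U 1) + β (V 0 - V 1) = 0` and `α (U 0 - U 2) + β (V 1 - V 2) = 0`, so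
`(U 2 - U 1) (V 1 - V 2) = (V 0 - V 1) (U 0 - U 2)`, which is the claimed identity
`(U 1 - U 2) (V 2 - V 1) = (U 2 - U 0) (V 1 - V 0)`. -/
def S_C1 : Prop :=
  ∀ (K U : Type) [Field K] [AddCommGroup U] [Module K U] (S : Set (Module.End K U)),
    Module.finrank K U = 2 → Hex K U S →
    ∀ (p r δ : U) (η : U →ₗ[K] K) (k l : K), LinearIndependent K ![p, r] → δ ≠ 0 → η δ = 0 →
      k ≠ 0 → l ≠ 0 →
      ∀ x0 ∈ S, ∀ x1 ∈ S, ∀ x2 ∈ S, ∀ y0 ∈ S, ∀ y1 ∈ S, ∀ y2 ∈ S,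
        y0 p = x0 p + k • δ → y0 r = x1 r + l • δ → y1 p = x1 p + k • δ →
        y1 r = x2 r + l • δ → y2 p = x2 p + k • δ →
        y2 r = x0 r + l • δ ∧
          (η (x1 p) - η (y2 p)) * (η (x2 r) - η (y0 r)) =
            (η (y2 p) - η (x0 p)) * (η (y0 r) - η (x0 r))

/-- [TP C2] (about 150 lines) The grid.

Proof. `a k M` = the unique `N ∈ S` with `N p = M p + k • δ`, `b l M` = the unique `N ∈ S` with
`N r = M r + l • δ` (`p, r ≠ 0`); additive in `k`, inverse `a (-k)`. `u M = η (M p)`,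
`v M = η (M r)`. `inj`: if `η (M p) = η (N p)`, `η (M r) = η (N r)` then `(M - N) p = t δ`,
`(M - N) r = t' δ`; if `(t, t') ≠ 0` then `x = t' p - t r ≠ 0` has `M x = N x`, so `M = N`; if
`t = t' = 0` also `M = N` (`M p = N p`).  `surj`: `S` is in bijection with `U` (`M ↦ M p`), so it has
`|K|²` elements, and the injective map `M ↦ (u M, v M) ∈ K × K` is bijective. `a_tr`: `u M = u N`
gives `N p - M p = k δ`, `N = a k M`. `cube`: for `k, l ≠ 0` C1 with
`x0 = M`, `y0 = a k x0`, `x1 = b (-l) y0`, `y1 = a k x1`, `x2 = b (-l) y1`, `y2 = a k x2` gives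
`b (-l) y2 = x0`, i.e. `(b (-l) a k)^3 = 1`; replace `l` by `-l`. For `k = 0` or `l = 0` use `3 = 0`.
`rat`: with `x0 = M = P` in the notation above (and `(b (-l) a k)^3 = 1`): `x1 = b (-l) (a k P)`,
`y2 = b l P`, `x2 = a (-k) (b l P)`, `y0 = a k P`. -/
def S_C2 : Prop :=
  S_C1 → ∀ (K U : Type) [Field K] [Finite K] [AddCommGroup U] [Module K U]
    (S : Set (Module.End K U)), Module.finrank K U = 2 → (3 : K) = 0 → SpreadSet K U S →
    Hex K U S → ∀ (p r δ : U) (η : U →ₗ[K] K), LinearIndependent K ![p, r] → δ ≠ 0 →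
      (∀ x : U, η x = 0 ↔ ∃ t : K, x = t • δ) →
      ∃ G : Grid K S, (∀ M : S, G.u M = η ((M : Module.End K U) p)) ∧
        (∀ M : S, G.v M = η ((M : Module.End K U) r)) ∧
        (∀ (k : K) (M : S), (G.a k M : Module.End K U) p = (M : Module.End K U) p + k • δ) ∧
        (∀ (l : K) (M : S), (G.b l M : Module.End K U) r = (M : Module.End K U) r + l • δ)

/-! ## E. some commutator vanishes (lemmas of `GridBasic` are available) -/

/-- [TP E1] (about 60 lines)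

Proof. Suppose for all `l ≠ 0`, `c 1 l P = b λ (a κ P)` only with `κ ≠ 0`. For `l : K` let `κ l, λ l`
be the coordinates (`coords`) of `c 1 l P`. `κ` is injective: if `κ l = κ l'` and `m = l' - l ≠ 0`,
then `c 1 l' P = b (λ l' - λ l) (c 1 l P) = c 1 l (b (λ l' - λ l) P)` (`Cen_b`), so
`c 1 m P = b (λ l' - λ l) P` (`c_add_right`), coordinates with `κ = 0`, contradiction. As `K` is
finite `κ` is surjective; take `l` with `κ l = 1`, `w = c 1 l`, `w P = b λ (a 1 P)`. Let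
`Q = b l P`. `a 1 Q = w⁻¹ (b l (a 1 P)) = b l (w⁻¹ (a 1 P))` (`ab_apply`, `Cen_b`), and
`w⁻¹ (a 1 P) = b (-λ) P` from `a 1 P = b (-λ) (w P) = w (b (-λ) P)`. So `a 1 Q = b (-λ) Q`, hence
`v (a 1 Q) = v Q`, contradicting `v_a_inj` and `1 ≠ 0`. -/
def S_E1 : Prop :=
  ∀ (K S : Type) [Field K] [Finite K] (G : Grid K S) (P : S),
    ∃ l κ lam : K, l ≠ 0 ∧ G.c 1 l P = G.b lam (G.a κ P) ∧ κ = 0

/-- [TP E2] (about 60 lines)

Proof. `κ1 ≠ 0` (otherwise `w1 P0 = P0`, `w1 = 1` by `Cen_semireg`). Claim (*): if `w` is central,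
`Q : S`, `w Q = a κ1 Q`, `κ1 ≠ 0` then `u (c k l Q) = u Q` for all `k, l`. Let
`c k l Q = b λ (a κ Q)` (`coords`); `w` commutes with `c k l` (it commutes with all `a`, `b`),
so `iso_a` gives `c κ1 λ = 1`, hence `λ = 0` by hypothesis, so `u (c k l Q) = u (a κ Q) = u Q`.
Now let `Q` be arbitrary. Let `R` be the point with `u R = u Q`, `v R = v P0` (`surj`), `R = b m P0`
(`b_tr`). `w = (c κ1 m)⁻¹ * w1` is central and `w R = (c κ1 m)⁻¹ (b m (a κ1 P0)) = a κ1 R`
(`ba_apply`). So `u (c k l R) = u R` by (*), and `u (c k l Q) = u (c k l R) = u R = u Q` by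
`Cen_u`. -/
def S_E2 : Prop :=
  ∀ (K S : Type) [Field K] (G : Grid K S) (w1 : Equiv.Perm S) (P0 : S) (κ1 : K),
    (∀ k l : K, k ≠ 0 → l ≠ 0 → G.c k l ≠ 1) → G.Cen w1 → w1 ≠ 1 → w1 P0 = G.a κ1 P0 →
    ∀ (k l : K) (Q : S), G.u (G.c k l Q) = G.u Q

/-- [TP E3] (about 120 lines)

Proof. Fix `P`; all points `Q` below are in the column `u Q = u P`, so `Q = a j P`. Let `l ≠ 0`,
`A = u (b l Q) - u Q`, `B = u (b (-l) Q) - u Q`. `A, B ≠ 0`, `A ≠ B` (`u_b_inj`, `u_b_inj'`, `2 ≠ 0`).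
They do not depend on `Q` in the column: `b l (a j P) = c j l (a j (b l P))` and `c j l` preserves
`u`. Put `ρ = A / (B - A)`; `ρ ≠ 0`, `ρ ≠ -1`. For `k ≠ 0`, `w = c k l`, `rat'` at `Q` reads (as `w⁻¹`
preserves `u`): `v (w (a (-k) Q)) = v (a k Q) + ρ (v (a k Q) - v Q)`. Replace `Q` by `a k Q` and
use `a (2k) = a (-k)`:  (1) `v (w Q) = v (a (-k) Q) + ρ (v (a (-k) Q) - v (a k Q))`.
The same with `-k` (`w` becomes `w⁻¹`, `c_neg_left`):
(2) `v (w⁻¹ Q) = v (a k Q) + ρ (v (a k Q) - v (a (-k) Q))`.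
Let `x = v (a k Q)`, `y = v (a (-k) Q)`, `z = v Q`. Apply (1) at `w Q`:
`v (w (w Q)) = v (a (-k) (w Q)) + ρ (v (a (-k) (w Q)) - v (a k (w Q)))`, where
`v (a (-k) (w Q)) = v (w (a (-k) Q)) = x + ρ (x - z)` and `v (a k (w Q)) = v (w (a k Q))
= z + ρ (z - y)` ((1) at `a (-k) Q`, `a k Q`; note `a (-k) (a (-k) Q) = a k Q`, `a k (a k Q) = a (-k) Q`).
`w² = w⁻¹` (`c_cube`), so with (2):
`x + ρ (x - z) + ρ (x + ρ (x - z) - z - ρ (z - y)) = x + ρ (x - y)`, which simplifies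
(`3 = 0`) to `ρ (1 + ρ) (x + y + z) = 0`, so `x + y + z = 0` (3). Then (1) becomes
`v (w Q) - z = (2 + ρ) (x - z)`. Put `τ l = 2 + ρ` for `l ≠ 0` (`≠ 1` as `ρ ≠ -1`), `τ 0 = 0`.
(For `k = 0` everything is trivial: `c 0 l = 1`.  (3) for `k = 0` is `3 v Q = 0`.) -/
def S_E3 : Prop :=
  ∀ (K S : Type) [Field K] (G : Grid K S), (∀ (k l : K) (Q : S), G.u (G.c k l Q) = G.u Q) →
    ∀ P : S, ∃ τ : K → K, (∀ l, τ l ≠ 1) ∧
      (∀ (k l : K) (Q : S), G.u Q = G.u P →
        G.v (G.c k l Q) - G.v Q = τ l * (G.v (G.a k Q) - G.v Q)) ∧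
      (∀ (k : K) (Q : S), G.u Q = G.u P → G.v Q + G.v (G.a k Q) + G.v (G.a (-k) Q) = 0)

/-- [TP E4] (about 60 lines)

Proof. Take any `P` and `τ` from E3. `τ` is additive: with `w = c 1 l`, `w' = c 1 l'`,
`x = v (a 1 P)`, `y = v (a (-1) P)`, `z = v P`, `x + y + z = 0`, `x ≠ z`:
`v (w' (w P)) - v (w P) = τ l' (v (a 1 (w P)) - v (w P))` (the point `w P` is in the column) and
`v (a 1 (w P)) = v (w (a 1 P)) = x + τ l (y - x)` (`a 1 (a 1 P) = a (-1) P`),
`v (w P) = z + τ l (x - z)`, difference `x - z + τ l (y - x - x + z) = x - z + τ l (x + y + z)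
= x - z`. So `τ (l + l') (x - z) = (τ l + τ l') (x - z)` (`c_add_right`). An additive map of the
finite group `K` that omits the value `1` is not surjective, hence not injective: there is
`l ≠ 0` with `τ l = 0`. Then `v (c 1 l P) = v P`, `u (c 1 l P) = u P`, so `c 1 l = 1`
(`Cen_semireg`). -/
def S_E4 : Prop :=
  S_E3 → ∀ (K S : Type) [Field K] [Finite K] (G : Grid K S),
    (∀ (k l : K) (Q : S), G.u (G.c k l Q) = G.u Q) → ∃ k l : K, k ≠ 0 ∧ l ≠ 0 ∧ G.c k l = 1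

/-! ## D. structure when `c k0 l0 = 1` -/

/-- [TP D1] (about 150 lines)

Proof. Let `a = a k0`, `b0 = b l0`, `w = c k0 l`, `d Q = u (b0 Q) - u Q ≠ 0`. By `T0b`,
`u Q + u (b0 Q) + u (b0⁻¹ Q) = 0` for all `Q`, so `d (b0 Q) = d Q` and `u (b (j l0) Q) = u Q + j d Q` for
`j = 0, 1, 2`.  `l ∉ {0, l0, -l0}` means `l + j l0 ≠ 0` for `j = 0, 1, 2`.
`c k0 (l + j l0) = w`. Fix `P`, put `M = v (a P) - v P`, `N = v (w (a⁻¹ P)) - v (a P)`.
`rat'` at `b (i l0) P` for the pair `(k0, l + j l0)`: the `v`-factors do not change when `P` is replaced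
by `b (i l0) P` (`a`, `w` commute with `b0` and `b0` preserves `v`), so
`(u (w⁻¹ (b (-l - j l0 + i l0) P)) - u (b (l + j l0 + i l0) P)) * N
   = (u (b (l + j l0 + i l0) P) - u (b (i l0) P)) * M`.
`M ≠ 0`, the right side is nonzero, so `N ≠ 0`; let `R = M / N ≠ 0`. Take `j = i`
(`i = 0, 1, 2`; `2 i l0 = - i l0`):
`u (w⁻¹ (b (-l) P)) = (1 + R) u (b (l - i l0) P) - R u (b (i l0) P)`. With
`X = b l P`: `u (b (-i l0) X) = u X - i d X`. Comparing `i = 0` and `i = 1`: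
`0 = -(1 + R) d X - R d P` (ii).  (iii) is `i = 0`: `u (w⁻¹ (b (-l) P)) = (1 + R) u X - R u P`.
(i): take `i = 0` and `j = 0, 1`: `u (w⁻¹ (b (-l - l0) P)) = (1 + R) u (b (l + l0) P) - R u P`, so with
`Y = w⁻¹ (b (-l) P)`: `u (b0⁻¹ Y) - u Y = - d Y` equals `(1 + R) d X`, so `d Y = R d P`.
From (ii) `1 + R ≠ 0`. With `E = 1/d`: (ii) `(1 + R) E P + R E X = 0`, i.e. `E P = - R (E P + E X)`;
(i) `E P = R E Y`. Hence `E Y + E P + E X = 0`. And (iii) times `E Y`:
`E Y u Y = (1 + R) E Y u X - R E Y u P`; `R E Y = E P`, and `(1 + R) E Y = E Y + E P = - E X`.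
So `E Y u Y + E X u X + E P u P = 0`. -/
def S_D1 : Prop :=
  ∀ (K S : Type) [Field K] (G : Grid K S) (k0 l0 : K), k0 ≠ 0 → l0 ≠ 0 → G.c k0 l0 = 1 →
    ∀ (l : K) (P : S), l ≠ 0 → l ≠ l0 → l ≠ -l0 →
      (G.u (G.b l0 ((G.c k0 l)⁻¹ (G.b (-l) P))) - G.u ((G.c k0 l)⁻¹ (G.b (-l) P)))⁻¹
        + (G.u (G.b l0 P) - G.u P)⁻¹ + (G.u (G.b l0 (G.b l P)) - G.u (G.b l P))⁻¹ = 0 ∧
      (G.u (G.b l0 ((G.c k0 l)⁻¹ (G.b (-l) P))) - G.u ((G.c k0 l)⁻¹ (G.b (-l) P)))⁻¹
          * G.u ((G.c k0 l)⁻¹ (G.b (-l) P))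
        + (G.u (G.b l0 P) - G.u P)⁻¹ * G.u P
        + (G.u (G.b l0 (G.b l P)) - G.u (G.b l P))⁻¹ * G.u (G.b l P) = 0

/-- [TP D2] (about 100 lines)

Proof. Let `E Q = (u (b l0 Q) - u Q)⁻¹`. If `l ∈ {0, l0, -l0}`: `c k0 l = 1`; by `T0b` (for `l = ±l0`)
`E (b l0 Q) = E Q`, so the sums are `3 E = 0` and `E * (sum of u) = 0`. Otherwise D1 for
`(k0, l)` and for `(-k0, l)` (`c (-k0) l = w⁻¹`, and `c (-k0) l0 = 1`; `E` does not depend on `k0`):
with `w = c k0 l`, `Y = w⁻¹ (b (-l) P)`, `Y' = w (b (-l) P)` we get `E Y = E Y'` and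
`E Y u Y = E Y' u Y'`, so `u Y = u Y'` (`E ≠ 0`). `P` is arbitrary, so `u (w⁻¹ Q) = u (w Q)` for all
`Q`, thus `u (w (w Q)) = u Q`... (put `Q := w Q'`), and `w w = w⁻¹` (`c_cube`), so `u (w⁻¹ Q) = u Q`,
and `u (w Q) = u Q`. Then `E (w⁻¹ Q) = E Q` (`w` commutes with `b l0`), so D1 gives the two
identities. -/
def S_D2 : Prop :=
  S_D1 → ∀ (K S : Type) [Field K] (G : Grid K S) (k0 l0 : K), k0 ≠ 0 → l0 ≠ 0 →
    G.c k0 l0 = 1 →
    (∀ (l : K) (P : S), G.u (G.c k0 l P) = G.u P) ∧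
    ∃ E : S → K, (∀ P, E P ≠ 0) ∧
      (∀ (l : K) (P : S), E P + E (G.b l P) + E (G.b (-l) P) = 0) ∧
      (∀ (l : K) (P : S), E P * G.u P + E (G.b l P) * G.u (G.b l P)
        + E (G.b (-l) P) * G.u (G.b (-l) P) = 0)

/-- [TP D3] (about 40 lines)

Proof. `l = 0` is trivial. Let `w = c k0 l`; it preserves `u` (hypothesis). Put `x = u (b l P)`,
`y = u (b (-l) P)`, `z = u P`, `x + y + z = 0`, so `y - x = x - z` (`3 = 0`), and `x ≠ z`. `rat'`:
`(y - x) (v (w (a (-k0) P)) - v (a k0 P)) = (x - z) (v (a k0 P) - v P)`, so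
`v (w (a (-k0) P)) = 2 v (a k0 P) - v P = - v (a k0 P) - v P = v (a (-k0) P)` by `T0a` for
`(k0, l0)`. So `w` fixes the point `a (-k0) P` (same `u`, same `v`), `w = 1` by `Cen_semireg`. -/
def S_D3 : Prop :=
  ∀ (K S : Type) [Field K] (G : Grid K S) (k0 l0 l : K) (P : S), k0 ≠ 0 → l0 ≠ 0 →
    G.c k0 l0 = 1 → (∀ (l : K) (P : S), G.u (G.c k0 l P) = G.u P) →
    G.u P + G.u (G.b l P) + G.u (G.b (-l) P) = 0 → G.c k0 l = 1

/-- [TP D4] (about 80 lines) normal form of `x ↦ u (b x P)`.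

Proof. (Jensen) If `f : K → K` satisfies `f x + f (x+y) + f (x-y) = 0` for all `x, y` (`3 = 0`, `2 ≠ 0`)
then `f x - f 0` is additive: `g = f - f 0` satisfies the same equation, `g (-y) = - g y`,
`g (x+y) + g (x-y) = 2 g x` (as `-1 = 2`), exchange `x, y` and add.
Apply it to `f x = E (b x P)` and `h x = E (b x P) * u (b x P)`, hence also to `h x - u P * f x`, which
vanishes at `0` and so is additive. Put `m x = f x / E P - 1` (additive), `n x = (h x - u P f x)/E P`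
(additive). Then `1 + m x = f x / E P ≠ 0` and
`u (b x P) - u P = (h x - u P f x)/ f x = n x / (1 + m x)`. `n x = 0` implies `u (b x P) = u P`,
`x = 0`.  If `u P + u (b x P) + u (b (-x) P) = 0`: `n x/(1 + m x) - n x/(1 - m x) = 0` (sum of the two
differences), so `n x * (-2 m x) = 0`, so `m x = 0` (for `x = 0`: `m 0 = 0`). -/
def S_D4 : Prop :=
  ∀ (K S : Type) [Field K] (G : Grid K S) (E : S → K), (∀ P, E P ≠ 0) →
      (∀ (l : K) (P : S), E P + E (G.b l P) + E (G.b (-l) P) = 0) →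
      (∀ (l : K) (P : S), E P * G.u P + E (G.b l P) * G.u (G.b l P)
        + E (G.b (-l) P) * G.u (G.b (-l) P) = 0) →
    ∀ P : S, ∃ n m : K → K, (∀ x y, n (x + y) = n x + n y) ∧ (∀ x y, m (x + y) = m x + m y) ∧
      (∀ x, 1 + m x ≠ 0) ∧ (∀ x, n x = 0 → x = 0) ∧
      (∀ x, G.u (G.b x P) - G.u P = n x / (1 + m x)) ∧
      (∀ x, G.u P + G.u (G.b x P) + G.u (G.b (-x) P) = 0 → m x = 0)

/-! ## J. not both directions can fail to be arithmetic progressions -/

/-- [TP J1] (about 40 lines)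

Proof. `w1 P` is in the column of `P`, so `w1 P = a κ1 P` (`a_tr`), `κ1 ≠ 0` (else `w1 = 1`). `w1`
commutes with `c k l`. `iso_a` (with `w = c k l`) gives `c κ1 λ = 1`. Similarly `w2 P = b λ2 P`, `λ2 ≠ 0`,
and: `w2 (c k l P) = c k l (w2 P)`, i.e. `b λ (a κ (b λ2 P)) = b λ2 (b λ (a κ P))`, so
`a κ (b λ2 P) = b λ2 (a κ P)` (`b_comm`, injectivity of `b λ`), so `(c κ λ2)⁻¹` fixes the point
`b λ2 (a κ P)` (`ab_apply`) and `c κ λ2 = 1`. -/
def S_J1 : Prop :=
  ∀ (K S : Type) [Field K] (G : Grid K S) (w1 w2 : Equiv.Perm S), G.Cen w1 → G.Cen w2 →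
    w1 ≠ 1 → w2 ≠ 1 → (∀ P, G.u (w1 P) = G.u P) → (∀ P, G.v (w2 P) = G.v P) →
    ∀ (k l κ lam : K) (P : S), G.c k l P = G.b lam (G.a κ P) →
      (∃ κ1 : K, κ1 ≠ 0 ∧ G.c κ1 lam = 1) ∧ (∃ l2 : K, l2 ≠ 0 ∧ G.c κ l2 = 1)

/-- [TP J2] (about 120 lines)

Hypotheses: `h1` (J1 for `G`): if `c k l P = b λ (a κ P)` then `c κ1 λ = 1` for some `κ1 ≠ 0` and
`c κ λ2 = 1` for some `λ2 ≠ 0`. `hD`: if `c k0 l0 = 1`, `k0, l0 ≠ 0` then all `c k0 l` preserve `u`;
`hD'`: and all `c k l0` preserve `v`.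
Proof. Consequences: (A) all `c κ l'` preserve `u` (if `κ ≠ 0` by `hD` with `(κ, λ2)`; `c 0 l' = 1`),
(B) all `c k' λ` preserve `v`.
`w = c k l`, `w P = b λ (a κ P)`. From it `w⁻¹ P = a (-κ) (b (-λ) P)` (apply `w⁻¹`, use `Cen`).
`u (w⁻¹ (b (-l) P)) = u (b (-l) (a (-κ) (b (-λ) P)))
 = u (c (-κ) (-l) (a (-κ) (b (-l) (b (-λ) P)))) = u (a (-κ) (b (-l - λ) P)) = u (b (-l - λ) P)`
(`ba_apply`, (A) as `c (-κ) (-l) = c κ l`).
`v (w (a (-k) P)) = v (a (-k) (b λ (a κ P))) = v ((c (-k) λ)⁻¹ (b λ (a (-k) (a κ P))))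
 = v (b λ (a (-k + κ) P)) = v (a (-k + κ) P)` (`ab_apply`, (B)). With `rat'` this is the first claim.
Second claim: let `c (-k) l P = w⁻¹ P = b λ' (a κ' P)`; `c κ' l'` preserve `u`, `c k' λ'` preserve `v` as
above. `u (w⁻¹ P) = u (b λ' (a κ' P)) = u (c κ' λ' (a κ' (b λ' P))) = u (b λ' P)`, and
`u (w⁻¹ P) = u (a (-κ) (b (-λ) P)) = u (b (-λ) P)`, so `λ' = -λ` (`u_b_inj'`).
`v (w⁻¹ P) = v (a κ' P)` and `v (w⁻¹ P) = v (a (-κ) (b (-λ) P)) =
v ((c (-κ) (-λ))⁻¹ (b (-λ) (a (-κ) P))) = v (a (-κ) P)` by (B), so `κ' = -κ`. -/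
def S_J2 : Prop :=
  ∀ (K S : Type) [Field K] (G : Grid K S),
    (∀ (k l κ lam : K) (P : S), G.c k l P = G.b lam (G.a κ P) →
      (∃ κ1 : K, κ1 ≠ 0 ∧ G.c κ1 lam = 1) ∧ (∃ l2 : K, l2 ≠ 0 ∧ G.c κ l2 = 1)) →
    (∀ k0 l0 : K, k0 ≠ 0 → l0 ≠ 0 → G.c k0 l0 = 1 →
      ∀ (l : K) (P : S), G.u (G.c k0 l P) = G.u P) →
    (∀ k0 l0 : K, k0 ≠ 0 → l0 ≠ 0 → G.c k0 l0 = 1 →
      ∀ (k : K) (P : S), G.v (G.c k l0 P) = G.v P) →
    ∀ (k l κ lam : K) (P : S), k ≠ 0 → l ≠ 0 → G.c k l P = G.b lam (G.a κ P) →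
      (G.u (G.b (-l - lam) P) - G.u (G.b l P)) * (G.v (G.a (-k + κ) P) - G.v (G.a k P)) =
        (G.u (G.b l P) - G.u P) * (G.v (G.a k P) - G.v P) ∧
      G.c (-k) l P = G.b (-lam) (G.a (-κ) P)

/-- [TP J3] (about 40 lines, pure algebra)

Proof. In the docstring of the file: adding the four equations (expanded) gives `-4 m m' B B' = 0`,
so `B = 0` or `B' = 0`. If `B = 0`, equations 1 + 3 give `n n' (-2 m) = 0`; if `B' = 0`, equations 1 + 4
give `n n' (-2 m') = 0`. (`linear_combination` with `3 = 0`; `m, m', n, n' ≠ 0`.) -/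
def S_J3 : Prop :=
  ∀ (K : Type) [Field K], (3 : K) = 0 → ∀ n n' m m' B B' : K, n ≠ 0 → n' ≠ 0 → m ≠ 0 → m' ≠ 0 →
    (n - B' * (1 + m)) * (n' + B * (1 + m')) = n * n' * (1 - m) * (1 - m') →
    (n + B' * (1 - m)) * (n' - B * (1 - m')) = n * n' * (1 + m) * (1 + m') →
    (n + B' * (1 + m)) * (n' + B * (1 - m')) = n * n' * (1 - m) * (1 + m') →
    (n - B' * (1 - m)) * (n' - B * (1 + m')) = n * n' * (1 + m) * (1 - m') → False

/-- [TP J4] (about 150 lines)

Proof. Let `k1, l1` be such that `a k1`, `b l1` are not AP (`¬ APa k1`, `¬ APb l1`), so `k1, l1 ≠ 0`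
(`3 = 0`). By D2 for `(k0, l0)`: `c k0 l1` preserves `u`, and `c k0 l1 ≠ 1` by `T0b`; by D2 for `G.symm`:
`c k1 l0` preserves `v`, `≠ 1` by `T0a`. So J1 applies with `w1 = c k0 l1`, `w2 = c k1 l0`; D2 for `G` and
`G.symm` give the other hypotheses of J2 (`symm_c`: inverse).
`APb l1` fails at some point, but by D3 it fails at every point (if it holds at one point then
`c k0 l1 = 1`, then `T0b`); similarly for `k1`. Fix any `P`. D4 for `G` (with `E` from D2) gives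
`n, m` with `u (b x P) - u P = n x/(1 + m x)`, D4 for `G.symm` gives `n', m'` with
`v (a y P) - v P = n' y/(1 + m' y)`. `m l1 ≠ 0`: if `m x = 0` then `m (-x) = 0` and
`u (b x P) - u P + u (b (-x) P) - u P = n x - n x = 0`, so AP at `P`. Similarly `m' k1 ≠ 0`.
Let `c k1 l1 P = b λ (a κ P)` (`coords`). By J1 `c κ1 λ = 1`, `κ1 ≠ 0`, so (`T0b` if `λ ≠ 0`)
`b λ` is AP, `m λ = 0` by D4; similarly `m' κ = 0`. Put `B' = n λ`, `B = n' κ`, and write
`n, m, n', m'` for `n l1, m l1, n' k1, m' k1`. Then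
`u (b (-l1 - λ) P) - u P = -(n + B')/(1 - m)`, `u (b l1 P) - u P = n/(1 + m)`,
`v (a (-k1 + κ) P) - v P = (-n' + B)/(1 - m')`, `v (a k1 P) - v P = n'/(1 + m')`, and the first
claim of J2, multiplied by `(1-m)(1+m)(1-m')(1+m')`, is
`(n - B' (1+m)) (n' + B (1+m')) = n n' (1-m) (1-m')` (`-2 = 1`).
The second claim of J2 (used once, twice) gives the coordinates `(-κ, -λ)` for
`c (-k1) l1 P` and `c k1 (-l1) P` (`c_neg_left`, `c_neg_right`: the same element), and `(κ, λ)` for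
`c (-k1) (-l1) P = c k1 l1 P`. The first claim for `(-k1, -l1)`, `(-k1, l1)`, `(k1, -l1)` gives the
other three equations of J3 (replace `n', m'` by their negatives for `-k1`, `n, m` for `-l1`, and
`B, B'` by their negatives when exactly one sign is changed). J3 gives the contradiction. -/
def S_J4 : Prop :=
  S_D1 → S_D2 → S_D3 → S_D4 → S_J1 → S_J2 → S_J3 →
  ∀ (K S : Type) [Field K] (G : Grid K S) (k0 l0 : K), k0 ≠ 0 → l0 ≠ 0 → G.c k0 l0 = 1 →
    (∀ l, G.APb l) ∨ (∀ k, G.APa k)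

/-! ## H. from grids back to the spread set -/

/-- `p` is an AP class (for `δ`): for `M, N, N' ∈ S` with `N p = M p + k δ`, `N' p = M p - k δ` the
values of `M + N + N'` are multiples of `δ`. -/
def APcls (K U : Type) [Field K] [AddCommGroup U] [Module K U] (S : Set (Module.End K U))
    (δ p : U) : Prop :=
  ∀ k : K, ∀ M ∈ S, ∀ N ∈ S, ∀ N' ∈ S, N p = M p + k • δ → N' p = M p - k • δ →
    ∀ x : U, ∃ t : K, (M + N + N') x = t • δ

/-- [TP H1] (about 80 lines)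

Proof. Let `G` be the grid of `(p, r, δ, η)`. If `APa k` for all `k`: for `M, N, N'` as in `APcls`,
`N = a k M`, `N' = a (-k) M` (by `uq` at `p`), and `F = M + N + N'` satisfies `η (F p) = 3 η (M p) = 0`,
`η (F r) = v M + v N + v N' = 0`; as `p, r` is a basis `η ∘ F = 0`, so all values of `F` are
multiples of `δ`. Similarly for `APb` and `r`. -/
def S_H1 : Prop :=
  ∀ (K U : Type) [Field K] [AddCommGroup U] [Module K U] (S : Set (Module.End K U)),
    Module.finrank K U = 2 → (3 : K) = 0 → SpreadSet K U S →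
    ∀ (p r δ : U) (η : U →ₗ[K] K), LinearIndependent K ![p, r] → δ ≠ 0 →
      (∀ x : U, η x = 0 ↔ ∃ t : K, x = t • δ) →
      ∀ G : Grid K S, (∀ M : S, G.u M = η ((M : Module.End K U) p)) →
        (∀ M : S, G.v M = η ((M : Module.End K U) r)) →
        (∀ (k : K) (M : S), (G.a k M : Module.End K U) p = (M : Module.End K U) p + k • δ) →
        (∀ (l : K) (M : S), (G.b l M : Module.End K U) r = (M : Module.End K U) r + l • δ) →
        ((∀ k, G.APa k) ↔ APcls K U S δ p) ∧ ((∀ l, G.APb l) ↔ APcls K U S δ r)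

/-- [TP H2] (about 80 lines)

Proof. All `c k l = 1`, so `a k` and `b l` commute and `a k` permutes rows: if `v P = v Q`,
`Q = b l P` then `v (a k Q) = v (b l (a k P)) = v (a k P)`. Fix any `P0` and `f k = v (a k P0)`; by
`APa` at `a x P0`, `f x + f (x + y) + f (x - y) = 0`, so (Jensen, as in D4) `f k = f 0 + L k` with
`L` additive; `L` is surjective (`f` is: every point of the column of `P0` is `a k P0`). For a
point `P`: let `R` be the point in the column of `P0` and in the row of `P`, `R = a m P0`; then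
`v (a k P) = v (a k R) = v (a (k + m) P0) = f 0 + L m + L k = v R + L k = v P + L k`. -/
def S_H2 : Prop :=
  ∀ (K S : Type) [Field K] (G : Grid K S), (∀ k l, G.c k l = 1) → (∀ k, G.APa k) →
    ∃ L : K → K, ∀ (k : K) (P : S), G.v (G.a k P) = G.v P + L k

/-- [TP H3] (about 200 lines) All commute.

Hypotheses: `hC` (C2), and the three grid theorems `GT1, GT2, GT3` for all grids over finite `K`.
Proof. Fix `δ ≠ 0` and a functional `η` with kernel `K δ` (finrank 2). For independent `p, r` let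
`G(p,r)` be the grid from `hC`.
(1) For independent `p, r`: `APcls p` or `APcls r` (`GT1` and H1).
(2) `APcls (t p) ↔ APcls p` for `t ≠ 0`: replace `k` by `t⁻¹ k`.
(3) If `APcls p`, `APcls r` with `p, r` independent then `APcls q` for all `q ≠ 0`: if `q` is a
multiple of `p` or of `r` use (2). Otherwise `q = α p + β r`, `α, β ≠ 0`. In `G(p,r)` all `c = 1` (GT2)
and by H2 `η (N r) = η (M r) + L k` whenever `N p = M p + k δ` (`M, N ∈ S`). Consider
`G' = G(p, q)` (independent): it has the same `a` (`uq` at `p`), `v' M = η (M q) = α η (M p) + β η (M r)`,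
so `v' (a k M) = v' M + β L k`: `a k` permutes the rows of `G'`. By GT3 all `b` of `G'` are AP,
so `APcls q` by H1.
(4) `APcls p` for all `p ≠ 0`: suppose `q ≠ 0` is not. Choose `p` independent of `q`; `p` and
`p + q` are independent of `q` and of each other, so both are AP classes by (1), and (3) gives
`APcls q`. Contradiction.
(5) For independent `p, r` all `c k l = 1` in `G(p,r)` by GT2, H1. So `a 1` and `b 1` commute at `M`:
`N = a 1 M`, `N' = b 1 M`, `X = b 1 N = a 1 N'`. -/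
def S_H3 : Prop :=
  S_H1 → S_H2 →
  (∀ (K U : Type) [Field K] [Finite K] [AddCommGroup U] [Module K U]
    (S : Set (Module.End K U)), Module.finrank K U = 2 → (3 : K) = 0 → SpreadSet K U S →
    Hex K U S → ∀ (p r δ : U) (η : U →ₗ[K] K), LinearIndependent K ![p, r] → δ ≠ 0 →
      (∀ x : U, η x = 0 ↔ ∃ t : K, x = t • δ) →
      ∃ G : Grid K S, (∀ M : S, G.u M = η ((M : Module.End K U) p)) ∧
        (∀ M : S, G.v M = η ((M : Module.End K U) r)) ∧
        (∀ (k : K) (M : S), (G.a k M : Module.End K U) p = (M : Module.End K U) p + k • δ) ∧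
        (∀ (l : K) (M : S), (G.b l M : Module.End K U) r = (M : Module.End K U) r + l • δ)) →
  (∀ (K S : Type) [Field K] [Finite K] (G : Grid K S), (∀ l, G.APb l) ∨ (∀ k, G.APa k)) →
  (∀ (K S : Type) [Field K] [Finite K] (G : Grid K S), (∀ l, G.APb l) → (∀ k, G.APa k) →
    ∀ k l, G.c k l = 1) →
  (∀ (K S : Type) [Field K] [Finite K] (G : Grid K S),
    (∀ (k : K) (P Q : S), G.v P = G.v Q → G.v (G.a k P) = G.v (G.a k Q)) → ∀ l, G.APb l) →
  ∀ (K U : Type) [Field K] [Finite K] [AddCommGroup U] [Module K U]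
    (S : Set (Module.End K U)), Module.finrank K U = 2 → (3 : K) = 0 → SpreadSet K U S →
    Hex K U S → ∀ p r δ : U, LinearIndependent K ![p, r] → δ ≠ 0 →
      ∀ M ∈ S, ∀ N ∈ S, ∀ N' ∈ S, ∀ X ∈ S, N p = M p + δ → N' r = M r + δ → X r = N r + δ →
        X p = N' p + δ

/-- [TP H4] (about 150 lines) Commuting implies additive.

Proof. Nonzero members of `S` are bijective. Step 1: if `N1, N2 ∈ S` are nonzero and not
proportional (no `t` with `N2 = t N1`) then `N1 + N2 ∈ S`. There is `δ ≠ 0` such that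
`p = N1⁻¹ δ`, `r = N2⁻¹ δ` are independent: otherwise for every `δ`, `N2⁻¹ δ` is a multiple of
`N1⁻¹ δ`, i.e. every vector is an eigenvector of the linear map `N2 N1⁻¹` (or `N1 N2⁻¹`), which is then
scalar, so `N2 = t N1`.  Apply the hypothesis with `M = 0`, `N = N1` (`N1 p = δ`), `N' = N2`
(`N2 r = δ`), `X ∈ S` with `X r = N1 r + δ` (`ex`): `X p = N2 p + δ`. So `X p = (N1 + N2) p`,
`X r = (N1 + N2) r`, and `p, r` is a basis, so `N1 + N2 = X ∈ S`.
Step 2: `-M ∈ S` for `M ∈ S`: `M = 0` clear. Choose `L ∈ S` nonzero and not proportional to `M`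
(`S → U`, `N ↦ N p` is onto, so pick `L` with `L p` not a multiple of `M p`, `p ≠ 0`). Then
`M + L`, `M + 2L = M - L`, `2M - L = -M - L`, `-M` are successively in `S` by step 1 (each time the
two summands are nonzero and not proportional; `3 = 0`).
Step 3: `M + N ∈ S` for `N = t M`: if `M = 0` or `t = 0` clear, if `t = -1` it is `0`. Otherwise
choose `L` as in step 2; `M + L ∈ S`, `tM - L ∈ S` (step 1, 2), and they are nonzero and not
proportional since `t ≠ -1`, so their sum `(1 + t) M ∈ S`. -/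
def S_H4 : Prop :=
  ∀ (K U : Type) [Field K] [AddCommGroup U] [Module K U]
    (S : Set (Module.End K U)), Module.finrank K U = 2 → (3 : K) = 0 → SpreadSet K U S →
    (∀ p r δ : U, LinearIndependent K ![p, r] → δ ≠ 0 →
      ∀ M ∈ S, ∀ N ∈ S, ∀ N' ∈ S, ∀ X ∈ S, N p = M p + δ → N' r = M r + δ → X r = N r + δ →
        X p = N' p + δ) →
    (∀ M ∈ S, ∀ N ∈ S, M + N ∈ S) ∧ ∀ M ∈ S, -M ∈ S

end Pool.Agent.TP3
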